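import Mathlib

/-! Basic definitions for the ball filling of a rational 6-torus. -/

open scoped ContDiff

namespace Pool.Agent.Lib.BallT6

/-- The standard area form `dx ∧ dy` on `ℂ`. -/
def om (a b : ℂ) : ℝ := a.re * b.im - a.im * b.re

/-- The standard symplectic form on `ℂ³`. -/
def om3 (a b : ℂ × ℂ × ℂ) : ℝ := om a.1 b.1 + om a.2.1 b.2.1 + om a.2.2 b.2.2

/-- The standard symplectic form on `ℂ³ × ℂ`. -/
def om4 (a b : (ℂ × ℂ × ℂ) × ℂ) : ℝ := om3 a.1 b.1 + om a.2 b.2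

/-- The moment coordinate `π |z|²`. -/
noncomputable def mu (z : ℂ) : ℝ := Real.pi * (z.re ^ 2 + z.im ^ 2)

/-- A smooth injective area preserving map of the plane. -/
structure Planar (f : ℂ → ℂ) : Prop where
  smooth : ContDiff ℝ ∞ f
  inj : Function.Injective f
  symp : ∀ z v w, om (fderiv ℝ f z v) (fderiv ℝ f z w) = om v w

/-- Smooth and symplectic at one point of `ℂ³`. -/
structure SympAt (F : ℂ × ℂ × ℂ → ℂ × ℂ × ℂ) (p : ℂ × ℂ × ℂ) : Prop where
  smooth : ContDiffAt ℝ ∞ F p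
  symp : ∀ v w, om3 (fderiv ℝ F p v) (fderiv ℝ F p w) = om3 v w

/-- A smooth symplectic map of `ℂ³ × ℂ` that covers the family `M h` of maps of `ℂ³`,
keeps `h` (the real part of the last coordinate) and shifts the imaginary part of the last
coordinate by a function of the other data. -/
structure Susp (F : (ℂ × ℂ × ℂ) × ℂ → (ℂ × ℂ × ℂ) × ℂ) (M : ℝ → ℂ × ℂ × ℂ → ℂ × ℂ × ℂ) :
    Prop where
  smooth : ContDiff ℝ ∞ F
  symp : ∀ p v w, om4 (fderiv ℝ F p v) (fderiv ℝ F p w) = om4 v w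
  fst : ∀ p, (F p).1 = M p.2.re p.1
  re : ∀ p, (F p).2.re = p.2.re
  im : ∃ k : ℂ × ℂ × ℂ → ℝ → ℝ, ∀ p, (F p).2.im = p.2.im + k p.1 p.2.re

/-- Cyclic shift of the three homogeneous coordinates. -/
def cyc (W : ℂ × ℂ × ℂ) : ℂ × ℂ × ℂ := (W.2.1, W.2.2, W.1)

/-- Real rotation of the first two homogeneous coordinates. -/
noncomputable def rot (θ : ℝ) (W : ℂ × ℂ × ℂ) : ℂ × ℂ × ℂ :=
  ((Real.cos θ : ℂ) * W.1 + (Real.sin θ : ℂ) * W.2.1,
    -(Real.sin θ : ℂ) * W.1 + (Real.cos θ : ℂ) * W.2.1, W.2.2)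

/-- Lift of the ball of capacity 3 in `ℂ²` to the sphere in `ℂ³`. -/
noncomputable def lift (p : ℂ × ℂ × ℂ) : (ℂ × ℂ × ℂ) × ℂ :=
  ((((Real.sqrt ((3 - mu p.1 - mu p.2.1) / Real.pi) : ℝ) : ℂ), p.1, p.2.1), p.2.2)

/-- Projection of the sphere minus a hyperplane to the ball in `ℂ²`. -/
noncomputable def proj (q : (ℂ × ℂ × ℂ) × ℂ) : ℂ × ℂ × ℂ :=
  ((starRingEnd ℂ q.1.1 / ((‖q.1.1‖ : ℝ) : ℂ)) * q.1.2.1,
    (starRingEnd ℂ q.1.1 / ((‖q.1.1‖ : ℝ) : ℂ)) * q.1.2.2, q.2)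

theorem mu_nonneg (z : ℂ) : 0 ≤ mu z := by
  unfold mu; positivity

theorem mu_eq_norm (z : ℂ) : mu z = Real.pi * ‖z‖ ^ 2 := by
  unfold mu; rw [Complex.sq_norm, Complex.normSq_apply]; ring

theorem contDiff_mu : ContDiff ℝ ∞ mu := by
  unfold mu
  exact contDiff_const.mul
    ((Complex.reCLM.contDiff.pow 2).add (Complex.imCLM.contDiff.pow 2))

theorem Planar.comp {f g : ℂ → ℂ} (hf : Planar f) (hg : Planar g) : Planar (f ∘ g) := by
  refine ⟨hf.smooth.comp hg.smooth, hf.inj.comp hg.inj, fun z v w => ?_⟩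
  rw [fderiv_comp z (hf.smooth.differentiable (by simp) _) (hg.smooth.differentiable (by simp) _)]
  simp only [ContinuousLinearMap.coe_comp, Function.comp_apply]
  rw [hf.symp, hg.symp]

theorem SympAt.comp {F G : ℂ × ℂ × ℂ → ℂ × ℂ × ℂ} {p : ℂ × ℂ × ℂ} (hF : SympAt F (G p))
    (hG : SympAt G p) : SympAt (F ∘ G) p := by
  refine ⟨hF.smooth.comp p hG.smooth, fun v w => ?_⟩
  rw [fderiv_comp p (hF.smooth.differentiableAt (by simp)) (hG.smooth.differentiableAt (by simp))]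
  simp only [ContinuousLinearMap.coe_comp, Function.comp_apply]
  rw [hF.symp, hG.symp]

theorem Susp.comp {F G : (ℂ × ℂ × ℂ) × ℂ → (ℂ × ℂ × ℂ) × ℂ} {M N : ℝ → ℂ × ℂ × ℂ → ℂ × ℂ × ℂ}
    (hF : Susp F M) (hG : Susp G N) : Susp (F ∘ G) (fun h W => M h (N h W)) := by
  obtain ⟨k, hk⟩ := hF.im
  obtain ⟨l, hl⟩ := hG.im
  refine ⟨hF.smooth.comp hG.smooth, fun p v w => ?_, fun p => ?_, fun p => ?_,
    ⟨fun W h => l W h + k (N h W) h, fun p => ?_⟩⟩
  · rw [fderiv_comp p (hF.smooth.differentiable (by simp) _) (hG.smooth.differentiable (by simp) _)]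
    simp only [ContinuousLinearMap.coe_comp, Function.comp_apply]
    rw [hF.symp, hG.symp]
  · simp only [Function.comp_apply]; rw [hF.fst, hG.re, hG.fst]
  · simp only [Function.comp_apply]; rw [hF.re, hG.re]
  · simp only [Function.comp_apply]; rw [hk, hl, hG.re, hG.fst]; ring

/-- A product of three planar maps is symplectic. -/
theorem sympAt_prod {f g k : ℂ → ℂ} (hf : Planar f) (hg : Planar g) (hk : Planar k)
    (p : ℂ × ℂ × ℂ) : SympAt (fun q => (f q.1, g q.2.1, k q.2.2)) p := by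
  have h1 : HasFDerivAt (fun q : ℂ × ℂ × ℂ => f q.1)
      ((fderiv ℝ f p.1).comp (ContinuousLinearMap.fst ℝ ℂ (ℂ × ℂ))) p :=
    (hf.smooth.differentiable (by simp) _).hasFDerivAt.comp p hasFDerivAt_fst
  have h2 : HasFDerivAt (fun q : ℂ × ℂ × ℂ => g q.2.1)
      ((fderiv ℝ g p.2.1).comp ((ContinuousLinearMap.fst ℝ ℂ ℂ).comp
        (ContinuousLinearMap.snd ℝ ℂ (ℂ × ℂ)))) p :=
    (hg.smooth.differentiable (by simp) _).hasFDerivAt.comp p
      (hasFDerivAt_fst.comp p hasFDerivAt_snd)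
  have h3 : HasFDerivAt (fun q : ℂ × ℂ × ℂ => k q.2.2)
      ((fderiv ℝ k p.2.2).comp ((ContinuousLinearMap.snd ℝ ℂ ℂ).comp
        (ContinuousLinearMap.snd ℝ ℂ (ℂ × ℂ)))) p :=
    (hk.smooth.differentiable (by simp) _).hasFDerivAt.comp p
      (hasFDerivAt_snd.comp p hasFDerivAt_snd)
  refine ⟨?_, fun v w => ?_⟩
  · exact ((hf.smooth.comp contDiff_fst).prodMk
      ((hg.smooth.comp (contDiff_fst.comp contDiff_snd)).prodMk
        (hk.smooth.comp (contDiff_snd.comp contDiff_snd)))).contDiffAt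
  · rw [(h1.prodMk (h2.prodMk h3)).fderiv]
    simp [om3, hf.symp, hg.symp, hk.symp]

theorem planar_id : Planar id :=
  ⟨contDiff_id, Function.injective_id, fun z v w => by simp⟩

end Pool.Agent.Lib.BallT6
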