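import Pool.Agent.Lib.MP_d7b9cc_gt.Strip

/-! An area preserving map of the plane into the plane minus a ray which raises the
moment coordinate only by a small amount. -/

open scoped ContDiff
open Filter Topology

namespace Pool.Agent.Lib.BallT6

section
variable {e : ℝ} (he : 0 < e)
include he

omit he in
theorem le_sqrt' (u : ℝ) : e ≤ Real.sqrt (u ^ 2 + e ^ 2) :=
  Real.le_sqrt_of_sq_le (by nlinarith [sq_nonneg u])

theorem ht_eq (u : ℝ) : hh e (-(e / 2)) u = (2 * Real.sqrt (u ^ 2 + e ^ 2) + e) *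
    (Real.sqrt (u ^ 2 + e ^ 2) - e) / (2 * Real.sqrt (u ^ 2 + e ^ 2)) := by
  have hp := sq_pos' he u
  have hs := Real.sqrt_pos.mpr hp
  have hq := Real.sq_sqrt hp.le
  unfold hh
  field_simp
  linear_combination (-2 : ℝ) * hq

theorem ht_nonneg (u : ℝ) : 0 ≤ hh e (-(e / 2)) u := by
  have h := sub_nonneg.mpr (le_sqrt' (e := e) u)
  rw [ht_eq he]
  positivity

theorem ht_zero : hh e (-(e / 2)) 0 = 0 := by
  rw [ht_eq he]
  simp [Real.sqrt_sq he.le]

omit he in
theorem Ht_eq (u : ℝ) : HH e (-(e / 2)) u = u * ((Real.sqrt (u ^ 2 + e ^ 2) - e) / 2) := by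
  unfold HH; ring

theorem ht_sq_le (u : ℝ) : hh e (-(e / 2)) u ^ 2 ≤ 2 * |HH e (-(e / 2)) u| := by
  have hp := sq_pos' he u
  have hs := Real.sqrt_pos.mpr hp
  have hq := Real.sq_sqrt hp.le
  have h := sub_nonneg.mpr (le_sqrt' (e := e) u)
  rw [ht_eq he, Ht_eq, abs_mul, abs_of_nonneg (by positivity : 0 ≤ (√(u ^ 2 + e ^ 2) - e) / 2)]
  set s := Real.sqrt (u ^ 2 + e ^ 2)
  have h1 : (2 * s + e) ^ 2 * (s - e) ≤ 4 * s ^ 2 * |u| := by
    rw [← sq_le_sq₀ (by positivity) (by positivity), mul_pow (4 * s ^ 2), sq_abs]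
    have hu : u ^ 2 = (s - e) * (s + e) := by linear_combination (-1 : ℝ) * hq
    rw [hu]
    have h2 : 0 ≤ (s - e) * (8 * s ^ 3 * e ^ 2 + 16 * s ^ 2 * e ^ 3 + 7 * s * e ^ 4 + e ^ 5) := by
      positivity
    nlinarith
  rw [div_pow, div_le_iff₀ (by positivity)]
  nlinarith [mul_le_mul_of_nonneg_right h1 h]

omit he in
theorem abs_Ht_le {κ : ℝ} (hκ : 0 ≤ κ) (u : ℝ) :
    |HH e (-(e / 2)) u| ≤ |HH e (-(e / 2)) u + κ * u| := by
  have h := sub_nonneg.mpr (le_sqrt' (e := e) u)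
  have e1 : HH e (-(e / 2)) u + κ * u = u * ((Real.sqrt (u ^ 2 + e ^ 2) - e) / 2 + κ) := by
    rw [Ht_eq]; ring
  rw [e1, Ht_eq, abs_mul, abs_mul]
  gcongr
  linarith

theorem Xi_strictMono {κ : ℝ} (hκ : 0 < κ) :
    StrictMono (fun u => HH e (-(e / 2)) u + κ * u) :=
  strictMono_of_deriv_pos fun u => by
    have := (hasDerivAt_HH he (-(e / 2)) u).add ((hasDerivAt_id u).const_mul κ)
    have h2 : deriv (fun u => HH e (-(e / 2)) u + κ * u) u = _ := this.deriv
    rw [h2]
    have := ht_nonneg he u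
    linarith

theorem Xi_bij : Function.Bijective
    (mk2 (fun z => HH e (-(e / 2)) z.re + e * (1 + z.im ^ 2)⁻¹ * z.re) (fun z => z.im)) := by
  constructor
  · intro p q h
    have h1 := congrArg Complex.re h
    have h2 := congrArg Complex.im h
    rw [mk2_im, mk2_im] at h2
    rw [mk2_re, mk2_re, h2] at h1
    exact Complex.ext ((Xi_strictMono he (by positivity)).injective h1) h2
  · intro z
    have hκ : 0 < e * (1 + z.im ^ 2)⁻¹ := by positivity
    set κ := e * (1 + z.im ^ 2)⁻¹ with hκ'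
    have hc : Continuous (fun u => HH e (-(e / 2)) u + κ * u) :=
      (contDiff_HH he _).continuous.add (continuous_const.mul continuous_id)
    have ht : 0 ≤ |z.re| / κ := by positivity
    have hk : κ * (|z.re| / κ) = |z.re| := mul_div_cancel₀ _ hκ.ne'
    have h := intermediate_value_Icc (a := -(|z.re| / κ)) (b := |z.re| / κ) (by linarith)
      hc.continuousOn
    have hz : z.re ∈ Set.Icc (HH e (-(e / 2)) (-(|z.re| / κ)) + κ * (-(|z.re| / κ)))
        (HH e (-(e / 2)) (|z.re| / κ) + κ * (|z.re| / κ)) := by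
      have h1 := sub_nonneg.mpr (le_sqrt' (e := e) (|z.re| / κ))
      have h2 := sub_nonneg.mpr (le_sqrt' (e := e) (-(|z.re| / κ)))
      rw [Ht_eq, Ht_eq, mul_neg, hk]
      constructor
      · nlinarith [neg_abs_le z.re, mul_nonneg ht h2]
      · nlinarith [le_abs_self z.re, mul_nonneg ht h1]
    obtain ⟨u, -, hu⟩ := h hz
    exact ⟨⟨u, z.im⟩, Complex.ext (by rw [mk2_re]; exact hu) (mk2_im _ _ _)⟩

theorem jac_Xi : Jac
    (mk2 (fun z => HH e (-(e / 2)) z.re + e * (1 + z.im ^ 2)⁻¹ * z.re) (fun z => z.im))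
    (fun z => hh e (-(e / 2)) z.re + e * (1 + z.im ^ 2)⁻¹) := by
  have hc : ContDiff ℝ ∞ (fun m : ℝ => e * (1 + m ^ 2)⁻¹) :=
    contDiff_const.mul ((contDiff_const.add (contDiff_id.pow 2)).inv fun m => by positivity)
  refine jac_mk2 (((contDiff_HH he _).comp Complex.reCLM.contDiff).add
    ((hc.comp Complex.imCLM.contDiff).mul Complex.reCLM.contDiff)) Complex.imCLM.contDiff
    fun z => ?_
  refine ⟨_, _, _, _, (hasPD_re (hasDerivAt_HH he _ z.re)).add
    ((hasPD_im (hc.differentiable (by simp) z.im).hasDerivAt).mul (hasPD_re (hasDerivAt_id z.re))),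
    hasPD_im (hasDerivAt_id z.im), ?_⟩
  simp

theorem jac_out : Jac
    (mk2 (fun z => (-z.im) * hh e (-(e / 2)) z.re + e * (Real.pi / 2 - Real.arctan z.im))
      (fun z => z.re)) (fun z => hh e (-(e / 2)) z.re + e * (1 + z.im ^ 2)⁻¹) := by
  refine jac_mk2 ((Complex.imCLM.contDiff.neg.mul
    ((contDiff_hh he _).comp Complex.reCLM.contDiff)).add (contDiff_const.mul (contDiff_const.sub
      (Real.contDiff_arctan.comp Complex.imCLM.contDiff)))) Complex.reCLM.contDiff fun z => ?_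
  refine ⟨_, _, _, _, ((hasPD_im (hasDerivAt_id z.im).neg).mul
    (hasPD_re ((contDiff_hh he _).differentiable (by simp) z.re).hasDerivAt)).add
    (hasPD_im (((Real.hasDerivAt_arctan' z.im).const_sub (Real.pi / 2)).const_mul e)),
    hasPD_re (hasDerivAt_id z.re), ?_⟩
  simp
  ring

theorem out_inj : Function.Injective
    (mk2 (fun z => (-z.im) * hh e (-(e / 2)) z.re + e * (Real.pi / 2 - Real.arctan z.im))
      (fun z => z.re)) := by
  intro p q h
  have h1 := congrArg Complex.re h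
  have h2 := congrArg Complex.im h
  rw [mk2_im, mk2_im] at h2
  rw [mk2_re, mk2_re, h2] at h1
  refine Complex.ext h2 ?_
  have h0 := ht_nonneg he q.re
  rcases lt_trichotomy p.im q.im with hlt | heq | hlt
  · have := Real.arctan_strictMono hlt
    nlinarith [mul_le_mul_of_nonneg_right hlt.le h0]
  · exact heq
  · have := Real.arctan_strictMono hlt
    nlinarith [mul_le_mul_of_nonneg_right hlt.le h0]

end

theorem exists_slit {ε : ℝ} (hε : 0 < ε) : ∃ τ : ℂ → ℂ, Planar τ ∧
    (∀ z, (τ z).im = 0 → 0 < (τ z).re) ∧ ∀ z, mu z ≤ 3 → mu (τ z) ≤ mu z + ε := by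
  obtain ⟨δ, hδ, hδ1, hδε⟩ : ∃ δ : ℝ, 0 < δ ∧ δ ≤ 1 ∧ δ ≤ ε / 200 :=
    ⟨min 1 (ε / 200), by positivity, min_le_left _ _, min_le_right _ _⟩
  have hη : 0 < δ ^ 2 := by positivity
  have hπ := Real.pi_pos
  have hJ : Jac (mk2 (fun z => HH (δ ^ 2) δ z.re) (fun z => z.im))
      (fun z => hh (δ ^ 2) δ z.re) := by
    refine jac_mk2 ((contDiff_HH hη δ).comp Complex.reCLM.contDiff) Complex.imCLM.contDiff
      fun z => ?_
    exact ⟨_, _, _, _, hasPD_re (hasDerivAt_HH hη δ z.re), hasPD_im (hasDerivAt_id z.im), by simp⟩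
  have hi : Function.Injective (mk2 (fun z => HH (δ ^ 2) δ z.re) (fun z => z.im)) := by
    intro p q h
    have h1 := congrArg Complex.re h
    have h2 := congrArg Complex.im h
    rw [mk2_im, mk2_im] at h2
    rw [mk2_re, mk2_re] at h1
    exact Complex.ext ((HH_strictMono hη hδ).injective h1) h2
  have P1 := planar_of_jac hJ (jac_chart hη) (fun z => (hh_pos hη hδ _).ne') hi (chart_bij hη hδ)
  have P2 := planar_of_jac (jac_out hδ) (jac_Xi hδ) (fun z => by
    have := ht_nonneg hδ z.re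
    positivity) (out_inj hδ) (Xi_bij hδ)
  refine ⟨_, P2.comp P1, fun z => ?_, fun z hz => ?_⟩
  · simp only [Function.comp_apply, mk2_im, mk2_re]
    intro h
    rw [h, ht_zero hδ, mul_zero, zero_add]
    exact mul_pos hδ (sub_pos.mpr (Real.arctan_lt_pi_div_two _))
  · have hr := Function.rightInverse_invFun (chart_bij hη hδ).2 z
    simp only [Function.comp_apply]
    set p := Function.invFun (mk2 (fun z => z.re) (fun z => z.im * hh (δ ^ 2) δ z.re)) z
    have hr' := Function.rightInverse_invFun (Xi_bij hδ).2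
      (mk2 (fun z => HH (δ ^ 2) δ z.re) (fun z => z.im) p)
    set q := Function.invFun (mk2 (fun z => HH δ (-(δ / 2)) z.re + δ * (1 + z.im ^ 2)⁻¹ * z.re)
      (fun z => z.im)) (mk2 (fun z => HH (δ ^ 2) δ z.re) (fun z => z.im) p)
    have h1 := congrArg Complex.re hr
    have h2 := congrArg Complex.im hr
    have k1 := congrArg Complex.re hr'
    have k2 := congrArg Complex.im hr'
    rw [mk2_re] at h1
    rw [mk2_im] at h2
    rw [mk2_re, mk2_re] at k1
    rw [mk2_im, mk2_im] at k2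
    have h3 := Real.pi_gt_three
    have h4 := Real.pi_lt_four
    have hz1 : z.re ^ 2 + z.im ^ 2 ≤ 1 := by
      unfold mu at hz
      nlinarith [sq_nonneg z.im, sq_nonneg z.re]
    have hu : |p.re| ≤ 1 := by
      rw [h1, ← sq_le_one_iff_abs_le_one]
      nlinarith [sq_nonneg z.im]
    have hv : |z.im| ≤ 1 := by
      rw [← sq_le_one_iff_abs_le_one]
      nlinarith [sq_nonneg z.re]
    have h5 := abs_HH_le_sq hη hδ le_rfl hu
    have h6 := abs_HH_le hη hδ.le p.re
    have h7 : (δ ^ 2 + 2 * δ) * |p.re| ≤ 3 * δ := by nlinarith [abs_nonneg p.re]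
    have k3 := abs_Ht_le (e := δ) (κ := δ * (1 + q.im ^ 2)⁻¹) (by positivity) q.re
    rw [k1] at k3
    have k4 := ht_sq_le hδ q.re
    have k5 := abs_le_hh hδ (-(δ / 2)) q.re
    have k0 := ht_nonneg hδ q.re
    set t := hh δ (-(δ / 2)) q.re
    have k6 : t ^ 2 ≤ z.re ^ 2 + 3 * δ := by rw [← h1]; linarith
    have k7 : t ≤ 2 := by nlinarith [sq_nonneg z.im]
    have k8 : q.re ^ 2 ≤ z.re ^ 2 + 6 * δ := by
      have : |q.re| ^ 2 ≤ (t + δ / 2) ^ 2 := by
        have := abs_nonneg q.re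
        gcongr
        linarith
      rw [sq_abs] at this
      nlinarith
    have k9 : |-q.im * t| ≤ |z.im| := by
      rw [← sq_le_sq, ← h2, k2, mul_pow, mul_pow, neg_sq]
      exact mul_le_mul_of_nonneg_left (by linarith) (sq_nonneg _)
    have a1 := Real.neg_pi_div_two_lt_arctan q.im
    have a2 := Real.arctan_lt_pi_div_two q.im
    have k10 : |δ * (Real.pi / 2 - Real.arctan q.im)| ≤ 4 * δ := by
      rw [abs_of_nonneg (mul_nonneg hδ.le (by linarith))]
      nlinarith
    have k11 : (-q.im * t + δ * (Real.pi / 2 - Real.arctan q.im)) ^ 2 ≤ z.im ^ 2 + 24 * δ := by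
      have b1 := (abs_add_le _ _).trans (add_le_add k9 k10)
      have b2 : |-q.im * t + δ * (Real.pi / 2 - Real.arctan q.im)| ^ 2 ≤ (|z.im| + 4 * δ) ^ 2 := by
        gcongr
      rw [sq_abs] at b2
      have := sq_abs z.im
      nlinarith
    unfold mu
    rw [mk2_re, mk2_im]
    nlinarith

end Pool.Agent.Lib.BallT6
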