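import Pool.Agent.Lib.MP_d7b9cc_gt.Wrap
import Pool.Agent.Lib.MP_d7b9cc_gt.Slit

/-! Rescaled planar maps, polar coordinates and the one-sided strip map. -/

open scoped ContDiff
open Filter Topology

namespace Pool.Agent.Lib.BallT6

theorem mu_real_mul (s : ℝ) (z : ℂ) : mu ((s : ℂ) * z) = s ^ 2 * mu z := by
  simp [mu]; ring

theorem jac_scale (s : ℝ) : Jac (fun z => (s : ℂ) * z) (fun _ => s ^ 2) := by
  refine ⟨contDiff_const.mul contDiff_id, fun z v w => ?_⟩
  have d : HasFDerivAt (fun z : ℂ => (s : ℂ) * z) _ z := (hasFDerivAt_id (𝕜 := ℝ) z).const_mul (s : ℂ)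
  rw [d.fderiv]
  simp [om]
  ring

theorem jac_stretch (s : ℝ) : Jac (mk2 (fun z => s * z.re) (fun z => z.im)) (fun _ => s) :=
  jac_mk2 (contDiff_const.mul Complex.reCLM.contDiff) Complex.imCLM.contDiff fun z =>
    ⟨_, _, _, _, hasPD_re ((hasDerivAt_id z.re).const_mul s), hasPD_im (hasDerivAt_id z.im),
      by simp⟩

theorem Jac.comp {f g : ℂ → ℂ} {J K : ℂ → ℝ} (hf : Jac f J) (hg : Jac g K) :
    Jac (f ∘ g) (fun z => J (g z) * K z) := by
  refine ⟨hf.smooth.comp hg.smooth, fun z v w => ?_⟩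
  rw [fderiv_comp z (hf.smooth.differentiable (by simp) _) (hg.smooth.differentiable (by simp) _)]
  simp only [ContinuousLinearMap.coe_comp, Function.comp_apply]
  rw [hf.jac, hg.jac, mul_assoc]

theorem Planar.toJac {f : ℂ → ℂ} (hf : Planar f) : Jac f (fun _ => 1) :=
  ⟨hf.smooth, fun z v w => by rw [hf.symp, one_mul]⟩

theorem exists_scale (R : ℝ) : ∃ s : ℝ, 0 < s ∧ R ≤ 3 * s ^ 2 :=
  ⟨|R| + 1, by positivity, by nlinarith [le_abs_self R, abs_nonneg R]⟩

theorem exists_strip' (R : ℝ) {ε : ℝ} (hε : 0 < ε) : ∃ σ : ℂ → ℂ, Planar σ ∧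
    (∀ z, 0 < (σ z).im ∧ (σ z).im < 1) ∧ ∀ z, mu z ≤ R → |(σ z).re| ≤ mu z / 2 + ε := by
  obtain ⟨s, hs, hR⟩ := exists_scale R
  obtain ⟨σ, hσ, h1, h2⟩ := exists_strip (ε := ε / s ^ 2) (by positivity)
  have J := (jac_stretch (s ^ 2)).comp (hσ.toJac.comp (jac_scale s⁻¹))
  refine ⟨_, ⟨J.smooth, ?_, fun z v w => ?_⟩, fun z => ?_, fun z hz => ?_⟩
  · intro p q h
    have a := congrArg Complex.re h
    have b := congrArg Complex.im h
    simp only [Function.comp_apply, mk2_re, mk2_im] at a b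
    have c := hσ.inj (Complex.ext (mul_left_cancel₀ (by positivity) a) b)
    exact mul_left_cancel₀ (by exact_mod_cast (inv_pos.mpr hs).ne') c
  · rw [J.jac]; field_simp
  · simp only [Function.comp_apply, mk2_im]; exact h1 _
  · simp only [Function.comp_apply, mk2_re]
    have e := mu_real_mul s⁻¹ z
    have h3 := h2 (((s⁻¹ : ℝ) : ℂ) * z) (by
      rw [e, inv_pow, inv_mul_le_iff₀ (by positivity)]; linarith)
    rw [abs_mul, abs_of_pos (by positivity : 0 < s ^ 2)]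
    calc s ^ 2 * |(σ (((s⁻¹ : ℝ) : ℂ) * z)).re|
        ≤ s ^ 2 * (mu (((s⁻¹ : ℝ) : ℂ) * z) / 2 + ε / s ^ 2) := by gcongr
      _ = mu z / 2 + ε := by rw [e]; field_simp

theorem exists_slit' (R : ℝ) {ε : ℝ} (hε : 0 < ε) : ∃ τ : ℂ → ℂ, Planar τ ∧
    (∀ z, (τ z).im = 0 → 0 < (τ z).re) ∧ ∀ z, mu z ≤ R → mu (τ z) ≤ mu z + ε := by
  obtain ⟨s, hs, hR⟩ := exists_scale R
  obtain ⟨τ, hτ, h1, h2⟩ := exists_slit (ε := ε / s ^ 2) (by positivity)
  have J := (jac_scale s).comp (hτ.toJac.comp (jac_scale s⁻¹))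
  refine ⟨_, ⟨J.smooth, ?_, fun z v w => ?_⟩, fun z hz => ?_, fun z hz => ?_⟩
  · intro p q h
    simp only [Function.comp_apply] at h
    have c := hτ.inj (mul_left_cancel₀ (by exact_mod_cast hs.ne') h)
    exact mul_left_cancel₀ (by exact_mod_cast (inv_pos.mpr hs).ne') c
  · rw [J.jac]; field_simp
  · simp only [Function.comp_apply, Complex.mul_im, Complex.mul_re, Complex.ofReal_re,
      Complex.ofReal_im, zero_mul, add_zero, sub_zero] at hz ⊢
    exact mul_pos hs (h1 _ ((mul_eq_zero.mp hz).resolve_left hs.ne'))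
  · simp only [Function.comp_apply]
    have e := mu_real_mul s⁻¹ z
    have h3 := h2 (((s⁻¹ : ℝ) : ℂ) * z) (by
      rw [e, inv_pow, inv_mul_le_iff₀ (by positivity)]; linarith)
    rw [mu_real_mul]
    calc s ^ 2 * mu (τ (((s⁻¹ : ℝ) : ℂ) * z))
        ≤ s ^ 2 * (mu (((s⁻¹ : ℝ) : ℂ) * z) + ε / s ^ 2) := by gcongr
      _ = mu z + ε := by rw [e]; field_simp

/-- Symplectic polar coordinates. -/
noncomputable def pol (ξ : ℂ) : ℂ :=
  ph (2 * Real.pi * ξ.im) * ((Real.sqrt (ξ.re / Real.pi) : ℝ) : ℂ)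

theorem mu_pol {ξ : ℂ} (h : 0 ≤ ξ.re) : mu (pol ξ) = ξ.re := by
  have hπ := Real.pi_pos
  unfold pol
  rw [mu_ph_mul]
  show Real.pi * (Real.sqrt (ξ.re / Real.pi) ^ 2 + 0 ^ 2) = _
  rw [Real.sq_sqrt (div_nonneg h hπ.le)]
  field_simp
  ring

theorem contDiffAt_pol {ξ : ℂ} (h : 0 < ξ.re) : ContDiffAt ℝ ∞ pol ξ ∧
    ∀ v w, om (fderiv ℝ pol ξ v) (fderiv ℝ pol ξ w) = om v w := by
  have hπ := Real.pi_pos
  have hq : ξ.re / Real.pi ≠ 0 := (div_pos h hπ).ne'
  have cs : ContDiffAt ℝ ∞ (fun x : ℂ => Real.sqrt (x.re / Real.pi)) ξ :=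
    ContDiffAt.sqrt (Complex.reCLM.contDiff.div_const _).contDiffAt hq
  refine ⟨(contDiff_ph.comp (contDiff_const.mul Complex.imCLM.contDiff)).contDiffAt.mul
    (Complex.ofRealCLM.contDiff.contDiffAt.comp ξ cs), fun v w => ?_⟩
  have d0 : HasDerivAt (fun x : ℝ => Real.sqrt (x / Real.pi))
      (1 / Real.pi / (2 * Real.sqrt (ξ.re / Real.pi))) ξ.re :=
    ((hasDerivAt_id ξ.re).div_const Real.pi).sqrt hq
  have d1 : HasFDerivAt (fun x : ℂ => ((Real.sqrt (x.re / Real.pi) : ℝ) : ℂ)) _ ξ :=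
    Complex.ofRealCLM.hasFDerivAt.comp ξ
      (HasDerivAt.comp_hasFDerivAt (f := fun x : ℂ => x.re) ξ d0 Complex.reCLM.hasFDerivAt)
  obtain ⟨D, hD, e⟩ := hasFDerivAt_phase d1
    ((Complex.imCLM.hasFDerivAt (x := ξ)).const_mul (2 * Real.pi))
  have d : HasFDerivAt pol D ξ := hD
  have hg : ∀ t, (ph t).re ^ 2 + (ph t).im ^ 2 = 1 := fun t => by
    rw [ph_re, ph_im]; exact Real.cos_sq_add_sin_sq t
  rw [d.fderiv, e, e, om_phase _ _ _ _ _ _ (hg _)]
  have hs : Real.sqrt (ξ.re / Real.pi) ≠ 0 := (Real.sqrt_pos.mpr (div_pos h hπ)).ne'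
  generalize Real.sqrt (ξ.re / Real.pi) = r at hs
  simp only [om, ip, ContinuousLinearMap.coe_comp, Function.comp_apply, smul_apply, smul_eq_mul,
    Complex.reCLM_apply, Complex.imCLM_apply, Complex.ofRealCLM_apply, Complex.ofReal_re,
    Complex.ofReal_im]
  field_simp
  ring

theorem ph_add (s t : ℝ) : ph (s + t) = ph s * ph t := by
  apply Complex.ext
  · simp only [Complex.mul_re, ph_re, ph_im, Real.cos_add]
  · simp only [Complex.mul_im, ph_re, ph_im, Real.sin_add]; ring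

theorem ph_zero : ph 0 = 1 := by simp [ph]

theorem ph_inj {s t : ℝ} (h : ph (2 * Real.pi * s) = ph (2 * Real.pi * t)) (h1 : s - t < 1)
    (h2 : -1 < s - t) : s = t := by
  have hπ := Real.pi_pos
  have e : ph (2 * Real.pi * (s - t)) = 1 := by
    have : ph (2 * Real.pi * (s - t)) * ph (2 * Real.pi * t) = 1 * ph (2 * Real.pi * t) := by
      rw [← ph_add, one_mul, ← h]; congr 1; ring
    exact mul_right_cancel₀ (ph_ne_zero _) this
  have e1 := ph_re (2 * Real.pi * (s - t))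
  rw [e, Complex.one_re] at e1
  have := (Real.cos_eq_one_iff_of_lt_of_lt (by nlinarith) (by nlinarith)).mp e1.symm
  have h3 : s - t = 0 := (mul_eq_zero.mp this).resolve_left (by positivity)
  linarith

theorem exists_oneSided (R : ℝ) {ε : ℝ} (hε : 0 < ε) : ∃ f : ℂ → ℂ, Planar f ∧
    (∀ z, 0 < (f z).re ∧ -(1 / 2) < (f z).im ∧ (f z).im < 1 / 2) ∧
    ∀ z, mu z ≤ R → (f z).re ≤ mu z + ε := by
  obtain ⟨τ, hτ, h1, h2⟩ := exists_slit' R hε
  have hπ := Real.pi_pos
  have hsl : ∀ z, τ z ∈ Complex.slitPlane := fun z => by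
    rw [Complex.mem_slitPlane_iff]
    by_cases h : (τ z).im = 0
    · exact Or.inl (h1 z h)
    · exact Or.inr h
  have hne : ∀ z, τ z ≠ 0 := fun z => Complex.slitPlane_ne_zero (hsl z)
  set f := mk2 (fun z => mu (τ z)) (fun z => (Complex.log (τ z)).im / (2 * Real.pi)) with hf
  have hre : ∀ z, (f z).re = mu (τ z) := fun z => mk2_re _ _ _
  have him : ∀ z, (f z).im = Complex.arg (τ z) / (2 * Real.pi) := fun z => by
    rw [hf, mk2_im, Complex.log_im]
  have hs : ContDiff ℝ ∞ f := by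
    have c : ContDiff ℝ ∞ (fun z => Complex.log (τ z)) := by
      rw [contDiff_iff_contDiffAt]
      intro z
      exact ContDiffAt.comp (g := Complex.log) z
        ((Complex.contDiffAt_log (hsl z)).restrict_scalars ℝ) hτ.smooth.contDiffAt
    exact (Complex.ofRealCLM.contDiff.comp (contDiff_mu.comp hτ.smooth)).add
      ((Complex.ofRealCLM.contDiff.comp ((Complex.imCLM.contDiff.comp c).div_const _)).mul
        contDiff_const)
  have hp : pol ∘ f = τ := by
    funext z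
    simp only [Function.comp_apply, pol, hre, him]
    rw [mu_eq_norm, mul_div_cancel_left₀ _ hπ.ne', Real.sqrt_sq (norm_nonneg _),
      mul_div_cancel₀ _ (by positivity), mul_comm]
    simp [ph]
  refine ⟨f, ⟨hs, ?_, fun z v w => ?_⟩, fun z => ⟨?_, ?_, ?_⟩, fun z hz => ?_⟩
  · exact Function.Injective.of_comp (f := pol) (by rw [hp]; exact hτ.inj)
  · obtain ⟨p1, p2⟩ := contDiffAt_pol (ξ := f z) (by rw [hre]; exact mu_pos (hne z))
    rw [← hτ.symp z v w, ← hp,
      fderiv_comp z (p1.differentiableAt (by simp)) (hs.differentiable (by simp) z)]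
    simp only [ContinuousLinearMap.coe_comp, Function.comp_apply]
    rw [p2]
  · rw [hre]; exact mu_pos (hne z)
  · rw [him, lt_div_iff₀ (by positivity)]
    linarith [Complex.neg_pi_lt_arg (τ z)]
  · rw [him, div_lt_iff₀ (by positivity)]
    have : Complex.arg (τ z) < Real.pi := by
      rw [Complex.arg_lt_pi_iff]
      by_cases h : (τ z).im = 0
      · exact Or.inl (h1 z h).le
      · exact Or.inr h
    linarith
  · rw [hre]; exact h2 z hz

end Pool.Agent.Lib.BallT6
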