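import Pool.Agent.Lib.MP_d7b9cc_gt.G1

/-! Calculus for families of complex valued functions and their pulled back area forms. -/

open scoped ContDiff
open Filter Topology Finset

namespace Pool.Agent.Lib.BallT6

variable {E : Type} [NormedAddCommGroup E] [NormedSpace ℝ E]

/-- Directional derivative of a real function. -/
noncomputable def dv (f : E → ℝ) (p v : E) : ℝ := fderiv ℝ f p v

/-- Pull back of the area form. -/
noncomputable def pb (f : E → ℂ) (p v w : E) : ℝ := om (fderiv ℝ f p v) (fderiv ℝ f p w)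

/-- Pull back of the standard form by the first `n` members of a family. -/
noncomputable def PB (n : ℕ) (Z : E → ℕ → ℂ) (p v w : E) : ℝ :=
  ∑ l ∈ range n, pb (fun x => Z x l) p v w

/-- The first `n` members of a family are smooth at `p`. -/
def Sm (n : ℕ) (Z : E → ℕ → ℂ) (p : E) : Prop := ∀ l < n, ContDiffAt ℝ ∞ (fun x => Z x l) p

/-- `Ψ` is smooth and symplectic at `z` in the first `n` coordinates, tested on families. -/
def Good (E : Type) [NormedAddCommGroup E] [NormedSpace ℝ E] (n : ℕ) (Ψ : (ℕ → ℂ) → ℕ → ℂ)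
    (z : ℕ → ℂ) : Prop :=
  ∀ (Z : E → ℕ → ℂ) (p : E), Z p = z → Sm n Z p →
    Sm n (fun x => Ψ (Z x)) p ∧ ∀ v w, PB n (fun x => Ψ (Z x)) p v w = PB n Z p v w

theorem Good.comp {n : ℕ} {Φ Ψ : (ℕ → ℂ) → ℕ → ℂ} {z : ℕ → ℂ} (h : Good E n Φ (Ψ z))
    (k : Good E n Ψ z) : Good E n (Φ ∘ Ψ) z := by
  intro Z p hp hs
  obtain ⟨k1, k2⟩ := k Z p hp hs
  obtain ⟨h1, h2⟩ := h (fun x => Ψ (Z x)) p (by rw [hp]) k1
  exact ⟨h1, fun v w => (h2 v w).trans (k2 v w)⟩

/-- Put `a` in front of a sequence. -/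
def cons (a : ℂ) (f : ℕ → ℂ) : ℕ → ℂ
  | 0 => a
  | l + 1 => f l

@[simp] theorem cons_zero (a : ℂ) (f : ℕ → ℂ) : cons a f 0 = a := rfl

@[simp] theorem cons_succ (a : ℂ) (f : ℕ → ℂ) (l : ℕ) : cons a f (l + 1) = f l := rfl

theorem sm_succ {N : ℕ} {Z : E → ℕ → ℂ} {p : E} : Sm (N + 1) Z p ↔
    ContDiffAt ℝ ∞ (fun x => Z x 0) p ∧ ∀ i < N, ContDiffAt ℝ ∞ (fun x => Z x (i + 1)) p := by
  constructor
  · exact fun h => ⟨h 0 (by omega), fun i hi => h (i + 1) (by omega)⟩
  · rintro ⟨h0, h1⟩ l hl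
    cases l with
    | zero => exact h0
    | succ i => exact h1 i (by omega)

theorem PB_succ (N : ℕ) (Z : E → ℕ → ℂ) (p v w : E) : PB (N + 1) Z p v w =
    ∑ i ∈ range N, pb (fun x => Z x (i + 1)) p v w + pb (fun x => Z x 0) p v w :=
  sum_range_succ' _ _

section
variable {f g : E → ℝ} {F : E → ℂ} {p : E}

theorem ContDiffAt.da {G : Type} [NormedAddCommGroup G] [NormedSpace ℝ G] {f : E → G}
    (h : ContDiffAt ℝ ∞ f p) : DifferentiableAt ℝ f p := h.differentiableAt (by simp)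

theorem dv_const (c : ℝ) (v : E) : dv (fun _ => c) p v = 0 := by simp [dv]

theorem dv_add (hf : ContDiffAt ℝ ∞ f p) (hg : ContDiffAt ℝ ∞ g p) (v : E) :
    dv (fun x => f x + g x) p v = dv f p v + dv g p v := by
  have := ((ContDiffAt.da hf).hasFDerivAt.add (ContDiffAt.da hg).hasFDerivAt).fderiv
  exact congrArg (fun L : E →L[ℝ] ℝ => L v) this

theorem dv_sub (hf : ContDiffAt ℝ ∞ f p) (hg : ContDiffAt ℝ ∞ g p) (v : E) :
    dv (fun x => f x - g x) p v = dv f p v - dv g p v := by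
  have := ((ContDiffAt.da hf).hasFDerivAt.sub (ContDiffAt.da hg).hasFDerivAt).fderiv
  exact congrArg (fun L : E →L[ℝ] ℝ => L v) this

theorem dv_mul (hf : ContDiffAt ℝ ∞ f p) (hg : ContDiffAt ℝ ∞ g p) (v : E) :
    dv (fun x => f x * g x) p v = f p * dv g p v + g p * dv f p v := by
  have := ((ContDiffAt.da hf).hasFDerivAt.mul (ContDiffAt.da hg).hasFDerivAt).fderiv
  exact congrArg (fun L : E →L[ℝ] ℝ => L v) this

theorem dv_comp {G : ℝ → ℝ} {c : ℝ} (hG : HasDerivAt G c (f p)) (hf : ContDiffAt ℝ ∞ f p)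
    (v : E) : dv (fun x => G (f x)) p v = c * dv f p v := by
  have := (hG.comp_hasFDerivAt p (ContDiffAt.da hf).hasFDerivAt).fderiv
  exact congrArg (fun L : E →L[ℝ] ℝ => L v) this

theorem dv_const_mul (c : ℝ) (hf : ContDiffAt ℝ ∞ f p) (v : E) :
    dv (fun x => c * f x) p v = c * dv f p v := by
  rw [dv_mul contDiffAt_const hf, dv_const]; ring

theorem dv_sum {s : Finset ℕ} {f : ℕ → E → ℝ} (hf : ∀ i ∈ s, ContDiffAt ℝ ∞ (f i) p) (v : E) :
    dv (fun x => ∑ i ∈ s, f i x) p v = ∑ i ∈ s, dv (f i) p v := by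
  unfold dv
  rw [fderiv_fun_sum fun i hi => ContDiffAt.da (hf i hi)]
  simp

theorem dv_congr (h : f =ᶠ[𝓝 p] g) (v : E) : dv f p v = dv g p v := by
  unfold dv; rw [h.fderiv_eq]

theorem cd_re (hF : ContDiffAt ℝ ∞ F p) : ContDiffAt ℝ ∞ (fun x => (F x).re) p :=
  Complex.reCLM.contDiff.contDiffAt.comp p hF

theorem cd_im (hF : ContDiffAt ℝ ∞ F p) : ContDiffAt ℝ ∞ (fun x => (F x).im) p :=
  Complex.imCLM.contDiff.contDiffAt.comp p hF

theorem cd_ofReal (hf : ContDiffAt ℝ ∞ f p) : ContDiffAt ℝ ∞ (fun x => (f x : ℂ)) p :=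
  Complex.ofRealCLM.contDiff.contDiffAt.comp p hf

theorem cd_mu (hF : ContDiffAt ℝ ∞ F p) : ContDiffAt ℝ ∞ (fun x => mu (F x)) p :=
  contDiff_mu.contDiffAt.comp p hF

theorem cd_ph (hf : ContDiffAt ℝ ∞ f p) : ContDiffAt ℝ ∞ (fun x => ph (f x)) p :=
  contDiff_ph.contDiffAt.comp p hf

theorem dv_re (hF : ContDiffAt ℝ ∞ F p) (v : E) :
    dv (fun x => (F x).re) p v = (fderiv ℝ F p v).re := by
  have := (Complex.reCLM.hasFDerivAt.comp p (ContDiffAt.da hF).hasFDerivAt).fderiv
  exact congrArg (fun L : E →L[ℝ] ℝ => L v) this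

theorem dv_im (hF : ContDiffAt ℝ ∞ F p) (v : E) :
    dv (fun x => (F x).im) p v = (fderiv ℝ F p v).im := by
  have := (Complex.imCLM.hasFDerivAt.comp p (ContDiffAt.da hF).hasFDerivAt).fderiv
  exact congrArg (fun L : E →L[ℝ] ℝ => L v) this

theorem pb_eq (hF : ContDiffAt ℝ ∞ F p) (v w : E) : pb F p v w =
    dv (fun x => (F x).re) p v * dv (fun x => (F x).im) p w -
      dv (fun x => (F x).im) p v * dv (fun x => (F x).re) p w := by
  rw [dv_re hF, dv_re hF, dv_im hF, dv_im hF]; rfl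

theorem dv_mu (hF : ContDiffAt ℝ ∞ F p) (v : E) :
    dv (fun x => mu (F x)) p v = 2 * Real.pi * ip (F p) (fderiv ℝ F p v) := by
  obtain ⟨D, hD, e⟩ := hasFDerivAt_mu (ContDiffAt.da hF).hasFDerivAt
  unfold dv
  rw [hD.fderiv, e]

theorem pb_comp {σ : ℂ → ℂ} (hσ : ContDiffAt ℝ ∞ σ (F p))
    (h : ∀ v w, om (fderiv ℝ σ (F p) v) (fderiv ℝ σ (F p) w) = om v w)
    (hF : ContDiffAt ℝ ∞ F p) (v w : E) : pb (fun x => σ (F x)) p v w = pb F p v w := by
  have := fderiv_comp p (ContDiffAt.da hσ) (ContDiffAt.da hF)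
  unfold pb
  rw [show (fun x => σ (F x)) = σ ∘ F from rfl, this]
  exact h _ _

theorem pb_phase (hf : ContDiffAt ℝ ∞ f p) (hF : ContDiffAt ℝ ∞ F p) (v w : E) :
    pb (fun x => ph (2 * Real.pi * f x) * F x) p v w = pb F p v w +
      (dv f p w * dv (fun x => mu (F x)) p v - dv f p v * dv (fun x => mu (F x)) p w) := by
  obtain ⟨D, hD, e⟩ := hasFDerivAt_phase (ContDiffAt.da hF).hasFDerivAt
    ((ContDiffAt.da hf).hasFDerivAt.const_mul (2 * Real.pi))
  have hg : ∀ t, (ph t).re ^ 2 + (ph t).im ^ 2 = 1 := fun t => by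
    rw [ph_re, ph_im]; exact Real.cos_sq_add_sin_sq t
  unfold pb
  rw [hD.fderiv, e, e, om_phase _ _ _ _ _ _ (hg _), dv_mu hF, dv_mu hF]
  simp only [smul_apply, smul_eq_mul, dv]
  ring

end

/-- A planar map applied to coordinate `0`. -/
theorem good_head {σ : ℂ → ℂ} (hσ : Planar σ) (N : ℕ) (z : ℕ → ℂ) :
    Good E (N + 1) (fun z => cons (σ (z 0)) (fun i => z (i + 1))) z := by
  intro Z p _ hs
  obtain ⟨h0, h1⟩ := sm_succ.mp hs
  refine ⟨sm_succ.mpr ⟨hσ.smooth.contDiffAt.comp p h0, h1⟩, fun v w => ?_⟩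
  rw [PB_succ, PB_succ]
  simp only [cons_zero, cons_succ]
  rw [pb_comp hσ.smooth.contDiffAt (hσ.symp _) h0]

section twist
variable (N : ℕ) (β : ℝ) (k : ℕ → ℝ) (m : ℕ → ℕ → ℝ)

/-- Affine functions of the moment coordinates. -/
noncomputable def aff (l : ℕ) (z : ℕ → ℂ) : ℝ := k l + ∑ i ∈ range N, m l i * mu (z (i + 1))

/-- The partition function. -/
noncomputable def part (z : ℕ → ℂ) : ℝ := ∑ l ∈ range (N + 1), Real.exp (β * aff N k m l z)

/-- The soft maximum. -/
noncomputable def smax (z : ℕ → ℂ) : ℝ := β⁻¹ * Real.log (part N β k m z)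

/-- The weights. -/
noncomputable def wt (l : ℕ) (z : ℕ → ℂ) : ℝ :=
  Real.exp (β * aff N k m l z) * (part N β k m z)⁻¹

/-- The gradient of the soft maximum. -/
noncomputable def grad (i : ℕ) (z : ℕ → ℂ) : ℝ := ∑ l ∈ range (N + 1), m l i * wt N β k m l z

/-- Time one flow of `Y · smax`. -/
noncomputable def tw (z : ℕ → ℂ) : ℕ → ℂ :=
  cons (z 0 + (smax N β k m z : ℂ))
    (fun i => ph (2 * Real.pi * (-1 * ((z 0).im * grad N β k m i z))) * z (i + 1))

theorem part_pos (z : ℕ → ℂ) : 0 < part N β k m z :=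
  sum_pos (fun _ _ => Real.exp_pos _) nonempty_range_add_one

theorem good_tw (hβ : β ≠ 0) (z : ℕ → ℂ) : Good E (N + 1) (tw N β k m) z := by
  intro Z p _ hs
  obtain ⟨h0, h1⟩ := sm_succ.mp hs
  have cM : ∀ i ∈ range N, ContDiffAt ℝ ∞ (fun x => mu (Z x (i + 1))) p :=
    fun i hi => cd_mu (h1 i (mem_range.mp hi))
  have ca : ∀ l, ContDiffAt ℝ ∞ (fun x => aff N k m l (Z x)) p := fun l =>
    contDiffAt_const.add (ContDiffAt.sum fun i hi => contDiffAt_const.mul (cM i hi))
  have ce : ∀ l, ContDiffAt ℝ ∞ (fun x => Real.exp (β * aff N k m l (Z x))) p := fun l =>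
    (contDiffAt_const.mul (ca l)).exp
  have cp : ContDiffAt ℝ ∞ (fun x => part N β k m (Z x)) p := ContDiffAt.sum fun l _ => ce l
  have hp := (part_pos N β k m (Z p)).ne'
  have cs : ContDiffAt ℝ ∞ (fun x => smax N β k m (Z x)) p := contDiffAt_const.mul (cp.log hp)
  have cw : ∀ l, ContDiffAt ℝ ∞ (fun x => wt N β k m l (Z x)) p := fun l => (ce l).mul (cp.inv hp)
  have cg : ∀ i, ContDiffAt ℝ ∞ (fun x => grad N β k m i (Z x)) p := fun i =>
    ContDiffAt.sum fun l _ => contDiffAt_const.mul (cw l)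
  have cY := cd_im h0
  have cθ : ∀ i, ContDiffAt ℝ ∞ (fun x => -1 * ((Z x 0).im * grad N β k m i (Z x))) p :=
    fun i => contDiffAt_const.mul (cY.mul (cg i))
  refine ⟨sm_succ.mpr ⟨h0.add (cd_ofReal cs), fun i hi =>
    (cd_ph (contDiffAt_const.mul (cθ i))).mul (h1 i hi)⟩, fun v w => ?_⟩
  set W : ℕ → ℝ := fun l => wt N β k m l (Z p) with hW
  set da : ℕ → E → ℝ := fun l u => dv (fun x => aff N k m l (Z x)) p u with hda
  set dM : ℕ → E → ℝ := fun i u => dv (fun x => mu (Z x (i + 1))) p u with hdM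
  have ea : ∀ l u, da l u = ∑ i ∈ range N, m l i * dM i u := fun l u => by
    simp only [hda, aff]
    rw [dv_add contDiffAt_const (ContDiffAt.sum fun i hi => contDiffAt_const.mul (cM i hi)),
      dv_const, zero_add, dv_sum fun i hi => contDiffAt_const.mul (cM i hi)]
    exact sum_congr rfl fun i hi => dv_const_mul _ (cM i hi) u
  have ee : ∀ l u, dv (fun x => Real.exp (β * aff N k m l (Z x))) p u =
      Real.exp (β * aff N k m l (Z p)) * (β * da l u) := fun l u => by
    rw [dv_comp (Real.hasDerivAt_exp _) (contDiffAt_const.mul (ca l)), dv_const_mul _ (ca l)]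
  have ep : ∀ u, dv (fun x => part N β k m (Z x)) p u =
      part N β k m (Z p) * (β * ∑ l ∈ range (N + 1), W l * da l u) := fun u => by
    unfold part
    rw [dv_sum fun l _ => ce l, mul_sum, mul_sum]
    refine sum_congr rfl fun l _ => ?_
    rw [ee]
    simp only [hW, wt]
    have := hp
    unfold part at this ⊢
    field_simp
  have es : ∀ u, dv (fun x => smax N β k m (Z x)) p u = ∑ l ∈ range (N + 1), W l * da l u :=
    fun u => by
      unfold smax
      rw [dv_const_mul _ (cp.log hp),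
        dv_comp (f := fun x => part N β k m (Z x)) (Real.hasDerivAt_log hp) cp, ep]
      field_simp
  have ew : ∀ l u, dv (fun x => wt N β k m l (Z x)) p u =
      β * W l * (da l u - ∑ j ∈ range (N + 1), W j * da j u) := fun l u => by
    unfold wt
    have ci : ContDiffAt ℝ ∞ (fun x => (part N β k m (Z x))⁻¹) p := cp.inv hp
    rw [dv_mul (ce l) ci, ee,
      dv_comp (f := fun x => part N β k m (Z x)) (G := fun y => y⁻¹) (hasDerivAt_inv hp) cp, ep]
    simp only [hW, wt]
    field_simp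
    ring
  have eg : ∀ i u, dv (fun x => grad N β k m i (Z x)) p u =
      ∑ l ∈ range (N + 1), m l i * dv (fun x => wt N β k m l (Z x)) p u := fun i u => by
    unfold grad
    rw [dv_sum fun l _ => contDiffAt_const.mul (cw l)]
    exact sum_congr rfl fun l _ => dv_const_mul _ (cw l) u
  have s1 : ∀ (c : ℕ → ℝ) u, ∑ i ∈ range N, (∑ l ∈ range (N + 1), m l i * c l) * dM i u =
      ∑ l ∈ range (N + 1), c l * da l u := fun c u => by
    simp only [ea, sum_mul, mul_sum]
    rw [sum_comm]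
    exact sum_congr rfl fun l _ => sum_congr rfl fun i _ => by ring
  have s2 : ∀ u u', ∑ i ∈ range N, dv (fun x => grad N β k m i (Z x)) p u * dM i u' =
      β * (∑ l ∈ range (N + 1), W l * (da l u * da l u') -
        (∑ j ∈ range (N + 1), W j * da j u) * ∑ j ∈ range (N + 1), W j * da j u') :=
    fun u u' => by
      simp only [eg]
      rw [s1, mul_sub, mul_sum, mul_sum, mul_sum, ← sum_sub_distrib]
      exact sum_congr rfl fun l _ => by rw [ew]; ring
  have s3 : ∀ u, ∑ i ∈ range N, grad N β k m i (Z p) * dM i u =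
      ∑ l ∈ range (N + 1), W l * da l u := fun u => s1 W u
  have s4 : ∀ u u', ∑ i ∈ range N,
      dv (fun x => -1 * ((Z x 0).im * grad N β k m i (Z x))) p u * dM i u' =
      -((Z p 0).im * ∑ i ∈ range N, dv (fun x => grad N β k m i (Z x)) p u * dM i u' +
        dv (fun x => (Z x 0).im) p u * ∑ i ∈ range N, grad N β k m i (Z p) * dM i u') :=
    fun u u' => by
      rw [mul_sum, mul_sum, ← sum_add_distrib, ← sum_neg_distrib]
      refine sum_congr rfl fun i _ => ?_
      rw [dv_const_mul _ (cY.mul (cg i)), dv_mul cY (cg i)]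
      ring
  have s5 : ∑ l ∈ range (N + 1), W l * (da l w * da l v) =
      ∑ l ∈ range (N + 1), W l * (da l v * da l w) := sum_congr rfl fun l _ => by ring
  rw [PB_succ, PB_succ]
  simp only [tw, cons_zero, cons_succ]
  rw [sum_congr rfl fun i hi => pb_phase (cθ i) (h1 i (mem_range.mp hi)) v w, sum_add_distrib,
    sum_sub_distrib, s4, s4, s2, s2, s3, s3, s5, pb_eq (h0.add (cd_ofReal cs)), pb_eq h0]
  simp only [Complex.add_re, Complex.add_im, Complex.ofReal_re, Complex.ofReal_im, add_zero]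
  rw [dv_add (cd_re h0) cs, dv_add (cd_re h0) cs, es, es]
  ring

theorem tw_inj {z z' : ℕ → ℂ} (h : ∀ l < N + 1, tw N β k m z l = tw N β k m z' l) :
    ∀ l < N + 1, z l = z' l := by
  have h0 := h 0 (by omega)
  simp only [tw, cons_zero] at h0
  have hY : (z 0).im = (z' 0).im := by simpa using congrArg Complex.im h0
  have hM : ∀ i ∈ range N, mu (z (i + 1)) = mu (z' (i + 1)) := fun i hi => by
    have := congrArg mu (h (i + 1) (by have := mem_range.mp hi; omega))
    simpa only [tw, cons_succ, mu_ph_mul] using this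
  have ha : ∀ l, aff N k m l z = aff N k m l z' := fun l => by
    unfold aff
    rw [sum_congr rfl fun i hi => by rw [hM i hi]]
  have hp : part N β k m z = part N β k m z' := by simp only [part, ha]
  intro l hl
  cases l with
  | zero =>
    simp only [smax, hp] at h0
    exact add_right_cancel h0
  | succ i =>
    have := h (i + 1) hl
    simp only [tw, cons_succ, grad, wt, ha, hp, hY] at this
    exact mul_left_cancel₀ (ph_ne_zero _) this

theorem aff_le_smax (hβ : 0 < β) {l : ℕ} (hl : l < N + 1) (z : ℕ → ℂ) :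
    aff N k m l z ≤ smax N β k m z := by
  unfold smax
  rw [le_inv_mul_iff₀ hβ, Real.le_log_iff_exp_le (part_pos N β k m z)]
  exact single_le_sum (f := fun l => Real.exp (β * aff N k m l z))
    (fun _ _ => (Real.exp_pos _).le) (mem_range.mpr hl)

theorem smax_le_aff (hβ : 0 < β) (z : ℕ → ℂ) :
    ∃ l < N + 1, smax N β k m z ≤ aff N k m l z + β⁻¹ * N := by
  obtain ⟨l, hl, h⟩ := exists_max_image (range (N + 1)) (fun l => aff N k m l z)
    nonempty_range_add_one
  refine ⟨l, mem_range.mp hl, ?_⟩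
  unfold smax
  rw [inv_mul_le_iff₀ hβ, Real.log_le_iff_le_exp (part_pos N β k m z), mul_add,
    mul_inv_cancel_left₀ hβ.ne', Real.exp_add]
  have h1 : part N β k m z ≤ (N + 1 : ℕ) • Real.exp (β * aff N k m l z) := by
    have := sum_le_card_nsmul (range (N + 1)) (fun j => Real.exp (β * aff N k m j z))
      (Real.exp (β * aff N k m l z)) fun j hj => Real.exp_le_exp.mpr
        (mul_le_mul_of_nonneg_left (h j hj) hβ.le)
    rwa [card_range] at this
  rw [nsmul_eq_mul, mul_comm] at h1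
  refine h1.trans (mul_le_mul_of_nonneg_left ?_ (Real.exp_pos _).le)
  push_cast
  exact Real.add_one_le_exp _

end twist

end Pool.Agent.Lib.BallT6
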