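import Pool.Agent.Lib.MP_d7b9cc_gt.G2

/-! A chain of slits: coordinate `j + 1` is slit along a ray that turns with coordinate `j`. -/

open scoped ContDiff
open Filter Topology Finset

namespace Pool.Agent.Lib.BallT6

variable {E : Type} [NormedAddCommGroup E] [NormedSpace ℝ E]

section chain
variable (N : ℕ) (f : ℂ → ℂ) (t : ℕ → ℝ → ℝ) (ε : ℝ)

/-- The lifted angle of coordinate `j`. -/
noncomputable def Yc (z : ℕ → ℂ) : ℕ → ℝ
  | 0 => 0
  | j + 1 => (f (ph (2 * Real.pi * (-1 * (t j (z 0).re * Yc z j))) * z (j + 1))).im +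
      t j (z 0).re * Yc z j

/-- The strip coordinate of coordinate `j + 1`. -/
noncomputable def xi (z : ℕ → ℂ) (j : ℕ) : ℂ :=
  f (ph (2 * Real.pi * (-1 * (t j (z 0).re * Yc f t z j))) * z (j + 1))

theorem Yc_succ (z : ℕ → ℂ) (j : ℕ) :
    Yc f t z (j + 1) = (xi f t z j).im + t j (z 0).re * Yc f t z j := rfl

/-- The loss of moment of coordinate `j + 1`. -/
noncomputable def Dd (z : ℕ → ℂ) (j : ℕ) : ℝ :=
  if j < N then mu (z (j + 1)) - (xi f t z j).re else 0

/-- The new moment of coordinate `j + 1`. -/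
noncomputable def Xc (z : ℕ → ℂ) (j : ℕ) : ℝ :=
  (xi f t z j).re + t (j + 1) (z 0).re * Dd N f t z (j + 1) + ε

/-- The chain of slits. -/
noncomputable def chain (z : ℕ → ℂ) : ℕ → ℂ :=
  cons (z 0 - ((∑ j ∈ range N, deriv (t (j + 1)) (z 0).re *
      (Yc f t z (j + 1) * Dd N f t z (j + 1)) : ℝ) : ℂ) * Complex.I)
    (fun j => pol ((Xc N f t ε z j : ℂ) + (Yc f t z (j + 1) : ℂ) * Complex.I))

variable {N f t ε}

theorem good_chain (hf : Planar f) (ht : ∀ j, ContDiff ℝ ∞ (t j)) {z : ℕ → ℂ}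
    (hz : ∀ j < N, 0 < Xc N f t ε z j) : Good E (N + 1) (chain N f t ε) z := by
  intro Z p hp hs
  obtain ⟨h0, h1⟩ := sm_succ.mp hs
  have ch := cd_re h0
  have ct : ∀ j, ContDiffAt ℝ ∞ (fun x => t j (Z x 0).re) p := fun j =>
    (ht j).contDiffAt.comp p ch
  have ct' : ∀ j, ContDiffAt ℝ ∞ (fun x => deriv (t j) (Z x 0).re) p := fun j =>
    (contDiff_infty_iff_deriv.mp (ht j)).2.contDiffAt.comp p ch
  have cY : ∀ j ≤ N, ContDiffAt ℝ ∞ (fun x => Yc f t (Z x) j) p := by
    intro j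
    induction j with
    | zero => exact fun _ => contDiffAt_const
    | succ j ih =>
      intro hj
      have a := (ct j).mul (ih (by omega))
      exact (cd_im (hf.smooth.contDiffAt.comp p ((cd_ph (contDiffAt_const.mul
        (contDiffAt_const.mul a))).mul (h1 j (by omega))))).add a
  have cs : ∀ j ≤ N, ContDiffAt ℝ ∞ (fun x => t j (Z x 0).re * Yc f t (Z x) j) p :=
    fun j hj => (ct j).mul (cY j hj)
  have cr : ∀ j < N, ContDiffAt ℝ ∞ (fun x =>
      ph (2 * Real.pi * (-1 * (t j (Z x 0).re * Yc f t (Z x) j))) * Z x (j + 1)) p :=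
    fun j hj => (cd_ph (contDiffAt_const.mul (contDiffAt_const.mul (cs j hj.le)))).mul (h1 j hj)
  have cx : ∀ j < N, ContDiffAt ℝ ∞ (fun x => xi f t (Z x) j) p := fun j hj =>
    hf.smooth.contDiffAt.comp p (cr j hj)
  have cD : ∀ j, ContDiffAt ℝ ∞ (fun x => Dd N f t (Z x) j) p := fun j => by
    unfold Dd
    split_ifs with hj
    · exact (cd_mu (h1 j hj)).sub (cd_re (cx j hj))
    · exact contDiffAt_const
  have cX : ∀ j < N, ContDiffAt ℝ ∞ (fun x => Xc N f t ε (Z x) j) p := fun j hj =>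
    ((cd_re (cx j hj)).add ((ct _).mul (cD _))).add contDiffAt_const
  have cP : ∀ j < N, ContDiffAt ℝ ∞ (fun x =>
      (Xc N f t ε (Z x) j : ℂ) + (Yc f t (Z x) (j + 1) : ℂ) * Complex.I) p := fun j hj =>
    (cd_ofReal (cX j hj)).add ((cd_ofReal (cY _ hj)).mul contDiffAt_const)
  have hpos : ∀ j < N, 0 < ((Xc N f t ε (Z p) j : ℂ) +
      (Yc f t (Z p) (j + 1) : ℂ) * Complex.I).re := fun j hj => by
    rw [hp]; simpa using hz j hj
  have cT : ∀ j ∈ range N, ContDiffAt ℝ ∞ (fun x => deriv (t (j + 1)) (Z x 0).re *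
      (Yc f t (Z x) (j + 1) * Dd N f t (Z x) (j + 1))) p := fun j hj =>
    (ct' _).mul ((cY _ (mem_range.mp hj)).mul (cD _))
  have cH := h0.sub ((cd_ofReal (ContDiffAt.sum cT)).mul (contDiffAt_const (c := Complex.I)))
  refine ⟨sm_succ.mpr ⟨cH, fun j hj =>
    ContDiffAt.comp (g := pol) p (contDiffAt_pol (hpos j hj)).1 (cP j hj)⟩, fun v w => ?_⟩
  set e : ℕ → ℝ := fun j => dv (fun x => Dd N f t (Z x) j) p v *
      dv (fun x => t j (Z x 0).re * Yc f t (Z x) j) p w -
    dv (fun x => t j (Z x 0).re * Yc f t (Z x) j) p v * dv (fun x => Dd N f t (Z x) j) p w with he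
  set c : ℕ → E → ℝ := fun j u => dv (fun x => deriv (t (j + 1)) (Z x 0).re *
      (Yc f t (Z x) (j + 1) * Dd N f t (Z x) (j + 1))) p u with hc
  have dt : ∀ j u, dv (fun x => t j (Z x 0).re) p u =
      deriv (t j) (Z p 0).re * dv (fun x => (Z x 0).re) p u := fun j u =>
    dv_comp (f := fun x => (Z x 0).re) ((ht j).differentiable (by simp) _).hasDerivAt ch u
  have dt' : ∀ j u, dv (fun x => deriv (t j) (Z x 0).re) p u =
      deriv (deriv (t j)) (Z p 0).re * dv (fun x => (Z x 0).re) p u := fun j u =>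
    dv_comp (f := fun x => (Z x 0).re)
      ((contDiff_infty_iff_deriv.mp (ht j)).2.differentiable (by simp) _).hasDerivAt ch u
  have term : ∀ j ∈ range N, pb (fun x => pol ((Xc N f t ε (Z x) j : ℂ) +
      (Yc f t (Z x) (j + 1) : ℂ) * Complex.I)) p v w = pb (fun x => Z x (j + 1)) p v w +
        (e (j + 1) - e j) + (dv (fun x => (Z x 0).re) p v * c j w -
          c j v * dv (fun x => (Z x 0).re) p w) := by
    intro j hj
    have hj' := mem_range.mp hj
    have a1 := pb_phase (contDiffAt_const.mul (cs j hj'.le) (f := fun _ => (-1 : ℝ)))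
      (h1 j hj') v w
    have a2 : pb (fun x => xi f t (Z x) j) p v w = _ :=
      pb_comp hf.smooth.contDiffAt (hf.symp _) (cr j hj') v w
    rw [a1, pb_eq (cx j hj'), dv_const_mul _ (cs j hj'.le), dv_const_mul _ (cs j hj'.le)] at a2
    have eD : ∀ u, dv (fun x => Dd N f t (Z x) j) p u = dv (fun x => mu (Z x (j + 1))) p u -
        dv (fun x => (xi f t (Z x) j).re) p u := fun u => by
      simp only [Dd, hj', if_true]
      exact dv_sub (cd_mu (h1 j hj')) (cd_re (cx j hj')) u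
    have eY : ∀ u, dv (fun x => Yc f t (Z x) (j + 1)) p u =
        dv (fun x => (xi f t (Z x) j).im) p u +
          dv (fun x => t j (Z x 0).re * Yc f t (Z x) j) p u := fun u =>
      dv_add (cd_im (cx j hj')) (cs j hj'.le) u
    have eX : ∀ u, dv (fun x => Xc N f t ε (Z x) j) p u = dv (fun x => (xi f t (Z x) j).re) p u +
        dv (fun x => t (j + 1) (Z x 0).re * Dd N f t (Z x) (j + 1)) p u := fun u => by
      unfold Xc
      rw [dv_add ((cd_re (cx j hj')).add ((ct _).mul (cD _))) contDiffAt_const, dv_const, add_zero,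
        dv_add (cd_re (cx j hj')) ((ct _).mul (cD _))]
    rw [pb_comp (F := fun x => (Xc N f t ε (Z x) j : ℂ) + (Yc f t (Z x) (j + 1) : ℂ) * Complex.I)
      (contDiffAt_pol (hpos j hj')).1 (contDiffAt_pol (hpos j hj')).2 (cP j hj'),
      pb_eq (cP j hj')]
    simp only [Complex.add_re, Complex.add_im, Complex.ofReal_re, Complex.ofReal_im,
      Complex.mul_re, Complex.mul_im, Complex.I_re, Complex.I_im, mul_zero, mul_one, sub_zero,
      add_zero, zero_add, he, hc]
    rw [eX, eX, eD, eD, dv_mul (ct _) (cD _), dv_mul (ct _) (cD _), dv_mul (ct _) (cY _ hj'),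
      dv_mul (ct _) (cY _ hj'), dv_mul (ct' _) ((cY _ hj').mul (cD _)),
      dv_mul (ct' _) ((cY _ hj').mul (cD _)), dv_mul (cY _ hj') (cD _), dv_mul (cY _ hj') (cD _),
      dt, dt, dt', dt', eY, eY]
    linear_combination a2
  have e0 : e 0 = 0 := by simp [he, Yc, dv_const]
  have eN : e N = 0 := by simp [he, Dd, dv_const]
  rw [PB_succ, PB_succ]
  simp only [chain, cons_zero, cons_succ]
  rw [sum_congr rfl term, sum_add_distrib, sum_add_distrib, sum_range_sub, e0, eN,
    sum_sub_distrib, ← mul_sum, ← sum_mul, pb_eq cH, pb_eq h0]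
  simp only [Complex.sub_re, Complex.sub_im, Complex.ofReal_re, Complex.ofReal_im,
    Complex.mul_re, Complex.mul_im, Complex.I_re, Complex.I_im, mul_zero, mul_one, sub_zero,
    add_zero]
  rw [dv_sub (cd_im h0) (ContDiffAt.sum cT), dv_sub (cd_im h0) (ContDiffAt.sum cT), dv_sum cT,
    dv_sum cT]
  ring

theorem chain_re (z : ℕ → ℂ) : (chain N f t ε z 0).re = (z 0).re := by simp [chain]

theorem chain_succ (z : ℕ → ℂ) (j : ℕ) : chain N f t ε z (j + 1) =
    ph (2 * Real.pi * Yc f t z (j + 1)) * ((Real.sqrt (Xc N f t ε z j / Real.pi) : ℝ) : ℂ) := by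
  simp [chain, pol]

theorem mu_chain {z : ℕ → ℂ} {j : ℕ} (h : 0 < Xc N f t ε z j) :
    mu (chain N f t ε z (j + 1)) = Xc N f t ε z j := by
  simp only [chain, cons_succ]
  rw [mu_pol (by simpa using h.le)]
  simp

section bounds
variable {R : ℝ} (f1 : ∀ z, 0 < (f z).re ∧ -(1 / 2) < (f z).im ∧ (f z).im < 1 / 2)
  (f2 : ∀ z, mu z ≤ R → (f z).re ≤ mu z + ε) (hε : 0 ≤ ε)
  (t1 : ∀ j h, 0 ≤ t j h ∧ t j h ≤ 1) {z : ℕ → ℂ} (hz : ∀ j < N, mu (z (j + 1)) ≤ R)

include f2 hε hz in
theorem Dd_ge (j : ℕ) : -ε ≤ Dd N f t z j := by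
  unfold Dd
  split_ifs with hj
  · have := f2 (ph (2 * Real.pi * (-1 * (t j (z 0).re * Yc f t z j))) * z (j + 1))
      (by rw [mu_ph_mul]; exact hz j hj)
    rw [mu_ph_mul] at this
    unfold xi
    linarith
  · linarith

include f1 f2 hε t1 hz in
theorem Xc_pos (j : ℕ) : 0 < Xc N f t ε z j := by
  have a := Dd_ge (t := t) f2 hε hz (j + 1)
  have b := t1 (j + 1) (z 0).re
  have c : 0 < (xi f t z j).re := (f1 _).1
  unfold Xc
  nlinarith [mul_nonneg b.1 (by linarith : 0 ≤ Dd N f t z (j + 1) + ε),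
    mul_nonneg (by linarith : 0 ≤ 1 - t (j + 1) (z 0).re) hε]

include f2 hε t1 hz in
theorem Xc_sum {k l : ℕ} (hkl : k ≤ l) (hl : l ≤ N) :
    ∑ j ∈ range l, Xc N f t ε z j - ∑ j ∈ range l, mu (z (j + 1)) -
      t l (z 0).re * Dd N f t z l - 2 * l * ε ≤
    ∑ j ∈ range k, Xc N f t ε z j - ∑ j ∈ range k, mu (z (j + 1)) -
      t k (z 0).re * Dd N f t z k - 2 * k * ε := by
  induction l, hkl using Nat.le_induction with
  | base => exact le_rfl
  | succ l hkl ih =>
    have ih' := ih (by omega)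
    have a := Dd_ge (t := t) f2 hε hz l
    have b := t1 l (z 0).re
    have c : Dd N f t z l = mu (z (l + 1)) - (xi f t z l).re := by
      unfold Dd; rw [if_pos (by omega)]
    rw [sum_range_succ, sum_range_succ]
    push_cast
    have d : Xc N f t ε z l = (xi f t z l).re + t (l + 1) (z 0).re * Dd N f t z (l + 1) + ε := rfl
    nlinarith [mul_nonneg (by linarith : 0 ≤ 1 - t l (z 0).re)
      (by linarith : 0 ≤ Dd N f t z l + ε), mul_nonneg b.1 hε]

include f2 hε t1 hz in
theorem tD_ge (j : ℕ) : -ε ≤ t j (z 0).re * Dd N f t z j := by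
  have a := Dd_ge (t := t) f2 hε hz j
  have b := t1 j (z 0).re
  nlinarith [mul_nonneg b.1 (by linarith : 0 ≤ Dd N f t z j + ε),
    mul_nonneg (by linarith : 0 ≤ 1 - t j (z 0).re) hε]

end bounds

theorem chain_inj (hf : Planar f)
    (f1 : ∀ z, 0 < (f z).re ∧ -(1 / 2) < (f z).im ∧ (f z).im < 1 / 2) {z z' : ℕ → ℂ}
    (hz : ∀ j < N, 0 < Xc N f t ε z j) (hz' : ∀ j < N, 0 < Xc N f t ε z' j)
    (hh : (z 0).re = (z' 0).re)
    (h : ∀ j < N, chain N f t ε z (j + 1) = chain N f t ε z' (j + 1)) :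
    (∀ j < N, z (j + 1) = z' (j + 1)) ∧
      (chain N f t ε z' 0).im - (chain N f t ε z 0).im = (z' 0).im - (z 0).im := by
  have hX : ∀ j < N, Xc N f t ε z j = Xc N f t ε z' j := fun j hj => by
    rw [← mu_chain (hz j hj), ← mu_chain (hz' j hj), h j hj]
  have hY : ∀ j ≤ N, Yc f t z j = Yc f t z' j := by
    intro j
    induction j with
    | zero => exact fun _ => rfl
    | succ j ih =>
      intro hj
      have a := h j hj
      rw [chain_succ, chain_succ, hX j hj] at a
      have b : ((Real.sqrt (Xc N f t ε z' j / Real.pi) : ℝ) : ℂ) ≠ 0 := by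
        exact_mod_cast (Real.sqrt_pos.mpr (div_pos (hz' j hj) Real.pi_pos)).ne'
      have c1 : -(1 / 2) < (xi f t z j).im ∧ (xi f t z j).im < 1 / 2 := (f1 _).2
      have c2 : -(1 / 2) < (xi f t z' j).im ∧ (xi f t z' j).im < 1 / 2 := (f1 _).2
      refine ph_inj (mul_right_cancel₀ b a) ?_ ?_
      · rw [Yc_succ, Yc_succ, hh, ih (by omega)]; linarith [c1.2, c2.1]
      · rw [Yc_succ, Yc_succ, hh, ih (by omega)]; linarith [c1.1, c2.2]
  have step : ∀ j < N, Dd N f t z (j + 1) = Dd N f t z' (j + 1) →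
      z (j + 1) = z' (j + 1) ∧ Dd N f t z j = Dd N f t z' j := by
    intro j hj hd
    have a := hX j hj
    have b := hY (j + 1) hj
    rw [Yc_succ, Yc_succ, hh, hY j hj.le] at b
    simp only [Xc, hh, hd] at a
    have c : xi f t z j = xi f t z' j := Complex.ext (by linarith) (by linarith)
    have d := c
    unfold xi at d
    have d' := hf.inj d
    rw [hh, hY j hj.le] at d'
    have e := mul_left_cancel₀ (ph_ne_zero _) d'
    exact ⟨e, by simp only [Dd, e, c]⟩
  have hD : ∀ d j, j + d = N → Dd N f t z j = Dd N f t z' j := by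
    intro d
    induction d with
    | zero => intro j hj; simp [Dd, ← hj]
    | succ d ih => exact fun j hj => (step j (by omega) (ih (j + 1) (by omega))).2
  refine ⟨fun j hj => (step j hj (hD (N - (j + 1)) (j + 1) (by omega))).1, ?_⟩
  have hs : ∑ j ∈ range N, deriv (t (j + 1)) (z 0).re * (Yc f t z (j + 1) * Dd N f t z (j + 1)) =
      ∑ j ∈ range N, deriv (t (j + 1)) (z' 0).re * (Yc f t z' (j + 1) * Dd N f t z' (j + 1)) :=
    sum_congr rfl fun j hj => by
      have hj' := mem_range.mp hj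
      rw [hh, hY (j + 1) hj', hD (N - (j + 1)) (j + 1) (by omega)]
  simp only [chain, cons_zero, hs, Complex.sub_im]
  ring

end chain

end Pool.Agent.Lib.BallT6
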