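import Pool.Agent.Lib.MP_d7b9cc_gt.G2

/-! The path of rotations from the identity to the cyclic shift in any dimension. -/

open scoped ContDiff
open Filter Topology Finset

namespace Pool.Agent.Lib.BallT6

variable {E : Type} [NormedAddCommGroup E] [NormedSpace ℝ E]

theorem pb_rot {F G : E → ℂ} {θ : E → ℝ} {p : E} (hF : ContDiffAt ℝ ∞ F p)
    (hG : ContDiffAt ℝ ∞ G p) (hθ : ContDiffAt ℝ ∞ θ p) (v w : E) :
    pb (fun x => (Real.cos (θ x) : ℂ) * F x + (Real.sin (θ x) : ℂ) * G x) p v w +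
      pb (fun x => -(Real.sin (θ x) : ℂ) * F x + (Real.cos (θ x) : ℂ) * G x) p v w =
    pb F p v w + pb G p v w + (dv (fun x => om (F x) (G x)) p v * dv θ p w -
      dv θ p v * dv (fun x => om (F x) (G x)) p w) := by
  have dF := (ContDiffAt.da hF).hasFDerivAt
  have dG := (ContDiffAt.da hG).hasFDerivAt
  have dθ := (ContDiffAt.da hθ).hasFDerivAt
  have dc : HasFDerivAt (fun x => (Real.cos (θ x) : ℂ)) _ p :=
    Complex.ofRealCLM.hasFDerivAt.comp p dθ.cos
  have ds : HasFDerivAt (fun x => (Real.sin (θ x) : ℂ)) _ p :=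
    Complex.ofRealCLM.hasFDerivAt.comp p dθ.sin
  have d1 : HasFDerivAt (fun x => (Real.cos (θ x) : ℂ) * F x + (Real.sin (θ x) : ℂ) * G x) _ p :=
    (dc.mul dF).add (ds.mul dG)
  have d2 : HasFDerivAt (fun x => -(Real.sin (θ x) : ℂ) * F x + (Real.cos (θ x) : ℂ) * G x) _ p :=
    (ds.neg.mul dF).add (dc.mul dG)
  have dj : HasFDerivAt (fun x => om (F x) (G x)) _ p :=
    ((Complex.reCLM.hasFDerivAt.comp p dF).mul (Complex.imCLM.hasFDerivAt.comp p dG)).sub
      ((Complex.imCLM.hasFDerivAt.comp p dF).mul (Complex.reCLM.hasFDerivAt.comp p dG))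
  unfold pb dv
  rw [d1.fderiv, d2.fderiv, dj.fderiv]
  have hcs := Real.sin_sq_add_cos_sq (θ p)
  simp [om, Complex.cos_ofReal_re, Complex.sin_ofReal_re]
  set c := Real.cos (θ p)
  set s := Real.sin (θ p)
  set a := fderiv ℝ F p v
  set a' := fderiv ℝ F p w
  set b := fderiv ℝ G p v
  set b' := fderiv ℝ G p w
  set r := fderiv ℝ θ p v
  set r' := fderiv ℝ θ p w
  linear_combination (a.re * a'.im - a.im * a'.re + b.re * b'.im - b.im * b'.re +
    r' * (a.re * (G p).im - a.im * (G p).re + (F p).re * b.im - (F p).im * b.re) -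
    r * (a'.re * (G p).im - a'.im * (G p).re + (F p).re * b'.im - (F p).im * b'.re)) * hcs

/-- The carry of the chain of rotations. -/
noncomputable def car (θ : ℝ) (W : ℕ → ℂ) : ℕ → ℂ
  | 0 => W 0
  | j + 1 => -(Real.sin θ : ℂ) * car θ W j + (Real.cos θ : ℂ) * W (j + 1)

/-- The product of the rotations by `θ` in the planes `(0,1), (1,2), …, (N-1,N)`. -/
noncomputable def AA (N : ℕ) (θ : ℝ) (W : ℕ → ℂ) (l : ℕ) : ℂ :=
  if l < N then (Real.cos θ : ℂ) * car θ W l + (Real.sin θ : ℂ) * W (l + 1) else car θ W N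

/-- The suspension of `AA N (β h)`. -/
noncomputable def rotA (N : ℕ) (β : ℝ → ℝ) (z : ℕ → ℂ) : ℕ → ℂ :=
  cons (z 0 + ((deriv β (z 0).re * ∑ j ∈ range N,
      om (car (β (z 0).re) (fun l => z (l + 1)) j) (z (j + 2)) : ℝ) : ℂ) * Complex.I)
    (AA N (β (z 0).re) (fun l => z (l + 1)))

theorem cd_om {F G : E → ℂ} {p : E} (hF : ContDiffAt ℝ ∞ F p) (hG : ContDiffAt ℝ ∞ G p) :
    ContDiffAt ℝ ∞ (fun x => om (F x) (G x)) p :=
  ((cd_re hF).mul (cd_im hG)).sub ((cd_im hF).mul (cd_re hG))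

theorem good_rotA (N : ℕ) {β : ℝ → ℝ} (hβ : ContDiff ℝ ∞ β) (z : ℕ → ℂ) :
    Good E (N + 1 + 1) (rotA N β) z := by
  intro Z p _ hs
  obtain ⟨h0, h1⟩ := sm_succ.mp hs
  have ch := cd_re h0
  have hβ' := (contDiff_infty_iff_deriv.mp hβ).2
  have cθ : ContDiffAt ℝ ∞ (fun x => β (Z x 0).re) p := hβ.contDiffAt.comp p ch
  have cθ' : ContDiffAt ℝ ∞ (fun x => deriv β (Z x 0).re) p := hβ'.contDiffAt.comp p ch
  have cc : ContDiffAt ℝ ∞ (fun x => (Real.cos (β (Z x 0).re) : ℂ)) p := cd_ofReal cθ.cos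
  have cs : ContDiffAt ℝ ∞ (fun x => (Real.sin (β (Z x 0).re) : ℂ)) p := cd_ofReal cθ.sin
  have cu : ∀ j ≤ N, ContDiffAt ℝ ∞ (fun x => car (β (Z x 0).re) (fun l => Z x (l + 1)) j) p := by
    intro j
    induction j with
    | zero => exact fun _ => h1 0 (by omega)
    | succ j ih => exact fun hj => (cs.neg.mul (ih (by omega))).add (cc.mul (h1 (j + 1) (by omega)))
  have cJ : ∀ j ∈ range N, ContDiffAt ℝ ∞
      (fun x => om (car (β (Z x 0).re) (fun l => Z x (l + 1)) j) (Z x (j + 2))) p := fun j hj =>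
    cd_om (cu j (mem_range.mp hj).le) (h1 (j + 1) (by have := mem_range.mp hj; omega))
  have cT := cθ'.mul (ContDiffAt.sum cJ)
  have cH := h0.add ((cd_ofReal cT).mul (contDiffAt_const (c := Complex.I)))
  refine ⟨sm_succ.mpr ⟨cH, fun l hl => ?_⟩, fun v w => ?_⟩
  · simp only [rotA, cons_succ, AA]
    split_ifs with h
    · exact (cc.mul (cu l h.le)).add (cs.mul (h1 (l + 1) (by omega)))
    · exact cu N le_rfl
  · have key : ∀ k ≤ N, ∑ l ∈ range k, pb (fun x => (Real.cos (β (Z x 0).re) : ℂ) *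
          car (β (Z x 0).re) (fun l => Z x (l + 1)) l +
            (Real.sin (β (Z x 0).re) : ℂ) * Z x (l + 2)) p v w +
        pb (fun x => car (β (Z x 0).re) (fun l => Z x (l + 1)) k) p v w =
        ∑ l ∈ range (k + 1), pb (fun x => Z x (l + 1)) p v w + ∑ j ∈ range k,
          (dv (fun x => om (car (β (Z x 0).re) (fun l => Z x (l + 1)) j) (Z x (j + 2))) p v *
            dv (fun x => β (Z x 0).re) p w - dv (fun x => β (Z x 0).re) p v *
          dv (fun x => om (car (β (Z x 0).re) (fun l => Z x (l + 1)) j) (Z x (j + 2))) p w) := by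
      intro k
      induction k with
      | zero => intro _; simp [car]
      | succ k ih =>
        intro hk
        have a := ih (by omega)
        have b := pb_rot (cu k (by omega)) (h1 (k + 1) (by omega)) cθ v w
        simp only [sum_range_succ, car, show k + 1 + 1 = k + 2 from rfl] at a b ⊢
        linarith
    have dθ : ∀ u, dv (fun x => β (Z x 0).re) p u =
        deriv β (Z p 0).re * dv (fun x => (Z x 0).re) p u := fun u =>
      dv_comp (f := fun x => (Z x 0).re) (hβ.differentiable (by simp) _).hasDerivAt ch u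
    have dθ' : ∀ u, dv (fun x => deriv β (Z x 0).re) p u =
        deriv (deriv β) (Z p 0).re * dv (fun x => (Z x 0).re) p u := fun u =>
      dv_comp (f := fun x => (Z x 0).re) (hβ'.differentiable (by simp) _).hasDerivAt ch u
    have k1 := key N le_rfl
    rw [sum_sub_distrib, ← sum_mul, ← mul_sum, dθ, dθ] at k1
    rw [PB_succ, PB_succ, sum_range_succ]
    simp only [rotA, cons_zero, cons_succ, AA, lt_irrefl, if_false]
    rw [sum_congr rfl fun l hl => by simp only [mem_range.mp hl, if_true]; rfl, k1, pb_eq cH,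
      pb_eq h0]
    simp only [Complex.add_re, Complex.add_im, Complex.ofReal_re, Complex.ofReal_im,
      Complex.mul_re, Complex.mul_im, Complex.I_re, Complex.I_im, mul_zero, mul_one, sub_zero,
      add_zero]
    rw [dv_add (cd_im h0) cT, dv_add (cd_im h0) cT, dv_mul cθ' (ContDiffAt.sum cJ),
      dv_mul cθ' (ContDiffAt.sum cJ), dv_sum cJ, dv_sum cJ, dθ', dθ']
    ring

theorem mu_rot (θ : ℝ) (a b : ℂ) : mu ((Real.cos θ : ℂ) * a + (Real.sin θ : ℂ) * b) +
    mu (-(Real.sin θ : ℂ) * a + (Real.cos θ : ℂ) * b) = mu a + mu b := by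
  have := tot_rot θ (a, b, 0)
  simp only [tot, rot] at this
  linarith

theorem tot_AA (N : ℕ) (θ : ℝ) (W : ℕ → ℂ) :
    ∑ l ∈ range (N + 1), mu (AA N θ W l) = ∑ l ∈ range (N + 1), mu (W l) := by
  have key : ∀ k, ∑ l ∈ range k, mu ((Real.cos θ : ℂ) * car θ W l + (Real.sin θ : ℂ) * W (l + 1)) +
      mu (car θ W k) = ∑ l ∈ range (k + 1), mu (W l) := by
    intro k
    induction k with
    | zero => simp [car]
    | succ k ih =>
      rw [sum_range_succ, sum_range_succ _ (k + 1), ← ih]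
      have := mu_rot θ (car θ W k) (W (k + 1))
      simp only [car]
      linarith
  rw [← key N, sum_range_succ]
  simp only [AA, lt_irrefl, if_false]
  congr 1
  exact sum_congr rfl fun l hl => by simp only [mem_range.mp hl, if_true]

theorem car_lin (θ : ℝ) (a b : ℂ) (W W' : ℕ → ℂ) (j : ℕ) :
    car θ (fun l => a * W l - b * W' l) j = a * car θ W j - b * car θ W' j := by
  induction j with
  | zero => rfl
  | succ j ih => simp only [car, ih]; ring

theorem AA_lin (N : ℕ) (θ : ℝ) (a b : ℂ) (W W' : ℕ → ℂ) :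
    AA N θ (fun l => a * W l - b * W' l) = fun l => a * AA N θ W l - b * AA N θ W' l := by
  funext l
  simp only [AA, car_lin]
  split_ifs
  · ring
  · rfl

theorem car_congr (θ : ℝ) {W W' : ℕ → ℂ} {N : ℕ} (h : ∀ l ≤ N, W l = W' l) :
    ∀ j ≤ N, car θ W j = car θ W' j := by
  intro j
  induction j with
  | zero => exact fun hj => h 0 hj
  | succ j ih => intro hj; simp only [car, ih (by omega), h (j + 1) hj]

theorem AA_congr (θ : ℝ) {W W' : ℕ → ℂ} {N : ℕ} (h : ∀ l ≤ N, W l = W' l) :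
    AA N θ W = AA N θ W' := by
  funext l
  unfold AA
  split_ifs with hl
  · rw [car_congr θ h l hl.le, h (l + 1) hl]
  · exact car_congr θ h N le_rfl

theorem AA_zero (N : ℕ) (W : ℕ → ℂ) : ∀ l ≤ N, AA N 0 W l = W l := by
  have : ∀ j, car 0 W j = W j := fun j => by cases j <;> simp [car]
  intro l hl
  unfold AA
  split_ifs with h
  · simp [this]
  · rw [this, show l = N by omega]

theorem AA_half {N l : ℕ} (hl : l < N) (W : ℕ → ℂ) : AA N (Real.pi / 2) W l = W (l + 1) := by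
  simp [AA, hl]

theorem iter_half (N : ℕ) : ∀ (k : ℕ) (W : ℕ → ℂ) (l : ℕ), l + k ≤ N →
    (AA N (Real.pi / 2))^[k] W l = W (l + k) := by
  intro k
  induction k with
  | zero => intro W l _; rfl
  | succ k ih =>
    intro W l hl
    rw [Function.iterate_succ_apply, ih _ l (by omega), AA_half (by omega)]
    rfl

/-- The family of rotations after `i` windows. -/
noncomputable def Uk (N : ℕ) (γ h : ℝ) (W : ℕ → ℂ) : ℕ → ℕ → ℂ
  | 0 => W
  | i + 1 => AA N (step γ (h - (i + 1))) (Uk N γ h W i)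

/-- The suspension of `Uk`. -/
noncomputable def Fk (N : ℕ) (γ : ℝ) : ℕ → (ℕ → ℂ) → ℕ → ℂ
  | 0 => id
  | i + 1 => rotA N (fun h => step γ (h - (i + 1))) ∘ Fk N γ i

theorem good_Fk (N : ℕ) (γ : ℝ) (i : ℕ) (z : ℕ → ℂ) : Good E (N + 1 + 1) (Fk N γ i) z := by
  induction i with
  | zero => exact fun Z p _ hs => ⟨hs, fun _ _ => rfl⟩
  | succ i ih =>
    exact (good_rotA N ((contDiff_step γ).comp (contDiff_id.sub contDiff_const)) _).comp ih

theorem Fk_re (N : ℕ) (γ : ℝ) (i : ℕ) (z : ℕ → ℂ) : (Fk N γ i z 0).re = (z 0).re := by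
  induction i with
  | zero => rfl
  | succ i ih => simp [Fk, rotA, ih]

theorem Fk_tail (N : ℕ) (γ : ℝ) (i : ℕ) (z : ℕ → ℂ) :
    (fun l => Fk N γ i z (l + 1)) = Uk N γ (z 0).re (fun l => z (l + 1)) i := by
  induction i with
  | zero => rfl
  | succ i ih => simp only [Fk, rotA, Function.comp_apply, cons_succ, Uk, Fk_re, ih]

theorem Uk_congr {N : ℕ} (γ h : ℝ) {W W' : ℕ → ℂ} (e : ∀ l ≤ N, W l = W' l) (i : ℕ) :
    ∀ l ≤ N, Uk N γ h W i l = Uk N γ h W' i l := by
  induction i with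
  | zero => exact e
  | succ i ih => intro l _; simp only [Uk, AA_congr _ ih]

theorem Fk_im {N : ℕ} (γ : ℝ) {z z' : ℕ → ℂ} (hh : (z 0).re = (z' 0).re)
    (e : ∀ l ≤ N, z (l + 1) = z' (l + 1)) (i : ℕ) :
    (Fk N γ i z' 0).im - (Fk N γ i z 0).im = (z' 0).im - (z 0).im := by
  induction i with
  | zero => rfl
  | succ i ih =>
    have a : ∀ l ≤ N, Fk N γ i z (l + 1) = Fk N γ i z' (l + 1) := fun l hl => by
      rw [congrFun (Fk_tail N γ i z) l, congrFun (Fk_tail N γ i z') l, hh]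
      exact Uk_congr γ _ e i l hl
    have b : ∀ θ, ∑ j ∈ range N, om (car θ (fun l => Fk N γ i z (l + 1)) j) (Fk N γ i z (j + 2)) =
        ∑ j ∈ range N, om (car θ (fun l => Fk N γ i z' (l + 1)) j) (Fk N γ i z' (j + 2)) :=
      fun θ => sum_congr rfl fun j hj => by
        rw [car_congr θ a j (mem_range.mp hj).le, a (j + 1) (mem_range.mp hj)]
    simp only [Fk, rotA, Function.comp_apply, cons_zero, Fk_re, hh, b, Complex.add_im]
    linarith

theorem tot_Uk (N : ℕ) (γ h : ℝ) (W : ℕ → ℂ) (i : ℕ) :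
    ∑ l ∈ range (N + 1), mu (Uk N γ h W i l) = ∑ l ∈ range (N + 1), mu (W l) := by
  induction i with
  | zero => rfl
  | succ i ih => simp only [Uk, tot_AA, ih]

theorem Uk_lin (N : ℕ) (γ h : ℝ) (a b : ℂ) (W W' : ℕ → ℂ) (i : ℕ) :
    Uk N γ h (fun l => a * W l - b * W' l) i =
      fun l => a * Uk N γ h W i l - b * Uk N γ h W' i l := by
  induction i with
  | zero => rfl
  | succ i ih => simp only [Uk, ih, AA_lin]

theorem Uk_inj {N : ℕ} {γ h : ℝ} {a b : ℂ} {W W' : ℕ → ℂ} {i : ℕ}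
    (e : ∀ l ≤ N, a * Uk N γ h W i l = b * Uk N γ h W' i l) : ∀ l ≤ N, a * W l = b * W' l := by
  have h1 := tot_Uk N γ h (fun l => a * W l - b * W' l) i
  rw [Uk_lin, sum_eq_zero fun l hl => by
    simp only [e l (by have := mem_range.mp hl; omega), sub_self]; simp [mu]] at h1
  have h2 := (sum_eq_zero_iff_of_nonneg fun l _ => mu_nonneg _).mp h1.symm
  intro l hl
  by_contra hc
  exact (mu_pos (sub_ne_zero.mpr hc)).ne' (h2 l (mem_range.mpr (by omega)))

section
variable {N : ℕ} {γ h : ℝ} (hγ : 0 < γ)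
include hγ

theorem Uk_succ (h1 : γ ≤ h) (W : ℕ → ℂ) (i : ℕ) :
    Uk N γ (h + 1) W (i + 1) = Uk N γ h (AA N (Real.pi / 2) W) i := by
  induction i with
  | zero =>
    simp only [Uk]
    rw [step_hi hγ (by push_cast; linarith)]
  | succ i ih =>
    rw [Uk, ih, Uk]
    congr 2
    push_cast
    ring

theorem Uk_late (W : ℕ → ℂ) {i : ℕ} (h1 : h ≤ i + 1 - γ) {j : ℕ} (hj : i ≤ j) :
    ∀ l ≤ N, Uk N γ h W j l = Uk N γ h W i l := by
  induction j, hj using Nat.le_induction with
  | base => exact fun _ _ => rfl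
  | succ j hj ih =>
    intro l hl
    have : (i : ℝ) ≤ j := by exact_mod_cast hj
    rw [Uk, step_lo hγ (by linarith), AA_zero N _ l hl, ih l hl]

theorem Uk_early (W : ℕ → ℂ) (i : ℕ) (h1 : i + γ ≤ h) :
    Uk N γ h W i = (AA N (Real.pi / 2))^[i] W := by
  induction i with
  | zero => rfl
  | succ i ih =>
    push_cast at h1
    rw [Uk, ih (by linarith), step_hi hγ (by linarith), Function.iterate_succ_apply']

theorem Uk_shift (h1 : γ ≤ h) : ∀ (k : ℕ) (W : ℕ → ℂ), h + k ≤ N + 1 - γ →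
    ∀ l ≤ N, Uk N γ (h + k) W N l = Uk N γ h ((AA N (Real.pi / 2))^[k] W) N l := by
  intro k
  induction k with
  | zero => intro W _ l _; simp
  | succ k ih =>
    intro W h2 l hl
    push_cast at h2 ⊢
    have hk : (0 : ℝ) ≤ k := Nat.cast_nonneg k
    rw [Function.iterate_succ_apply, ← ih _ (by linarith) l hl, ← add_assoc]
    cases N with
    | zero => simp at h2; linarith
    | succ M =>
      rw [Uk_succ hγ (by linarith)]
      push_cast at h2
      exact (Uk_late hγ _ (i := M) (by linarith) (Nat.le_succ M) l hl).symm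

theorem Uk_ne (hγ' : γ ≤ 1 / 2) (h1 : 0 ≤ h) {W : ℕ → ℂ} (w1 : ∀ l ≤ N, W l ≠ 0)
    (w2 : ∀ k < N, k + 1 - γ ≤ h → ∀ c s : ℝ, 0 ≤ c → 0 ≤ s → c ^ 2 + s ^ 2 = 1 →
      (c : ℂ) * W k + (s : ℂ) * W (k + 1) ≠ 0) : Uk N γ h W N 0 ≠ 0 := by
  have a1 := Nat.floor_le (a := h + 1 / 2) (by linarith)
  have a2 := Nat.lt_floor_add_one (h + 1 / 2)
  generalize ⌊h + 1 / 2⌋₊ = i at a1 a2
  rcases Nat.lt_or_ge N i with hi | hi
  · have : (N : ℝ) + 1 ≤ i := by exact_mod_cast hi
    rw [Uk_early hγ W N (by linarith), iter_half N N W 0 (by omega)]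
    exact w1 _ (by omega)
  · rw [Uk_late hγ W (i := i) (by linarith) hi 0 (by omega)]
    cases i with
    | zero => exact w1 0 (by omega)
    | succ k =>
      push_cast at a1 a2
      rw [Uk, Uk_early hγ W k (by linarith)]
      rcases le_total h (k + 1 - γ) with h2 | h2
      · rw [step_lo hγ (by linarith), AA_zero N _ 0 (by omega), iter_half N k W 0 (by omega)]
        exact w1 _ (by omega)
      · simp only [AA, show 0 < N by omega, if_true, car]
        rw [iter_half N k W 0 (by omega), iter_half N k W (0 + 1) (by omega), zero_add, zero_add,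
          add_comm 1 k]
        exact w2 k (by omega) h2 _ _ (step_cos _ _).1 (step_cos _ _).2
          (Real.cos_sq_add_sin_sq _)

end

end Pool.Agent.Lib.BallT6
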