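import Pool.Agent.Lib.MP_d7b9cc_gt.G3
import Pool.Agent.Lib.MP_d7b9cc_gt.G4

/-! The ball of capacity below `N + 1` in `B^{2N}(N + 1) × T²(1)`. -/

open scoped ContDiff
open Filter Topology Finset

namespace Pool.Agent.Lib.BallT6

variable {E : Type} [NormedAddCommGroup E] [NormedSpace ℝ E]

/-- Partial sums of the moments of the coordinates `1, …, l`. -/
noncomputable def QQ (x : ℕ → ℂ) (l : ℕ) : ℝ := ∑ i ∈ range l, mu (x (i + 1))

theorem QQ_nonneg (x : ℕ → ℂ) (l : ℕ) : 0 ≤ QQ x l := sum_nonneg fun _ _ => mu_nonneg _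

/-- The slices of the twisted ball. -/
structure Sl (N : ℕ) (g : ℝ) (x : ℕ → ℂ) : Prop where
  lo : ∀ l ≤ N, (l : ℝ) - N + (QQ x N - QQ x l) + g ≤ (x 0).re
  hi : ∃ l ≤ N, (x 0).re + g ≤ l + 1 - QQ x l

theorem Sl.lt {N : ℕ} {g : ℝ} {x : ℕ → ℂ} (h : Sl N g x) : QQ x N + 2 * g ≤ N + 1 := by
  obtain ⟨l, hl, a⟩ := h.hi
  have := h.lo l hl
  linarith

theorem Sl.ge {N : ℕ} {g : ℝ} {x : ℕ → ℂ} (h : Sl N g x) : g ≤ (x 0).re := by
  have := h.lo N le_rfl
  linarith

theorem Sl.le {N : ℕ} {g : ℝ} {x : ℕ → ℂ} (h : Sl N g x) : (x 0).re + g ≤ N + 1 := by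
  obtain ⟨l, hl, a⟩ := h.hi
  have := QQ_nonneg x l
  have : (l : ℝ) ≤ N := by exact_mod_cast hl
  linarith

theorem aff_eq {N l : ℕ} (hl : l ≤ N) (x : ℕ → ℂ) :
    aff N (fun l => l + 1 - (N + 1) / 2) (fun l i => if l ≤ i then 1 / 2 else -(1 / 2)) l x =
      l + 1 - (N + 1) / 2 + QQ x N / 2 - QQ x l := by
  have key : ∀ M, l ≤ M → ∑ i ∈ range M, (if l ≤ i then 1 / 2 else -(1 / 2) : ℝ) *
      mu (x (i + 1)) = QQ x M / 2 - QQ x l := by
    intro M hM
    induction M, hM using Nat.le_induction with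
    | base =>
      rw [sum_congr rfl fun i hi => by rw [if_neg (by have := mem_range.mp hi; omega)],
        ← mul_sum]
      unfold QQ
      ring
    | succ M hM ih =>
      rw [sum_range_succ, ih, if_pos hM]
      unfold QQ
      rw [sum_range_succ]
      ring
  unfold aff
  rw [key N hl]
  ring

theorem exists_slices' (E : Type) [NormedAddCommGroup E] [NormedSpace ℝ E] (N : ℕ) {ρ : ℝ}
    (hρ : ρ < N + 1) : ∃ G : (ℕ → ℂ) → ℕ → ℂ, (∀ z, Good E (N + 1) G z) ∧
      (∀ z z', (∀ l < N + 1, G z l = G z' l) → ∀ l < N + 1, z l = z' l) ∧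
      (∀ z, 0 < (G z 0).im ∧ (G z 0).im < 1) ∧
      ∀ z, ∑ l ∈ range (N + 1), mu (z l) ≤ ρ → Sl N ((N + 1 - ρ) / 4) (G z) := by
  have hε : 0 < (N + 1 - ρ) / 8 := by linarith
  obtain ⟨σ, hσ, σ1, σ2⟩ := exists_strip' (N + 1) hε
  have hN : (0 : ℝ) < N + 1 := by positivity
  set β : ℝ := (N + 1) / ((N + 1 - ρ) / 8) with hβ
  have β0 : 0 < β := div_pos hN hε
  have β1 : β⁻¹ * N ≤ (N + 1 - ρ) / 8 := by
    rw [hβ, inv_div, div_mul_eq_mul_div, div_le_iff₀ hN]
    nlinarith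
  refine ⟨tw N β (fun l => l + 1 - (N + 1) / 2) (fun l i => if l ≤ i then 1 / 2 else -(1 / 2)) ∘
    fun z => cons (σ (z 0)) (fun i => z (i + 1)), fun z => (good_tw _ _ _ _ β0.ne' _).comp
      (good_head hσ N z), fun z z' h l hl => ?_, fun z => ?_, fun z hz => ?_⟩
  · have := tw_inj _ _ _ _ h l hl
    cases l with
    | zero => exact hσ.inj this
    | succ l => exact this
  · simpa [tw] using σ1 (z 0)
  · rw [sum_range_succ'] at hz
    have hz' : QQ z N + mu (z 0) ≤ ρ := hz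
    have a := abs_le.mp (σ2 (z 0) (by linarith [QQ_nonneg z N]))
    have hQ : ∀ l, QQ (tw N β (fun l => l + 1 - (N + 1) / 2)
        (fun l i => if l ≤ i then 1 / 2 else -(1 / 2)) (cons (σ (z 0)) (fun i => z (i + 1)))) l =
        QQ z l := fun l => by simp only [QQ, tw, cons_succ, mu_ph_mul]
    have hQ' : ∀ l, QQ (cons (σ (z 0)) (fun i => z (i + 1))) l = QQ z l := fun l => rfl
    constructor
    · intro l hl
      have b := aff_le_smax N β (fun l => l + 1 - (N + 1) / 2)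
        (fun l i => if l ≤ i then 1 / 2 else -(1 / 2)) β0 (l := l) (by omega)
        (cons (σ (z 0)) (fun i => z (i + 1)))
      rw [aff_eq hl, hQ', hQ'] at b
      simp only [Function.comp_apply, hQ]
      simp only [tw, cons_zero, Complex.add_re, Complex.ofReal_re]
      linarith [a.1]
    · obtain ⟨l, hl, b⟩ := smax_le_aff N β (fun l => l + 1 - (N + 1) / 2)
        (fun l i => if l ≤ i then 1 / 2 else -(1 / 2)) β0 (cons (σ (z 0)) (fun i => z (i + 1)))
      rw [aff_eq (by omega), hQ', hQ'] at b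
      refine ⟨l, by omega, ?_⟩
      simp only [Function.comp_apply, hQ]
      simp only [tw, cons_zero, Complex.add_re, Complex.ofReal_re]
      linarith [a.2]

/-- The lift to the sphere of capacity `N + 1`. -/
noncomputable def lf (N : ℕ) (x : ℕ → ℂ) : ℕ → ℂ :=
  cons (x 0) (cons ((Real.sqrt ((N + 1 - QQ x N) / Real.pi) : ℝ) : ℂ) (fun i => x (i + 1)))

/-- The projection to the ball. -/
noncomputable def pr (x : ℕ → ℂ) : ℕ → ℂ := cons (x 0) (fun j => un (x 1) * x (j + 2))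

theorem mu_sqrt {a : ℝ} (h : 0 ≤ a) : mu ((Real.sqrt (a / Real.pi) : ℝ) : ℂ) = a := by
  have hπ := Real.pi_pos
  show Real.pi * (Real.sqrt (a / Real.pi) ^ 2 + 0 ^ 2) = _
  rw [Real.sq_sqrt (div_nonneg h hπ.le)]
  field_simp
  ring

theorem tot_lf {N : ℕ} {x : ℕ → ℂ} (h : QQ x N ≤ N + 1) :
    ∑ l ∈ range (N + 1), mu (lf N x (l + 1)) = N + 1 := by
  rw [sum_range_succ']
  simp only [lf, cons_succ, cons_zero]
  rw [mu_sqrt (by linarith)]
  unfold QQ
  ring

theorem pb_real {f : E → ℝ} {p : E} (hf : ContDiffAt ℝ ∞ f p) (v w : E) :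
    pb (fun x => (f x : ℂ)) p v w = 0 := by
  rw [pb_eq (cd_ofReal hf)]
  simp [dv_const]

theorem pb_un {F : E → ℂ} {p : E} (hF : ContDiffAt ℝ ∞ F p) (h : F p ≠ 0) (v w : E) :
    ∃ s t : ℝ, pb F p v w + (t * dv (fun x => mu (F x)) p v - s * dv (fun x => mu (F x)) p w) = 0 ∧
      ∀ G : E → ℂ, ContDiffAt ℝ ∞ G p → pb (fun x => un (F x) * G x) p v w =
        pb G p v w + (t * dv (fun x => mu (G x)) p v - s * dv (fun x => mu (G x)) p w) := by
  obtain ⟨s, hs, hs'⟩ := fderiv_un h (fderiv ℝ F p v)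
  obtain ⟨t, ht, ht'⟩ := fderiv_un h (fderiv ℝ F p w)
  have hπ := Real.pi_pos.ne'
  have du : HasFDerivAt (fun x => un (F x)) _ p :=
    HasFDerivAt.comp (g := un) p (ContDiffAt.da (contDiffAt_un h)).hasFDerivAt
      (ContDiffAt.da hF).hasFDerivAt
  refine ⟨s / (2 * Real.pi), t / (2 * Real.pi), ?_, fun G hG => ?_⟩
  · have h0 := om_phase (un (F p)) (fderiv ℝ F p v) (fderiv ℝ F p w) (F p) s t (un_sq h)
    rw [om, hs', ht'] at h0
    rw [dv_mu hF, dv_mu hF]
    unfold pb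
    field_simp
    linear_combination (-1 : ℝ) * h0
  · have d : HasFDerivAt (fun x => un (F x) * G x) _ p := du.mul (ContDiffAt.da hG).hasFDerivAt
    have h1 := om_phase (un (F p)) (fderiv ℝ G p v) (fderiv ℝ G p w) (G p) s t (un_sq h)
    rw [dv_mu hG, dv_mu hG]
    unfold pb
    rw [d.fderiv]
    simp only [add_apply, smul_apply, ContinuousLinearMap.coe_comp, Function.comp_apply,
      smul_eq_mul, hs, ht]
    rw [mul_comm (G p), mul_comm (G p), h1]
    field_simp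
    ring

theorem Fk_succ (N : ℕ) (γ : ℝ) (i : ℕ) (z : ℕ → ℂ) (l : ℕ) :
    Fk N γ i z (l + 1) = Uk N γ (z 0).re (fun l => z (l + 1)) i l :=
  congrFun (Fk_tail N γ i z) l

theorem tot_Fk (N : ℕ) (γ : ℝ) (i : ℕ) (z : ℕ → ℂ) :
    ∑ l ∈ range (N + 1), mu (Fk N γ i z (l + 1)) = ∑ l ∈ range (N + 1), mu (z (l + 1)) := by
  simp only [Fk_succ, tot_Uk]

theorem good_wrap {N : ℕ} {γ : ℝ} {z : ℕ → ℂ} (h1 : QQ z N < N + 1)
    (h2 : Fk N γ N (lf N z) 1 ≠ 0) : Good E (N + 1) (pr ∘ Fk N γ N ∘ lf N) z := by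
  intro Z p hp hs
  subst hp
  obtain ⟨h0, ht⟩ := sm_succ.mp hs
  have cQ : ContDiffAt ℝ ∞ (fun x => QQ (Z x) N) p :=
    ContDiffAt.sum fun i hi => cd_mu (ht i (mem_range.mp hi))
  have cr : ContDiffAt ℝ ∞ (fun x => Real.sqrt ((N + 1 - QQ (Z x) N) / Real.pi)) p :=
    ContDiffAt.sqrt ((contDiffAt_const.sub cQ).div_const _)
      (div_pos (by linarith) Real.pi_pos).ne'
  have s1 : Sm (N + 1 + 1) (fun x => lf N (Z x)) p := by
    refine sm_succ.mpr ⟨h0, fun i hi => ?_⟩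
    cases i with
    | zero => exact cd_ofReal cr
    | succ i => exact ht i (by omega)
  have p1 : ∀ v w, PB (N + 1 + 1) (fun x => lf N (Z x)) p v w = PB (N + 1) Z p v w := by
    intro v w
    rw [PB_succ, PB_succ, sum_range_succ']
    simp only [lf, cons_zero, cons_succ]
    rw [pb_real cr, add_zero]
  obtain ⟨s2, p2⟩ := good_Fk (E := E) N γ N _ (fun x => lf N (Z x)) p rfl s1
  obtain ⟨c0, c1⟩ := sm_succ.mp s2
  have ev : (fun x => ∑ l ∈ range (N + 1), mu (Fk N γ N (lf N (Z x)) (l + 1))) =ᶠ[𝓝 p]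
      fun _ => (N + 1 : ℝ) := by
    filter_upwards [cQ.continuousAt.eventually_lt continuousAt_const h1] with x hx
    rw [tot_Fk, tot_lf hx.le]
  have d0 : ∀ u, ∑ l ∈ range (N + 1),
      dv (fun x => mu (Fk N γ N (lf N (Z x)) (l + 1))) p u = 0 := fun u => by
    rw [← dv_sum fun l hl => cd_mu (c1 l (mem_range.mp hl)), dv_congr ev, dv_const]
  have cu : ContDiffAt ℝ ∞ (fun x => un (Fk N γ N (lf N (Z x)) 1)) p :=
    ContDiffAt.comp (g := un) p (contDiffAt_un h2) (c1 0 (by omega))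
  refine ⟨sm_succ.mpr ⟨c0, fun i hi => cu.mul (c1 (i + 1) (by omega))⟩, fun v w => ?_⟩
  obtain ⟨s, t, e0, e1⟩ := pb_un (c1 0 (by omega)) h2 v w
  rw [← p1, ← p2, PB_succ, PB_succ, sum_range_succ']
  simp only [Function.comp_apply, pr, cons_zero, cons_succ]
  have a := d0 v
  have b := d0 w
  rw [sum_range_succ'] at a b
  rw [sum_congr rfl fun i hi => e1 (fun x => Fk N γ N (lf N (Z x)) (i + 2))
    (c1 (i + 1) (by have := mem_range.mp hi; omega)), sum_add_distrib, sum_sub_distrib,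
    ← mul_sum, ← mul_sum]
  linear_combination t * a - s * b - e0

theorem QQ_pr {N : ℕ} {A : ℕ → ℂ} (h : A 1 ≠ 0) :
    QQ (pr A) N + mu (A 1) = ∑ l ∈ range (N + 1), mu (A (l + 1)) := by
  rw [sum_range_succ']
  simp only [QQ, pr, cons_succ, mu_unit_mul (un_sq h)]

theorem pr_eq {N : ℕ} {A B : ℕ → ℂ} (hA : A 1 ≠ 0) (hB : B 1 ≠ 0)
    (ht : ∑ l ∈ range (N + 1), mu (A (l + 1)) = ∑ l ∈ range (N + 1), mu (B (l + 1)))
    (h : ∀ i < N, pr A (i + 1) = pr B (i + 1)) :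
    ∀ l ≤ N, un (A 1) * A (l + 1) = un (B 1) * B (l + 1) := by
  intro l hl
  cases l with
  | succ l => exact h l hl
  | zero =>
    have e : QQ (pr A) N = QQ (pr B) N := sum_congr rfl fun i hi => by rw [h i (mem_range.mp hi)]
    have m0 : mu (A 1) = mu (B 1) := by linarith [QQ_pr (N := N) hA, QQ_pr (N := N) hB]
    rw [mu_eq_norm, mu_eq_norm] at m0
    rw [un_mul hA, un_mul hB,
      (sq_eq_sq₀ (norm_nonneg _) (norm_nonneg _)).mp (mul_left_cancel₀ Real.pi_pos.ne' m0)]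

theorem no_shift' {N : ℕ} {γ g : ℝ} (hγ : 0 < γ) (hg : γ ≤ g) {x y : ℕ → ℂ} (hx : Sl N g x)
    (hy : Sl N g y) {a b : ℂ} (ha : a.re ^ 2 + a.im ^ 2 = 1) (hb : b.re ^ 2 + b.im ^ 2 = 1)
    {k : ℕ} (hk : (y 0).re = (x 0).re + (k + 1 : ℕ))
    (h : ∀ l ≤ N, a * Uk N γ (x 0).re (fun l => lf N x (l + 1)) N l =
      b * Uk N γ (y 0).re (fun l => lf N y (l + 1)) N l) : False := by
  have x0 := hx.ge
  have e := Uk_inj (W' := (AA N (Real.pi / 2))^[k + 1] fun l => lf N y (l + 1)) fun l hl => by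
    rw [h l hl, hk, Uk_shift hγ (by linarith) _ _ (by linarith [hy.le]) l hl]
  obtain ⟨l, hl, c⟩ := hy.hi
  push_cast at hk
  rcases Nat.lt_or_ge k l with hkl | hkl
  · obtain ⟨j, rfl⟩ := Nat.exists_eq_add_of_lt hkl
    have e2 : ∑ i ∈ range (j + 1), mu (lf N x (i + 1)) = ∑ i ∈ range (j + 1), mu (y (k + i + 1)) :=
      sum_congr rfl fun i hi => by
        have hi' := mem_range.mp hi
        have := congrArg mu (e i (by omega))
        rw [mu_unit_mul ha, mu_unit_mul hb, iter_half N _ _ _ (by omega)] at this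
        rw [this, add_comm k i]
        rfl
    have e3 : QQ y (k + j + 1) = QQ y k + ∑ i ∈ range (j + 1), mu (y (k + i + 1)) :=
      sum_range_add (fun i => mu (y (i + 1))) k (j + 1)
    rw [sum_range_succ'] at e2
    simp only [lf, cons_succ, cons_zero] at e2
    rw [mu_sqrt (by linarith [hx.lt])] at e2
    have e4 := hx.lo j (by omega)
    have e5 := QQ_nonneg y k
    push_cast at c
    unfold QQ at e4
    unfold QQ at e2
    linarith
  · have : (l : ℝ) ≤ k := by exact_mod_cast hkl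
    linarith [QQ_nonneg y l]

theorem wrap_inj {N : ℕ} {γ g : ℝ} (hγ : 0 < γ) (hg : γ ≤ g) {x y : ℕ → ℂ} (hx : Sl N g x)
    (hy : Sl N g y) (nx : Fk N γ N (lf N x) 1 ≠ 0) (ny : Fk N γ N (lf N y) 1 ≠ 0)
    (h : ∀ i < N, pr (Fk N γ N (lf N x)) (i + 1) = pr (Fk N γ N (lf N y)) (i + 1)) {k : ℤ}
    (hk : (y 0).re = (x 0).re + k) : (x 0).re = (y 0).re ∧ (∀ i < N, x (i + 1) = y (i + 1)) ∧
      (Fk N γ N (lf N y) 0).im - (Fk N γ N (lf N x) 0).im = (y 0).im - (x 0).im := by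
  have qx : QQ x N < N + 1 := by linarith [hx.lt]
  have qy : QQ y N < N + 1 := by linarith [hy.lt]
  have e := pr_eq nx ny (by rw [tot_Fk, tot_Fk, tot_lf qx.le, tot_lf qy.le]) h
  have ha := un_sq nx
  have hb := un_sq ny
  generalize un (Fk N γ N (lf N x) 1) = a at e ha
  generalize un (Fk N γ N (lf N y) 1) = b at e hb
  simp only [Fk_succ] at e
  have hh : (x 0).re = (y 0).re := by
    rcases lt_trichotomy k 0 with h0 | h0 | h0
    · obtain ⟨m, hm⟩ : ∃ m : ℕ, k = -((m + 1 : ℕ) : ℤ) := ⟨(-k - 1).toNat, by omega⟩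
      refine (no_shift' hγ hg hy hx hb ha (k := m) ?_ fun l hl => (e l hl).symm).elim
      rw [hk, hm]; push_cast; ring
    · rw [hk, h0]; simp
    · obtain ⟨m, hm⟩ : ∃ m : ℕ, k = ((m + 1 : ℕ) : ℤ) := ⟨(k - 1).toNat, by omega⟩
      refine (no_shift' hγ hg hx hy ha hb (k := m) ?_ e).elim
      rw [hk, hm]; push_cast; ring
  have hh' : (lf N x 0).re = (lf N y 0).re := hh
  rw [hh'] at e
  have e1 := Uk_inj e
  have q : QQ x N = QQ y N := sum_congr rfl fun i hi => by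
    have := congrArg mu (e1 (i + 1) (mem_range.mp hi))
    rwa [mu_unit_mul ha, mu_unit_mul hb] at this
  have e0 := e1 0 (by omega)
  simp only [lf, cons_succ, cons_zero, q] at e0
  have hab : a = b := mul_right_cancel₀ (Complex.ofReal_ne_zero.mpr
    (Real.sqrt_pos.mpr (div_pos (by linarith) Real.pi_pos)).ne') e0
  have b0 : b ≠ 0 := by
    intro h0; rw [h0] at hb; simp at hb
  rw [hab] at e1
  have e2 : ∀ l ≤ N, lf N x (l + 1) = lf N y (l + 1) := fun l hl => mul_left_cancel₀ b0 (e1 l hl)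
  exact ⟨hh, fun i hi => e2 (i + 1) hi, Fk_im γ hh' e2 N⟩

theorem ph_half {B : ℝ} (h1 : -(1 / 2) < B) (h2 : B < 1 / 2) {r : ℝ} (hr : 0 < r) :
    (ph (2 * Real.pi * B) * (r : ℂ)).im = 0 → 0 < (ph (2 * Real.pi * B) * (r : ℂ)).re := by
  intro h
  have hπ := Real.pi_pos
  simp only [Complex.mul_im, Complex.mul_re, Complex.ofReal_re, Complex.ofReal_im, ph_re, ph_im,
    mul_zero, zero_add, sub_zero] at h ⊢
  have := (Real.sin_eq_zero_iff_of_lt_of_lt (by nlinarith) (by nlinarith)).mp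
    ((mul_eq_zero.mp h).resolve_right hr.ne')
  rw [this, Real.cos_zero, one_mul]
  exact hr

theorem ball_all (E : Type) [NormedAddCommGroup E] [NormedSpace ℝ E] (N : ℕ) {ρ : ℝ}
    (hρ : ρ < N + 1) : ∃ Ψ : (ℕ → ℂ) → ℕ → ℂ,
      (∀ z, ∑ l ∈ range (N + 1), mu (z l) ≤ ρ → Good E (N + 1) Ψ z ∧ QQ (Ψ z) N < N + 1) ∧
      ∀ z z', ∑ l ∈ range (N + 1), mu (z l) ≤ ρ → ∑ l ∈ range (N + 1), mu (z' l) ≤ ρ →
        (∀ i < N, Ψ z (i + 1) = Ψ z' (i + 1)) → ∀ (k : ℤ) (l : ℝ),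
          Ψ z' 0 - Ψ z 0 = (k : ℂ) + (l : ℂ) * Complex.I →
            |l| < 1 ∧ (l = 0 → ∀ j < N + 1, z j = z' j) := by
  obtain ⟨G, g1, g2, g3, g4⟩ := exists_slices' E N hρ
  have hg : 0 < (N + 1 - ρ) / 4 := by linarith
  generalize (N + 1 - ρ) / 4 = g at g4 hg
  have hN : (0 : ℝ) < 2 * N + 1 := by positivity
  obtain ⟨ε, hε, hε'⟩ : ∃ ε : ℝ, 0 < ε ∧ (2 * N + 1) * ε = g / 2 :=
    ⟨g / 2 / (2 * N + 1), by positivity, by field_simp⟩
  obtain ⟨γ, hγ, γ1, γ2⟩ : ∃ γ : ℝ, 0 < γ ∧ γ ≤ g / 3 ∧ γ ≤ 1 / 2 :=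
    ⟨min (g / 3) (1 / 2), lt_min (by linarith) (by norm_num), min_le_left _ _, min_le_right _ _⟩
  obtain ⟨f, hf, f1, f2⟩ := exists_oneSided (N + 1) hε
  set t : ℕ → ℝ → ℝ := fun k h => Real.smoothTransition ((h - (k + 1) + 3 * γ) / (2 * γ)) with ht
  have tc : ∀ j, ContDiff ℝ ∞ (t j) := fun j => Real.smoothTransition.contDiff.comp
    (((contDiff_id.sub contDiff_const).add contDiff_const).div_const _)
  have t1 : ∀ j h, 0 ≤ t j h ∧ t j h ≤ 1 := fun j h =>
    ⟨Real.smoothTransition.nonneg _, Real.smoothTransition.le_one _⟩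
  have t2 : ∀ (j : ℕ) h, h ≤ j + 1 - 3 * γ → t j h = 0 := fun j h hh =>
    Real.smoothTransition.zero_of_nonpos
      (div_nonpos_of_nonpos_of_nonneg (by linarith) (by linarith))
  have t3 : ∀ (j : ℕ) h, j + 1 - γ ≤ h → t j h = 1 := fun j h hh =>
    Real.smoothTransition.one_of_one_le (by rw [le_div_iff₀ (by linarith)]; linarith)
  have hR : ∀ x, Sl N g x → ∀ j < N, mu (x (j + 1)) ≤ N + 1 := fun x hx j hj => by
    have := single_le_sum (f := fun i => mu (x (i + 1))) (fun _ _ => mu_nonneg _) (mem_range.mpr hj)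
    have := hx.lt
    unfold QQ at this
    linarith
  have hX : ∀ x, Sl N g x → ∀ j, 0 < Xc N f t ε x j := fun x hx j =>
    Xc_pos f1 f2 hε.le t1 (hR x hx) j
  have hQ : ∀ x, Sl N g x → ∀ l, QQ (chain N f t ε x) l = ∑ j ∈ range l, Xc N f t ε x j :=
    fun x hx l => sum_congr rfl fun j _ => mu_chain (hX x hx j)
  have hS : ∀ x, Sl N g x → Sl N (g / 2) (chain N f t ε x) := fun x hx => by
    constructor
    · intro l hl
      have a := Xc_sum f2 hε.le t1 (hR x hx) hl le_rfl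
      have b := tD_ge f2 hε.le t1 (hR x hx) l
      have c := hx.lo l hl
      have d : Dd N f t x N = 0 := by simp [Dd]
      have e : (0 : ℝ) ≤ l * ε := by positivity
      rw [hQ x hx, hQ x hx, chain_re]
      rw [d] at a
      unfold QQ at c
      linarith
    · obtain ⟨l, hl, c⟩ := hx.hi
      have a := Xc_sum f2 hε.le t1 (hR x hx) (Nat.zero_le l) hl
      have b := tD_ge f2 hε.le t1 (hR x hx) 0
      have e : (l : ℝ) * ε ≤ N * ε := mul_le_mul_of_nonneg_right (by exact_mod_cast hl) hε.le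
      rw [t2 l _ (by linarith [QQ_nonneg x l])] at a
      refine ⟨l, hl, ?_⟩
      rw [hQ x hx, chain_re]
      unfold QQ at c
      simp only [range_zero, sum_empty, Nat.cast_zero] at a
      linarith
  have hne : ∀ x, Sl N g x → Fk N γ N (lf N (chain N f t ε x)) 1 ≠ 0 := fun x hx => by
    obtain ⟨r, hr, er⟩ : ∃ r : ℕ → ℝ, (∀ l, 0 < r l) ∧ ∀ l, lf N (chain N f t ε x) (l + 1) =
        ph (2 * Real.pi * Yc f t x l) * r l := by
      refine ⟨fun l => Nat.casesOn l (Real.sqrt ((N + 1 - QQ (chain N f t ε x) N) / Real.pi))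
        fun j => Real.sqrt (Xc N f t ε x j / Real.pi), fun l => ?_, fun l => ?_⟩
      · cases l with
        | zero => exact Real.sqrt_pos.mpr (div_pos (by linarith [(hS x hx).lt]) Real.pi_pos)
        | succ j => exact Real.sqrt_pos.mpr (div_pos (hX x hx j) Real.pi_pos)
      · cases l with
        | zero => simp [lf, Yc, ph_zero]
        | succ j => exact chain_succ x j
    have h0 : (lf N (chain N f t ε x) 0).re = (x 0).re := chain_re (ε := ε) x
    rw [Fk_succ, h0]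
    refine Uk_ne hγ γ2 (by linarith [hx.ge]) (fun l _ => ?_) fun k hk h c s hc hs hcs => ?_
    · rw [er]
      exact mul_ne_zero (ph_ne_zero _) (by exact_mod_cast (hr l).ne')
    · have a := comb_ne hs hc (by linarith) (hr k)
        (ph_half (B := (xi f t x k).im) (f1 _).2.1 (f1 _).2.2 (hr (k + 1)))
      rw [er, er, Yc_succ, t3 k _ h, one_mul, mul_add, ph_add]
      intro h2
      exact mul_ne_zero (ph_ne_zero (2 * Real.pi * Yc f t x k)) a (by linear_combination h2)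
  refine ⟨(pr ∘ Fk N γ N ∘ lf N) ∘ chain N f t ε ∘ G, fun z hz => ⟨?_, ?_⟩,
    fun z z' hz hz' h k l e => ?_⟩
  · have s := g4 z hz
    exact Good.comp (Ψ := chain N f t ε ∘ G) (good_wrap (z := chain N f t ε (G z))
      (by linarith [(hS _ s).lt]) (hne _ s))
      ((good_chain hf tc fun j _ => hX _ s j).comp (g1 z))
  · have s := g4 z hz
    have a := QQ_pr (N := N) (hne _ s)
    rw [tot_Fk, tot_lf (by linarith [(hS _ s).lt])] at a
    have b := mu_pos (hne _ s)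
    show QQ (pr (Fk N γ N (lf N (chain N f t ε (G z))))) N < N + 1
    linarith
  · have s := g4 z hz
    have s' := g4 z' hz'
    have e' : Fk N γ N (lf N (chain N f t ε (G z'))) 0 - Fk N γ N (lf N (chain N f t ε (G z))) 0 =
        (k : ℂ) + (l : ℂ) * Complex.I := e
    have e1 := congrArg Complex.re e'
    have e2 := congrArg Complex.im e'
    simp only [Complex.sub_re, Complex.sub_im, Complex.add_re, Complex.add_im, Fk_re,
      Complex.intCast_re, Complex.intCast_im, Complex.mul_re, Complex.mul_im, Complex.I_re,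
      Complex.I_im, Complex.ofReal_re, Complex.ofReal_im, mul_zero, mul_one, sub_zero, add_zero,
      zero_add] at e1 e2
    obtain ⟨a1, a2, a3⟩ := wrap_inj hγ (by linarith) (hS _ s) (hS _ s') (hne _ s) (hne _ s') h
      (k := k) (by
        have : (chain N f t ε (G z') 0).re - (chain N f t ε (G z) 0).re = k := e1
        linarith)
    rw [chain_re, chain_re] at a1
    obtain ⟨b1, b2⟩ := chain_inj hf f1 (fun j _ => hX _ s j) (fun j _ => hX _ s' j) a1 a2
    refine ⟨abs_lt.mpr ⟨by linarith [(g3 z).2, (g3 z').1], by linarith [(g3 z).1, (g3 z').2]⟩,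
      fun l0 => g2 z z' fun j hj => ?_⟩
    cases j with
    | zero => exact Complex.ext a1 (by linarith)
    | succ j => exact b1 j (by omega)

end Pool.Agent.Lib.BallT6
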