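import Mathlib

/-! A discrete lemma: a distorted tent whose translates have a bounded sum. -/

open Finset

namespace Pool.Agent.Lib.BallPT

/-- Counting function of a finite sequence of integers modulo `M`. -/
def cnt (M : ℤ) (n : ℕ) (y : ℕ → ℤ) (j : ℤ) : ℤ := ∑ i ∈ range n, (j - y i) / M

theorem hermite {n : ℕ} (hn : 0 < n) (T : ℤ) : ∑ i ∈ range n, (T + i) / (n : ℤ) = T := by
  have hn' : (0 : ℤ) < n := by exact_mod_cast hn
  have step : ∀ T : ℤ, ∑ i ∈ range n, (T + 1 + i) / (n : ℤ) =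
      ∑ i ∈ range n, (T + i) / (n : ℤ) + 1 := by
    intro T
    have h1 := sum_range_succ (fun i : ℕ => (T + i) / (n : ℤ)) n
    have h2 := sum_range_succ' (fun i : ℕ => (T + i) / (n : ℤ)) n
    have h3 : (T + n) / (n : ℤ) = T / n + 1 := Int.add_ediv_of_dvd_right (dvd_refl _) |>.trans
      (by rw [Int.ediv_self hn'.ne'])
    have h4 : ∑ i ∈ range n, (T + 1 + i) / (n : ℤ) =
        ∑ i ∈ range n, (T + ((i + 1 : ℕ) : ℤ)) / (n : ℤ) :=
      sum_congr rfl fun i _ => by push_cast; ring_nf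
    simp only [Nat.cast_zero, add_zero] at h2
    omega
  induction T using Int.induction_on with
  | zero =>
    refine sum_eq_zero fun i hi => ?_
    have := mem_range.mp hi
    exact Int.ediv_eq_zero_of_lt (by omega) (by omega)
  | succ k ih => rw [step, ih]
  | pred k ih =>
    have := step (-(k : ℤ) - 1)
    rw [show -(k : ℤ) - 1 + 1 = -k by ring, ih] at this
    omega

theorem cnt_shift {M : ℤ} (hM : 0 < M) (n : ℕ) (y : ℕ → ℤ) (j k : ℤ) :
    cnt M n y (j + k * M) = cnt M n y j + k * n := by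
  unfold cnt
  have : ∀ i ∈ range n, (j + k * M - y i) / M = (j - y i) / M + k := fun i _ => by
    rw [show j + k * M - y i = j - y i + k * M by ring, Int.add_mul_ediv_right _ _ hM.ne']
  rw [sum_congr rfl this, sum_add_distrib]
  simp [mul_comm]

theorem cnt_mono {M : ℤ} (hM : 0 < M) (n : ℕ) {y y' : ℕ → ℤ} {j j' : ℤ}
    (h : ∀ i < n, y' i ≤ y i) (hj : j ≤ j') : cnt M n y j ≤ cnt M n y' j' :=
  sum_le_sum fun i hi => Int.ediv_le_ediv hM (by have := h i (mem_range.mp hi); omega)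

theorem cnt_sum {M : ℕ} (hM : 0 < M) (n : ℕ) (y : ℕ → ℤ) :
    ∑ j ∈ range M, cnt M n y j = -∑ i ∈ range n, y i := by
  unfold cnt
  rw [sum_comm, ← sum_neg_distrib]
  refine sum_congr rfl fun i _ => ?_
  rw [← hermite hM (-y i)]
  exact sum_congr rfl fun j _ => by ring_nf

/-- A monotone function that grows by `n` over each period has a generalised inverse. -/
theorem exists_inv {M : ℤ} {n : ℕ} (hn : 0 < n) {T : ℤ → ℤ} (hT : Monotone T)
    (hp : ∀ j k, T (j + k * M) = T j + k * n) :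
    ∃ N : ℕ → ℤ, ∀ (i : ℕ) (j : ℤ), N i ≤ j ↔ -(i : ℤ) ≤ T j := by
  have hn' : (1 : ℤ) ≤ n := by exact_mod_cast hn
  have : ∀ i : ℕ, ∃ x : ℤ, ∀ j, x ≤ j ↔ -(i : ℤ) ≤ T j := by
    intro i
    obtain ⟨x, hx, hm⟩ := Int.exists_least_of_bdd (P := fun j => -(i : ℤ) ≤ T j)
      ⟨0 + (-(|T 0| + i + 1)) * M, fun z hz => by
        by_contra h
        have h1 := hT (not_le.mp h).le
        rw [hp] at h1
        have := le_abs_self (T 0)
        have := abs_nonneg (T 0)
        nlinarith⟩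
      ⟨0 + |T 0| * M, by
        rw [hp]
        have := neg_abs_le (T 0)
        have := abs_nonneg (T 0)
        nlinarith⟩
    exact ⟨x, fun j => ⟨fun h => hx.trans (hT h), hm j⟩⟩
  choose N hN using this
  exact ⟨N, hN⟩

theorem cnt_inv {M : ℤ} (hM : 0 < M) {n : ℕ} (hn : 0 < n) {T : ℤ → ℤ}
    (hp : ∀ j k, T (j + k * M) = T j + k * n) {N : ℕ → ℤ}
    (hN : ∀ (i : ℕ) (j : ℤ), N i ≤ j ↔ -(i : ℤ) ≤ T j) (j : ℤ) : cnt M n N j = T j := by
  have hn' : (0 : ℤ) < n := by exact_mod_cast hn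
  rw [← hermite hn (T j)]
  refine sum_congr rfl fun i _ => ?_
  refine eq_of_forall_le_iff fun k => ?_
  rw [Int.le_ediv_iff_mul_le hM, Int.le_ediv_iff_mul_le hn']
  have h1 := hN i (j + (-k) * M)
  rw [hp] at h1
  constructor
  · intro h
    have := h1.mp (by linarith)
    linarith
  · intro h
    have := h1.mpr (by linarith)
    linarith

/-- Admissible left end points. -/
def Adm (L : ℕ → ℤ) : Prop := ∀ i, L (i + 1) ≤ L i ∧ L i - 1 ≤ L (i + 1)

theorem ivt {R : ℕ → ℤ} (h : ∀ i, R (i + 1) ≤ R i + 1) (m : ℕ) {v : ℤ} (h0 : R 0 ≤ v)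
    (h1 : v ≤ R m) : ∃ i ≤ m, R i = v := by
  induction m with
  | zero => exact ⟨0, le_rfl, le_antisymm h0 h1⟩
  | succ m ih =>
    by_cases hv : v ≤ R m
    · obtain ⟨i, hi, e⟩ := ih hv
      exact ⟨i, by omega, e⟩
    · exact ⟨m + 1, le_rfl, by have := h m; omega⟩

theorem cnt_strict {M n : ℕ} (hM : 0 < M) (hn : 2 * M ≤ n) {L : ℕ → ℤ} (hL : Adm L)
    (hb : ∀ i < n, 0 ≤ L i ∧ L i ≤ M) (j : ℤ) :
    cnt M n (fun i => L i + i) j + 1 ≤ cnt M n (fun i => L i + i) (j + 1) := by
  have hM' : (0 : ℤ) < M := by exact_mod_cast hM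
  have h0 := hb 0 (by omega)
  have h1 := hb (n - 1) (by omega)
  have e1 := Int.emod_nonneg (j + 1 - L 0) hM'.ne'
  have e2 := Int.emod_lt_of_pos (j + 1 - L 0) hM'
  have e3 := Int.mul_ediv_add_emod (j + 1 - L 0) M
  obtain ⟨i, hi, e⟩ := ivt (R := fun i => L i + i) (fun i => by
    have := (hL i).1; push_cast; omega) (n - 1) (v := L 0 + (j + 1 - L 0) % M)
    (by simp only [Nat.cast_zero]; omega) (by
      have : ((n - 1 : ℕ) : ℤ) = n - 1 := by omega
      omega)
  refine Int.add_one_le_iff.mpr (sum_lt_sum (fun k _ => Int.ediv_le_ediv hM' (by omega))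
    ⟨i, mem_range.mpr (by omega), ?_⟩)
  have e4 : j + 1 - (L i + i) = M * ((j + 1 - L 0) / M) := by omega
  rw [e4, Int.mul_ediv_cancel_left _ hM'.ne', Int.ediv_lt_iff_lt_mul hM']
  linarith

theorem big_case {M n : ℕ} (hM : 0 < M) (hn : 2 * M ≤ n) {α : ℤ}
    (hα : ∑ i ∈ range n, (i : ℤ) < α * M) : ∃ L : ℕ → ℤ, Adm L ∧
      ∀ j, cnt M n L j ≤ cnt M n (fun i => L i + i) j + α := by
  have hM' : (0 : ℤ) < M := by exact_mod_cast hM
  have hn0 : 0 < n := by omega
  have hp : ∀ (L : ℕ → ℤ) (j k : ℤ), cnt M n (fun i => L i + i) (j + k * M) + α =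
      cnt M n (fun i => L i + i) j + α + k * n := fun L j k => by rw [cnt_shift hM']; ring
  have ex : ∀ L : ℕ → ℤ, ∃ N : ℕ → ℤ, ∀ (i : ℕ) (j : ℤ),
      N i ≤ j ↔ -(i : ℤ) ≤ cnt M n (fun i => L i + i) j + α := fun L =>
    exists_inv hn0 (T := fun j => cnt M n (fun i => L i + i) j + α)
      (fun j j' h => by have := cnt_mono hM' n (y := fun i => L i + i) (fun _ _ => le_rfl) h
                        simpa using this) (hp L)
  choose N hN using ex
  have hc : ∀ L j, cnt M n (N L) j = cnt M n (fun i => L i + i) j + α := fun L j =>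
    cnt_inv hM' hn0 (T := fun j => cnt M n (fun i => L i + i) j + α) (hp L) (hN L) j
  have drift : ∀ L : ℕ → ℤ, ∑ i ∈ range n, N L i < ∑ i ∈ range n, L i := by
    intro L
    have h1 := cnt_sum hM n (N L)
    have h2 := cnt_sum hM n (fun i => L i + i)
    rw [sum_congr rfl fun (j : ℕ) _ => hc L j, sum_add_distrib, h2, sum_add_distrib] at h1
    simp only [sum_const, card_range, nsmul_eq_mul] at h1
    linarith
  have anti : ∀ L i i', i ≤ i' → N L i' ≤ N L i := fun L i i' h => by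
    have := (hN L i _).mp le_rfl
    exact (hN L i' _).mpr (by omega)
  have drop : ∀ L, N L 0 ≤ N L n + M := fun L => by
    have h1 := (hN L n _).mp le_rfl
    have h2 := hp L (N L n) 1
    refine (hN L 0 _).mpr ?_
    rw [one_mul, one_mul] at h2
    omega
  have mono : ∀ L L' : ℕ → ℤ, (∀ i < n, L i ≤ L' i) → ∀ i, N L i ≤ N L' i := by
    intro L L' h i
    have h1 := (hN L' i _).mp le_rfl
    have h2 := cnt_mono hM' n (y := fun i => L' i + i) (y' := fun i => L i + i)
      (fun i hi => by have := h i hi; omega) (le_refl (N L' i))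
    exact (hN L i _).mpr (by omega)
  obtain ⟨s, ⟨L, hs, hA, hb, hle⟩, hmax⟩ := Int.exists_greatest_of_bdd
    (P := fun s => ∃ L : ℕ → ℤ, s = ∑ i ∈ range n, L i ∧ Adm L ∧
      (∀ i < n, 0 ≤ L i ∧ L i ≤ M) ∧ ∀ i < n, L i ≤ max 0 (N L i))
    ⟨∑ _i ∈ range n, (M : ℤ), by
      rintro s ⟨L, rfl, -, hb, -⟩
      exact sum_le_sum fun i hi => (hb i (mem_range.mp hi)).2⟩
    ⟨_, fun _ => 0, rfl, fun i => by simp, fun i _ => by simp, fun i _ => le_max_left _ _⟩
  have hneg : ∃ i < n, N L i < 0 := by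
    by_contra h
    push Not at h
    have := sum_le_sum (s := range n) (f := L) (g := N L) fun i hi => by
      have h1 := hle i (mem_range.mp hi)
      rwa [max_eq_right (h i (mem_range.mp hi))] at h1
    have := drift L
    omega
  obtain ⟨i0, hi0, hneg⟩ := hneg
  have step : ∀ i, N L i - 1 ≤ N L (i + 1) := fun i => by
    have h1 := (hN L (i + 1) _).mp le_rfl
    have h2 := cnt_strict hM hn hA hb (N L (i + 1))
    have := (hN L i (N L (i + 1) + 1)).mpr (by push_cast at h1; omega)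
    omega
  have key := hmax (∑ i ∈ range n, max 0 (N L i)) ⟨fun i => max 0 (N L i), rfl, fun i => by
      have := anti L i (i + 1) (by omega)
      have := step i
      simp only
      omega, fun i _ => by
      have := anti L 0 i (by omega)
      have := anti L i0 n (by omega)
      have := drop L
      simp only
      omega, fun i hi => max_le_max le_rfl (mono _ _ hle i)⟩
  have eqs : ∀ i < n, N L i ≤ L i := by
    by_contra h
    push Not at h
    obtain ⟨i, hi, h⟩ := h
    have := sum_lt_sum (s := range n) (f := L) (g := fun i => max 0 (N L i))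
      (fun i hi => hle i (mem_range.mp hi)) ⟨i, mem_range.mpr hi, lt_max_of_lt_right h⟩
    omega
  exact ⟨L, hA, fun j => by rw [← hc]; exact cnt_mono hM' n eqs le_rfl⟩

theorem sum_ind (n : ℕ) (c : ℤ) (hc : 0 ≤ c) :
    ∑ i ∈ range n, (if c ≤ (i : ℤ) then (1 : ℤ) else 0) = max 0 (n - c) := by
  induction n with
  | zero => simp [hc]
  | succ n ih => rw [sum_range_succ, ih]; push_cast; split_ifs <;> omega

theorem small_case {M n : ℕ} (hM : 0 < M) (hn : n ≤ 2 * M) : ∃ L : ℕ → ℤ, Adm L ∧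
      ∀ j, cnt M n L j ≤ cnt M n (fun i => L i + i) j + n := by
  have hM' : (0 : ℤ) < M := by exact_mod_cast hM
  refine ⟨fun i => -((i : ℤ) / 2), fun i => by push_cast; omega, fun j => ?_⟩
  have e1 := Int.emod_nonneg j hM'.ne'
  have e2 := Int.emod_lt_of_pos j hM'
  have e3 : j = j % M + j / M * M := by have := Int.mul_ediv_add_emod j M; linarith
  rw [e3, cnt_shift hM', cnt_shift hM']
  generalize j % M = t at e1 e2
  have h1 : cnt M n (fun i => -((i : ℤ) / 2)) t ≤
      ∑ i ∈ range n, (if 2 * (M - t) ≤ (i : ℤ) then (1 : ℤ) else 0) := by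
    refine sum_le_sum fun i hi => ?_
    have := mem_range.mp hi
    refine Int.lt_add_one_iff.mp ((Int.ediv_lt_iff_lt_mul hM').mpr ?_)
    beta_reduce
    split_ifs <;> omega
  have h2 : -∑ i ∈ range n, (if 2 * t + 1 ≤ (i : ℤ) then (1 : ℤ) else 0) ≤
      cnt M n (fun i => -((i : ℤ) / 2) + i) t := by
    rw [← sum_neg_distrib]
    refine sum_le_sum fun i hi => ?_
    have := mem_range.mp hi
    refine (Int.le_ediv_iff_mul_le hM').mpr ?_
    beta_reduce
    split_ifs <;> omega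
  rw [sum_ind _ _ (by omega)] at h1 h2
  beta_reduce
  omega

theorem exists_profile {M n : ℕ} (hM : 0 < M) {α : ℤ} (h1 : (n : ℤ) ≤ α)
    (h2 : (n : ℤ) ^ 2 < 2 * α * M) : ∃ L : ℕ → ℤ, Adm L ∧
      ∀ j, cnt M n L j ≤ cnt M n (fun i => L i + i) j + α := by
  rcases le_total n (2 * M) with h | h
  · obtain ⟨L, a, b⟩ := small_case hM h
    exact ⟨L, a, fun j => by have := b j; omega⟩
  · refine big_case hM h ?_
    have : ∀ n : ℕ, 2 * ∑ i ∈ range n, (i : ℤ) ≤ (n : ℤ) ^ 2 - n := fun n => by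
      induction n with
      | zero => simp
      | succ n ih => rw [sum_range_succ]; push_cast; nlinarith
    have := this n
    nlinarith

end Pool.Agent.Lib.BallPT
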