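import Pool.Agent.Lib.MP_d7b9cc_gt.H1

/-! Smooth interpolation of integer sequences and the smooth profile. -/

open scoped ContDiff
open Finset Filter Topology

namespace Pool.Agent.Lib.BallPT

/-- Smooth interpolation of a sequence, flat at the integers. -/
noncomputable def interp (A : ℤ → ℝ) (t : ℝ) : ℝ :=
  A ⌊t⌋ + (A (⌊t⌋ + 1) - A ⌊t⌋) * Real.smoothTransition (t - ⌊t⌋)

theorem interp_local (A : ℤ → ℝ) (j : ℤ) {t₀ : ℝ} (h1 : (j : ℝ) - 1 < t₀) (h2 : t₀ < j + 1) :
    interp A =ᶠ[𝓝 t₀] fun t => A (j - 1) + (A j - A (j - 1)) * Real.smoothTransition (t - (j - 1)) +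
      (A (j + 1) - A j) * Real.smoothTransition (t - j) := by
  filter_upwards [Ioo_mem_nhds h1 h2] with t ht
  unfold interp
  rcases lt_or_ge t j with h | h
  · have e : ⌊t⌋ = j - 1 := Int.floor_eq_iff.mpr ⟨by push_cast; linarith [ht.1], by
      push_cast; linarith⟩
    rw [e, Real.smoothTransition.zero_of_nonpos (x := t - j) (by linarith), sub_add_cancel]
    push_cast
    ring
  · have e : ⌊t⌋ = j := Int.floor_eq_iff.mpr ⟨h, ht.2⟩
    rw [e, Real.smoothTransition.one_of_one_le (x := t - (j - 1)) (by linarith)]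
    ring

theorem contDiff_interp (A : ℤ → ℝ) : ContDiff ℝ ∞ (interp A) := by
  refine contDiff_iff_contDiffAt.mpr fun t => ?_
  refine ContDiffAt.congr_of_eventuallyEq ?_ (interp_local A ⌊t⌋
    (by linarith [Int.floor_le t]) (Int.lt_floor_add_one t))
  have h : ∀ c : ℝ, ContDiff ℝ ∞ fun t : ℝ => Real.smoothTransition (t - c) := fun c =>
    Real.smoothTransition.contDiff.comp (contDiff_id.sub contDiff_const)
  exact ((contDiff_const.add (contDiff_const.mul (h _))).add
    (contDiff_const.mul (h _))).contDiffAt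

theorem hasDerivAt_interp (A : ℤ → ℝ) (j : ℤ) : HasDerivAt (interp A) 0 j := by
  have d : ∀ x : ℝ, HasDerivAt Real.smoothTransition (deriv Real.smoothTransition x) x := fun x =>
    ((Real.smoothTransition.contDiff (n := 1)).differentiable (by simp) x).hasDerivAt
  have d0 : deriv Real.smoothTransition 0 = 0 := IsLocalMin.deriv_eq_zero
    (Eventually.of_forall fun x => by
      rw [Real.smoothTransition.zero]; exact Real.smoothTransition.nonneg x)
  have d1 : deriv Real.smoothTransition 1 = 0 := IsLocalMax.deriv_eq_zero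
    (Eventually.of_forall fun x => by
      rw [Real.smoothTransition.one]; exact Real.smoothTransition.le_one x)
  have a0 : HasDerivAt (fun t : ℝ => Real.smoothTransition (t - j)) 0 j := by
    have := d ((j : ℝ) - j)
    rw [sub_self, d0, ← sub_self (j : ℝ)] at this
    simpa using this.comp_sub_const (j : ℝ) (j : ℝ)
  have a1 : HasDerivAt (fun t : ℝ => Real.smoothTransition (t - (j - 1))) 0 j := by
    have := d 1
    rw [d1, show (1 : ℝ) = j - (j - 1) by ring] at this
    exact this.comp_sub_const (j : ℝ) _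
  refine HasDerivAt.congr_of_eventuallyEq ?_ (interp_local A j (by linarith) (by linarith))
  have := ((a1.const_mul (A j - A (j - 1))).const_add (A (j - 1))).fun_add
    (a0.const_mul (A (j + 1) - A j))
  rwa [mul_zero, mul_zero, add_zero] at this

theorem interp_shift (A : ℤ → ℝ) (t : ℝ) (k : ℤ) :
    interp A (t + k) = interp (fun j => A (j + k)) t := by
  unfold interp
  rw [Int.floor_add_intCast, add_right_comm ⌊t⌋ k 1]
  push_cast
  ring_nf

theorem interp_le {A B : ℤ → ℝ} {t c : ℝ} (h0 : A ⌊t⌋ + c ≤ B ⌊t⌋)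
    (h1 : A (⌊t⌋ + 1) + c ≤ B (⌊t⌋ + 1)) : interp A t + c ≤ interp B t := by
  unfold interp
  have a := Real.smoothTransition.nonneg (t - ⌊t⌋)
  have b := Real.smoothTransition.le_one (t - ⌊t⌋)
  nlinarith [mul_nonneg a (sub_nonneg.mpr h1), mul_nonneg (sub_nonneg.mpr b) (sub_nonneg.mpr h0)]

theorem interp_const (c t : ℝ) : interp (fun _ => c) t = c := by simp [interp]

theorem Adm.nested {L : ℕ → ℤ} (h : Adm L) {i k : ℕ} (hk : i ≤ k) :
    L k ≤ L i ∧ L i + i ≤ L k + k := by
  induction k, hk using Nat.le_induction with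
  | base => exact ⟨le_rfl, le_rfl⟩
  | succ k _ ih => have := h k; push_cast; omega

/-- Total length of the rows below a given row. -/
def below (M : ℤ) (n : ℕ) (L : ℕ → ℤ) (j : ℤ) : ℤ :=
  ∑ i ∈ range n, (max 0 ((j - L i) / M) - max 0 ((j - (L i + i)) / M))

theorem below_nonneg {M : ℤ} (hM : 0 < M) (n : ℕ) (L : ℕ → ℤ) (j : ℤ) : 0 ≤ below M n L j :=
  sum_nonneg fun i _ => by
    have := Int.ediv_le_ediv hM (show j - (L i + i) ≤ j - L i by omega)
    omega

theorem below_le {M : ℤ} (hM : 0 < M) (n : ℕ) (L : ℕ → ℤ) (j : ℤ) :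
    below M n L j ≤ cnt M n L j - cnt M n (fun i => L i + i) j := by
  unfold cnt
  rw [← sum_sub_distrib]
  refine sum_le_sum fun i _ => ?_
  have := Int.ediv_le_ediv hM (show j - (L i + i) ≤ j - L i by omega)
  beta_reduce
  omega

theorem below_step {M : ℤ} (hM : 0 < M) (n : ℕ) (L : ℕ → ℤ) (j : ℤ) :
    below M n L (j + M) - below M n L j =
      ∑ i ∈ range n, if L i ≤ j ∧ j < L i + i then (1 : ℤ) else 0 := by
  unfold below
  rw [← sum_sub_distrib]
  refine sum_congr rfl fun i _ => ?_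
  have e : ∀ y : ℤ, (j + M - y) / M = (j - y) / M + 1 := fun y => by
    rw [show j + M - y = j - y + 1 * M by ring, Int.add_mul_ediv_right _ _ hM.ne']
  have s : ∀ y : ℤ, 0 ≤ (j - y) / M ↔ y ≤ j := fun y => by
    rw [Int.le_ediv_iff_mul_le hM]; omega
  have s1 := s (L i)
  have s2 := s (L i + i)
  rw [e, e]
  split_ifs <;> omega

theorem below_mono {M : ℤ} (hM : 0 < M) (n : ℕ) (L : ℕ → ℤ) (j : ℤ) :
    below M n L j ≤ below M n L (j + M) := by
  have := below_step hM n L j
  have : 0 ≤ ∑ i ∈ range n, if L i ≤ j ∧ j < L i + i then (1 : ℤ) else 0 :=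
    sum_nonneg fun i _ => by split_ifs <;> omega
  omega

theorem below_big {M : ℤ} (hM : 0 < M) (n : ℕ) {L : ℕ → ℤ} (hL : Adm L) {j : ℤ} {k : ℕ}
    (h1 : L k ≤ j) (h2 : j < L k + k) : below M n L j + (n - k) ≤ below M n L (j + M) := by
  have a := below_step hM n L j
  have b := sum_ind n k (by omega)
  have c : ∑ i ∈ range n, (if (k : ℤ) ≤ (i : ℤ) then (1 : ℤ) else 0) ≤
      ∑ i ∈ range n, if L i ≤ j ∧ j < L i + i then (1 : ℤ) else 0 := by
    refine sum_le_sum fun i _ => ?_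
    by_cases h : k ≤ i
    · have := hL.nested h
      split_ifs <;> omega
    · split_ifs <;> omega
  omega

theorem exists_mesh {a b ρ : ℝ} (h1 : ρ < a) (h2 : ρ ^ 2 < 2 * a * b) :
    ∃ M : ℕ, 0 < M ∧ ρ + 10 * (b / M) < a ∧ (ρ + 9 * (b / M)) ^ 2 < 2 * (a - b / M) * b := by
  have t : Tendsto (fun M : ℕ => b / M) atTop (𝓝 0) := tendsto_const_div_atTop_nhds_zero_nat b
  have c1 : Tendsto (fun M : ℕ => ρ + 10 * (b / M)) atTop (𝓝 (ρ + 10 * 0)) :=
    (t.const_mul 10).const_add ρ
  have c2 : Tendsto (fun M : ℕ => (ρ + 9 * (b / M)) ^ 2) atTop (𝓝 ((ρ + 9 * 0) ^ 2)) :=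
    ((t.const_mul 9).const_add ρ).pow 2
  have c3 : Tendsto (fun M : ℕ => 2 * (a - b / M) * b) atTop (𝓝 (2 * (a - 0) * b)) :=
    ((t.const_sub a).const_mul 2).mul_const b
  obtain ⟨M, x, y, z⟩ := ((eventually_gt_atTop 0).and ((c1.eventually_lt_const (by simpa)).and
    (c2.eventually_lt c3 (by simpa)))).exists
  exact ⟨M, x, y, z⟩

theorem exists_data {a b ρ : ℝ} (hb : 0 < b) (hρ : 0 ≤ ρ) (h1 : ρ < a) (h2 : ρ ^ 2 < 2 * a * b) :
    ∃ ε : ℝ, 0 < ε ∧ ∃ f A : ℝ → ℝ, ContDiff ℝ ∞ f ∧ ContDiff ℝ ∞ A ∧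
      (∀ k : ℤ, deriv A (k * b) = 0) ∧ (∀ X, 0 ≤ A X ∧ A X ≤ a) ∧ (∀ X, A X ≤ A (X + b)) ∧
      ∀ m X, 0 ≤ m → m ≤ ρ → |X| ≤ (ρ - m) / 2 + ε →
        A (X + f m) + (m + 2 * ε) < A (X + f m + b) := by
  obtain ⟨M, hM, m1, m2⟩ := exists_mesh h1 h2
  have hM' : (0 : ℤ) < M := by exact_mod_cast hM
  have hMr : (0 : ℝ) < M := by exact_mod_cast hM
  obtain ⟨h, hh⟩ : ∃ h, h = b / M := ⟨_, rfl⟩
  rw [← hh] at m1 m2
  have h0 : 0 < h := by rw [hh]; positivity
  have hbM : b = M * h := by rw [hh]; field_simp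
  obtain ⟨K, hK⟩ : ∃ K, K = ⌊ρ / h⌋₊ := ⟨_, rfl⟩
  have k1 : (K : ℝ) * h ≤ ρ := by
    rw [← le_div_iff₀ h0, hK]; exact Nat.floor_le (by positivity)
  have k2 : ρ < (K + 1) * h := by
    rw [← div_lt_iff₀ h0, hK]; exact Nat.lt_floor_add_one _
  have a1 : (⌊a / h⌋ : ℝ) * h ≤ a := by rw [← le_div_iff₀ h0]; exact Int.floor_le _
  have a2 : a < (⌊a / h⌋ + 1) * h := by rw [← div_lt_iff₀ h0]; exact Int.lt_floor_add_one _
  obtain ⟨L, hL, hc⟩ := exists_profile (n := K + 9) (α := ⌊a / h⌋) hM (by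
    have : ((K + 9 : ℕ) : ℝ) < ⌊a / h⌋ := by
      push_cast
      exact lt_of_mul_lt_mul_right (by linarith) h0.le
    exact_mod_cast this.le) (by
    have : ((K + 9 : ℕ) : ℝ) ^ 2 < 2 * ⌊a / h⌋ * M := by
      push_cast
      have x1 : (((K : ℝ) + 9) * h) ^ 2 ≤ (ρ + 9 * h) ^ 2 := by
        have : 0 ≤ ((K : ℝ) + 9) * h := by positivity
        gcongr
        linarith
      have x2 : 2 * (a - h) * b ≤ 2 * (⌊a / h⌋ * h) * b := by gcongr; linarith
      refine lt_of_mul_lt_mul_right (a := h ^ 2) ?_ (by positivity)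
      rw [hbM] at x2 m2
      nlinarith
    exact_mod_cast this)
  let D : ℤ → ℝ := fun j => below M (K + 9) L j
  let C : ℤ → ℝ := fun q => L ((K : ℤ) + 6 - q).toNat + (((K : ℤ) + 6 - q).toNat : ℝ) / 2
  have sh : ∀ X, interp D ((X + b) / h) = interp (fun j => D (j + M)) (X / h) := fun X => by
    rw [← interp_shift, hbM, add_div, mul_div_cancel_right₀ _ h0.ne']
    rfl
  have sm : ∀ B : ℤ → ℝ, ContDiff ℝ ∞ fun X : ℝ => h * interp B (X / h) := fun B =>
    contDiff_const.mul ((contDiff_interp B).comp (contDiff_id.div_const h))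
  refine ⟨h, h0, fun m => h * interp C (m / h), fun X => h * interp D (X / h), sm C, sm D,
    fun k => ?_, fun X => ⟨?_, ?_⟩, fun X => ?_, fun m X p0 p1 p2 => ?_⟩
  · have d := hasDerivAt_interp D (k * M)
    have e : ((k * M : ℤ) : ℝ) = k * b / h := by rw [hbM]; push_cast; field_simp
    rw [e] at d
    have d2 : HasDerivAt (fun X : ℝ => interp D (X / h)) (0 * (1 / h)) (k * b) :=
      HasDerivAt.comp (h := fun X : ℝ => X / h) (k * b : ℝ) d ((hasDerivAt_id' _).div_const h)
    simpa using (d2.const_mul h).deriv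
  · have := interp_le (A := fun _ => 0) (B := D) (t := X / h) (c := 0)
      (by simpa [D] using below_nonneg hM' _ _ _) (by simpa [D] using below_nonneg hM' _ _ _)
    rw [interp_const, add_zero] at this
    positivity
  · have x : ∀ j, D j + 0 ≤ ⌊a / h⌋ := fun j => by
      have y1 := below_le hM' (K + 9) L j
      have y2 := hc j
      have : below M (K + 9) L j ≤ ⌊a / h⌋ := by omega
      simpa [D] using this
    have := interp_le (A := D) (B := fun _ => ⌊a / h⌋) (t := X / h) (c := 0) (x _) (x _)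
    rw [interp_const, add_zero] at this
    nlinarith
  · have x : ∀ j, D j + 0 ≤ D (j + M) := fun j => by simpa [D] using below_mono hM' _ _ _
    have := interp_le (A := D) (B := fun j => D (j + M)) (t := X / h) (c := 0) (x _) (x _)
    simp only [sh]
    nlinarith
  · obtain ⟨q, hq⟩ : ∃ q : ℕ, (q : ℤ) = ⌊m / h⌋ :=
      ⟨_, Int.toNat_of_nonneg (Int.floor_nonneg.mpr (by positivity))⟩
    have q1 : (q : ℝ) * h ≤ m := by
      rw [← le_div_iff₀ h0]
      have := Int.floor_le (m / h)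
      rwa [← hq] at this
    have q2 : m < (q + 1) * h := by
      rw [← div_lt_iff₀ h0]
      have := Int.lt_floor_add_one (m / h)
      rwa [← hq] at this
    have qK : q < K + 1 := by
      have : (q : ℝ) < K + 1 := lt_of_mul_lt_mul_right (by linarith) h0.le
      exact_mod_cast this
    obtain ⟨i, hi⟩ : ∃ i : ℕ, K + 6 = q + (i + 1) := ⟨K + 5 - q, by omega⟩
    have hir : (K : ℝ) + 6 = q + (i + 1) := by exact_mod_cast hi
    have c0 : C ⌊m / h⌋ = L (i + 1) + ((i : ℝ) + 1) / 2 := by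
      have : ((K : ℤ) + 6 - ⌊m / h⌋).toNat = i + 1 := by omega
      simp only [C, this]; push_cast; ring
    have c1 : C (⌊m / h⌋ + 1) = L i + (i : ℝ) / 2 := by
      have : ((K : ℤ) + 6 - (⌊m / h⌋ + 1)).toNat = i := by omega
      simp only [C, this]
    have l1 : (L (i + 1) : ℝ) ≤ L i := by exact_mod_cast (hL i).1
    have l2 : (L i : ℝ) - 1 ≤ L (i + 1) := by exact_mod_cast (hL i).2
    have u1 := interp_le (A := C) (B := fun _ => L (i + 1) + ((i : ℝ) + 2) / 2) (t := m / h)
      (c := 0) (by rw [c0]; linarith) (by rw [c1]; linarith)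
    have u2 := interp_le (B := C) (A := fun _ => L (i + 1) + (i : ℝ) / 2) (t := m / h)
      (c := 0) (by rw [c0]; linarith) (by rw [c1]; linarith)
    rw [interp_const, add_zero] at u1 u2
    obtain ⟨u, hu⟩ : ∃ u, u = (X + h * interp C (m / h)) / h := ⟨_, rfl⟩
    have hu' : u * h = X + h * interp C (m / h) := by rw [hu]; field_simp
    obtain ⟨p3, p4⟩ := abs_le.mp p2
    have u3 := mul_le_mul_of_nonneg_left u1 h0.le
    have u4 := mul_le_mul_of_nonneg_left u2 h0.le
    have u5 : ((K : ℝ) + 6) * h = (q + (i + 1)) * h := by rw [hir]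
    have w1 : (L (i + 1) : ℝ) + 1 < u := by
      refine lt_of_mul_lt_mul_right ?_ h0.le
      linarith
    have w2 : u + 1 < L (i + 1) + (i + 1) := by
      refine lt_of_mul_lt_mul_right ?_ h0.le
      linarith
    have f1 := Int.floor_le u
    have f2 := Int.lt_floor_add_one u
    have j1 : L (i + 1) ≤ ⌊u⌋ := by
      have : (L (i + 1) : ℝ) < ⌊u⌋ := by linarith
      exact_mod_cast this.le
    have j2 : ⌊u⌋ + 1 < L (i + 1) + (i + 1 : ℕ) := by
      have : (⌊u⌋ : ℝ) + 1 < L (i + 1) + (i + 1 : ℕ) := by push_cast; linarith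
      exact_mod_cast this
    have x : ∀ j, L (i + 1) ≤ j → j < L (i + 1) + (i + 1 : ℕ) → D j + (q + 3) ≤ D (j + M) := by
      intro j y1 y2
      have := below_big hM' (K + 9) hL y1 y2
      have z : below M (K + 9) L j + (q + 3) ≤ below M (K + 9) L (j + M) := by
        push_cast at this; omega
      simp only [D]
      exact_mod_cast z
    have := interp_le (A := D) (B := fun j => D (j + M)) (t := u) (c := q + 3)
      (x _ j1 (by omega)) (x _ (by omega) j2)
    simp only [sh, ← hu]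
    have := mul_le_mul_of_nonneg_left this h0.le
    linarith

end Pool.Agent.Lib.BallPT
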