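import Pool.Agent.Lib.MP_d7b9cc_gt.G2
import Pool.Agent.Lib.MP_d7b9cc_gt.H2

/-! The embedding of the four dimensional ball in a rectangle times a punctured torus. -/

open scoped ContDiff
open Pool.Agent.Lib.BallT6

namespace Pool.Agent.Lib.BallPT

/-- The complex number with the given real and imaginary parts. -/
noncomputable def cx (a b : ℝ) : ℂ := (a : ℂ) + (b : ℂ) * Complex.I

@[simp] theorem cx_re (a b : ℝ) : (cx a b).re = a := by simp [cx]

@[simp] theorem cx_im (a b : ℝ) : (cx a b).im = b := by simp [cx]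

section
variable {E : Type} [NormedAddCommGroup E] [NormedSpace ℝ E] {p : E}

theorem cd_cx {a b : E → ℝ} (ha : ContDiffAt ℝ ∞ a p) (hb : ContDiffAt ℝ ∞ b p) :
    ContDiffAt ℝ ∞ (fun x => cx (a x) (b x)) p :=
  (cd_ofReal ha).add ((cd_ofReal hb).mul contDiffAt_const)

theorem pb_cx {a b : E → ℝ} (ha : ContDiffAt ℝ ∞ a p) (hb : ContDiffAt ℝ ∞ b p) (v w : E) :
    pb (fun x => cx (a x) (b x)) p v w = dv a p v * dv b p w - dv b p v * dv a p w := by
  rw [pb_eq (cd_cx ha hb)]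
  simp only [cx_re, cx_im]

theorem cd_fun {f : ℝ → ℝ} (hf : ContDiff ℝ ∞ f) {a : E → ℝ} (ha : ContDiffAt ℝ ∞ a p) :
    ContDiffAt ℝ ∞ (fun x => f (a x)) p := hf.contDiffAt.comp p ha

theorem dv_fun {f : ℝ → ℝ} (hf : ContDiff ℝ ∞ f) {a : E → ℝ} (ha : ContDiffAt ℝ ∞ a p) (v : E) :
    dv (fun x => f (a x)) p v = deriv f (a p) * dv a p v :=
  dv_comp (hf.differentiable (by simp) _).hasDerivAt ha v

theorem cd_deriv {f : ℝ → ℝ} (hf : ContDiff ℝ ∞ f) : ContDiff ℝ ∞ (deriv f) :=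
  (contDiff_infty_iff_deriv.mp hf).2

/-- The twist that shifts the strip coordinate by a function of the moment coordinate. -/
theorem pb_twist {f : ℝ → ℝ} (hf : ContDiff ℝ ∞ f) {F G : E → ℂ} (hF : ContDiffAt ℝ ∞ F p)
    (hG : ContDiffAt ℝ ∞ G p) (v w : E) :
    pb (fun x => ph (2 * Real.pi * (-1 * (deriv f (mu (F x)) * (G x).im))) * F x) p v w +
      pb (fun x => cx ((G x).re + f (mu (F x))) (G x).im) p v w = pb F p v w + pb G p v w := by
  have h1 := cd_fun (cd_deriv hf) (cd_mu hF)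
  have h2 := h1.mul (cd_im hG)
  rw [pb_phase (f := fun x => -1 * (deriv f (mu (F x)) * (G x).im)) (contDiffAt_const.mul h2) hF,
    pb_cx ((cd_re hG).add (cd_fun hf (cd_mu hF))) (cd_im hG), pb_eq hG]
  simp only [dv_const_mul _ h2, dv_mul h1 (cd_im hG), dv_fun (cd_deriv hf) (cd_mu hF),
    dv_add (cd_re hG) (cd_fun hf (cd_mu hF)), dv_fun hf (cd_mu hF)]
  ring

/-- The shear of the first strip by a function of the position in the second strip. -/
theorem pb_shear {P : ℝ → ℝ} (hP : ContDiff ℝ ∞ P) {F G : E → ℂ} (hF : ContDiffAt ℝ ∞ F p)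
    (hG : ContDiffAt ℝ ∞ G p) (v w : E) :
    pb (fun x => cx ((F x).re + P (G x).re) (F x).im) p v w +
      pb (fun x => cx (G x).re ((G x).im - deriv P (G x).re * (F x).im)) p v w =
      pb F p v w + pb G p v w := by
  have h1 := cd_fun (cd_deriv hP) (cd_re hG)
  have h2 := h1.mul (cd_im hF)
  rw [pb_cx ((cd_re hF).add (cd_fun hP (cd_re hG))) (cd_im hF),
    pb_cx (cd_re hG) ((cd_im hG).sub h2), pb_eq hF, pb_eq hG]
  simp only [dv_sub (cd_im hG) h2, dv_mul h1 (cd_im hF), dv_fun (cd_deriv hP) (cd_re hG),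
    dv_add (cd_re hF) (cd_fun hP (cd_re hG)), dv_fun hP (cd_re hG)]
  ring

end

theorem steps {A : ℝ → ℝ} {b : ℝ} (h : ∀ X, A X ≤ A (X + b)) (X : ℝ) (k : ℕ) :
    A (X + b) ≤ A (X + (k + 1) * b) := by
  induction k with
  | zero => simp
  | succ k ih => refine ih.trans ((h _).trans_eq ?_); push_cast; ring_nf

theorem ball_in {a b ρ : ℝ} (hb : 0 < b) (hρ : 0 ≤ ρ) (h1 : ρ < a) (h2 : ρ ^ 2 < 2 * a * b) :
    ∃ F G : ℂ × ℂ → ℂ, ContDiff ℝ ∞ F ∧ ContDiff ℝ ∞ G ∧
      (∀ p v w, pb F p v w + pb G p v w = om v.1 w.1 + om v.2 w.2) ∧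
      (∀ p, mu p.1 + mu p.2 ≤ ρ → (F p).re ∈ Set.Ioo 0 a ∧ (F p).im ∈ Set.Ioo (0 : ℝ) 1) ∧
      (∀ p (k l : ℤ), G p ≠ k * b + l * Complex.I) ∧
      ∀ p q, mu p.1 + mu p.2 ≤ ρ → mu q.1 + mu q.2 ≤ ρ → F p = F q →
        ∀ k l : ℤ, G q - G p = k * b + l * Complex.I → p = q := by
  obtain ⟨ε, hε, f, A, hf, hA, dA, bA, mA, key⟩ := exists_data hb hρ h1 h2
  obtain ⟨σ, hσ, s1, s2⟩ := exists_strip' ρ hε
  let P : ℝ → ℝ := fun X => (A X + A (X + b)) / 2
  have hA' : ContDiff ℝ ∞ fun X => A (X + b) := hA.comp (contDiff_id.add contDiff_const)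
  have hP : ContDiff ℝ ∞ P := (hA.add hA').div_const 2
  have dP : ∀ k : ℤ, deriv P (k * b) = 0 := fun k => by
    have d1 := (hA.differentiable (by simp) (k * b)).hasDerivAt
    have d2 := (hA'.differentiable (by simp) (k * b)).hasDerivAt
    have e := dA (k + 1)
    rw [deriv_comp_add_const, show (k : ℝ) * b + b = ((k + 1 : ℤ) : ℝ) * b by push_cast; ring,
      e] at d2
    rw [dA] at d1
    exact ((d1.fun_add d2).div_const 2).deriv.trans (by norm_num)
  let Z : ℂ × ℂ → ℂ := fun x =>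
    ph (2 * Real.pi * (-1 * (deriv f (mu x.1) * (σ x.2).im))) * x.1
  let W : ℂ × ℂ → ℂ := fun x => cx ((σ x.2).re + f (mu x.1)) (σ x.2).im
  have c1 : ∀ p : ℂ × ℂ, ContDiffAt ℝ ∞ (fun x : ℂ × ℂ => x.1) p := fun p => contDiffAt_fst
  have c2 : ∀ p : ℂ × ℂ, ContDiffAt ℝ ∞ (fun x : ℂ × ℂ => σ x.2) p := fun p =>
    hσ.smooth.contDiffAt.comp p contDiffAt_snd
  have cZ : ∀ p, ContDiffAt ℝ ∞ Z p := fun p =>
    (cd_ph (contDiffAt_const.mul (contDiffAt_const.mul
      ((cd_fun (cd_deriv hf) (cd_mu (c1 p))).mul (cd_im (c2 p)))))).mul (c1 p)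
  have cW : ∀ p, ContDiffAt ℝ ∞ W p := fun p =>
    cd_cx ((cd_re (c2 p)).add (cd_fun hf (cd_mu (c1 p)))) (cd_im (c2 p))
  have cV : ∀ p, ContDiffAt ℝ ∞ (fun x => σ (Z x)) p := fun p =>
    hσ.smooth.contDiffAt.comp p (cZ p)
  have mZ : ∀ p, mu (Z p) = mu p.1 := fun p => mu_ph_mul _ _
  have row : ∀ p : ℂ × ℂ, mu p.1 + mu p.2 ≤ ρ → A (W p).re < (σ (Z p)).re + P (W p).re ∧
      (σ (Z p)).re + P (W p).re < A ((W p).re + b) := by
    intro p hp
    have n1 := mu_nonneg p.1
    have n2 := mu_nonneg p.2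
    have x := key (mu p.1) (σ p.2).re n1 (by linarith) ((s2 _ (by linarith)).trans (by linarith))
    have y := abs_le.mp (s2 (Z p) (by rw [mZ]; linarith))
    rw [mZ] at y
    simp only [W, P, cx_re]
    constructor <;> linarith [y.1, y.2]
  refine ⟨fun x => cx ((σ (Z x)).re + P (W x).re) (σ (Z x)).im,
    fun x => cx (W x).re ((W x).im - deriv P (W x).re * (σ (Z x)).im),
    contDiff_iff_contDiffAt.mpr fun p => cd_cx ((cd_re (cV p)).add (cd_fun hP (cd_re (cW p))))
      (cd_im (cV p)),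
    contDiff_iff_contDiffAt.mpr fun p => cd_cx (cd_re (cW p)) ((cd_im (cW p)).sub
      ((cd_fun (cd_deriv hP) (cd_re (cW p))).mul (cd_im (cV p)))),
    fun p v w => ?_, fun p hp => ?_, fun p k l h => ?_, fun p q hp hq e k l e' => ?_⟩
  · rw [pb_shear hP (cV p) (cW p), pb_comp hσ.smooth.contDiffAt (hσ.symp _) (cZ p),
      pb_twist hf (c1 p) (c2 p), pb_comp hσ.smooth.contDiffAt (hσ.symp _) contDiffAt_snd]
    simp only [pb, fderiv_fst, fderiv_snd]
    rfl
  · have := row p hp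
    have := (bA (W p).re).1
    have := (bA ((W p).re + b)).2
    simp only [cx_re, cx_im, Set.mem_Ioo]
    exact ⟨⟨by linarith, by linarith⟩, s1 _⟩
  · have r := (cx_re (W p).re _).symm.trans (congrArg Complex.re h)
    have i := (cx_im (W p).re _).symm.trans (congrArg Complex.im h)
    simp only [Complex.add_re, Complex.add_im, Complex.mul_re, Complex.mul_im, Complex.intCast_re,
      Complex.intCast_im, Complex.ofReal_re, Complex.ofReal_im, Complex.I_re, Complex.I_im,
      mul_zero, mul_one, zero_mul, sub_zero, add_zero, zero_add] at r i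
    rw [r, dP, zero_mul, sub_zero] at i
    obtain ⟨y1, y2⟩ := s1 p.2
    simp only [W, cx_im] at i
    rw [i] at y1 y2
    have : (0 : ℤ) < l := by exact_mod_cast y1
    have : l < (1 : ℤ) := by exact_mod_cast y2
    omega
  · have r := congrArg Complex.re e'
    have i := congrArg Complex.im e'
    have r1 := (cx_re _ _).symm.trans ((congrArg Complex.re e).trans (cx_re _ _))
    have i1 := (cx_im _ _).symm.trans ((congrArg Complex.im e).trans (cx_im _ _))
    rw [Complex.sub_re, cx_re (W q).re, cx_re (W p).re] at r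
    rw [Complex.sub_im, cx_im (W q).re, cx_im (W p).re] at i
    simp only [Complex.add_re, Complex.add_im, Complex.mul_re, Complex.mul_im, Complex.intCast_re,
      Complex.intCast_im, Complex.ofReal_re, Complex.ofReal_im, Complex.I_re, Complex.I_im,
      mul_zero, mul_one, zero_mul, sub_zero, add_zero, zero_add] at r i
    obtain ⟨p1, p2⟩ := row p hp
    obtain ⟨q1, q2⟩ := row q hq
    have k0 : k = 0 := by
      rcases lt_trichotomy k 0 with h | h | h
      · obtain ⟨j, rfl⟩ : ∃ j : ℕ, k = -(j + 1) := ⟨(-k - 1).toNat, by omega⟩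
        have := steps mA (W q).re j
        rw [show (W q).re + (j + 1) * b = (W p).re by push_cast at r; linarith] at this
        linarith
      · exact h
      · obtain ⟨j, rfl⟩ : ∃ j : ℕ, k = j + 1 := ⟨(k - 1).toNat, by omega⟩
        have := steps mA (W p).re j
        rw [show (W p).re + (j + 1) * b = (W q).re by push_cast at r; linarith] at this
        linarith
    have x : (W q).re = (W p).re := by rw [k0] at r; simpa [sub_eq_zero] using r
    rw [x] at r1 i
    rw [← i1] at i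
    have y : (σ q.2).im - (σ p.2).im = l := by simp only [W, cx_im] at i; linarith
    obtain ⟨y1, y2⟩ := s1 p.2
    obtain ⟨y3, y4⟩ := s1 q.2
    have l1 : (-1 : ℤ) < l := by exact_mod_cast (by linarith : (-1 : ℝ) < l)
    have l2 : l < (1 : ℤ) := by exact_mod_cast (by linarith : (l : ℝ) < 1)
    have l0 : l = 0 := by omega
    have z : Z p = Z q := hσ.inj (Complex.ext (by linarith) i1)
    have m : mu p.1 = mu q.1 := by rw [← mZ, ← mZ, z]
    have y' : (σ p.2).im = (σ q.2).im := by rw [l0] at y; push_cast at y; linarith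
    simp only [W, cx_re, m] at x
    have s : p.2 = q.2 := hσ.inj (Complex.ext (by linarith) y')
    simp only [Z, m, s] at z
    exact Prod.ext (mul_left_cancel₀ (ph_ne_zero _) z) s

end Pool.Agent.Lib.BallPT
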