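import Pool.Agent.Lib.MP_d7b9cc_gt.H2

/-! A monotone stacking function for the side flaps and its generalised inverses. -/

open Finset

namespace Pool.Agent.Lib.BallPT

/-- Number of intervals that contain `j`. -/
def len (n : ℕ) (L : ℕ → ℤ) (j : ℤ) : ℤ :=
  ∑ i ∈ range n, if L i ≤ j ∧ j < L i + i then (1 : ℤ) else 0

theorem below_left {M : ℤ} (hM : 0 < M) (n : ℕ) {L : ℕ → ℤ} (hL : Adm L) (h1 : L 1 = 0) {j j' : ℤ}
    (h : j ≤ j') (h' : j' ≤ M) : below M n L j ≤ below M n L j' := by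
  refine sum_le_sum fun i _ => ?_
  rcases Nat.eq_zero_or_pos i with rfl | hi
  · simp
  · have x := hL.nested (show 1 ≤ i from hi)
    have y1 := Int.ediv_le_ediv hM (show j - L i ≤ j' - L i by omega)
    have y2 : (j' - (L i + i)) / M < 1 := (Int.ediv_lt_iff_lt_mul hM).mpr (by
      push_cast at x; omega)
    omega

theorem len_right (n : ℕ) {L : ℕ → ℤ} (hL : Adm L) (h1 : L 1 = 0) {j j' : ℤ} (h0 : 0 ≤ j)
    (h : j ≤ j') : len n L j' ≤ len n L j := by
  refine sum_le_sum fun i _ => ?_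
  rcases Nat.eq_zero_or_pos i with rfl | hi
  · split_ifs <;> omega
  · have x := hL.nested (show 1 ≤ i from hi)
    split_ifs <;> omega

theorem len_zero (n : ℕ) {L : ℕ → ℤ} (hL : Adm L) (h1 : L 1 = 0) : len (n + 1) L 0 = n := by
  have := sum_ind (n + 1) 1 (by omega)
  rw [show max (0 : ℤ) (((n + 1 : ℕ) : ℤ) - 1) = n by omega] at this
  rw [← this]
  refine sum_congr rfl fun i _ => ?_
  rcases Nat.eq_zero_or_pos i with rfl | hi
  · split_ifs <;> omega
  · have x := hL.nested (show 1 ≤ i from hi)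
    split_ifs <;> omega

theorem len_big (n : ℕ) {L : ℕ → ℤ} (hL : Adm L) {j : ℤ} {k : ℕ} (h1 : L k ≤ j)
    (h2 : j < L k + k) : (n : ℤ) - k ≤ len n L j := by
  have b := sum_ind n k (by omega)
  have c : ∑ i ∈ range n, (if (k : ℤ) ≤ (i : ℤ) then (1 : ℤ) else 0) ≤ len n L j := by
    refine sum_le_sum fun i _ => ?_
    by_cases h : k ≤ i
    · have := hL.nested h
      split_ifs <;> omega
    · split_ifs <;> omega
  omega

theorem exists_stack {M n : ℕ} (hM : 0 < M) {α : ℤ} (h1 : ((n + 1 : ℕ) : ℤ) ≤ α)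
    (h2 : ((n + 1 : ℕ) : ℤ) ^ 2 < 2 * α * M) : ∃ (L : ℕ → ℤ) (D : ℤ → ℤ), Adm L ∧ L 1 = 0 ∧
      Monotone D ∧ (∀ j, 0 ≤ D j ∧ D j ≤ α) ∧ D M = D 0 + n ∧
      ∀ (j : ℤ) (k : ℕ), L k ≤ j → j < L k + k → D j + (n + 1 - k) ≤ D (j + M) := by
  have hM' : (0 : ℤ) < M := by exact_mod_cast hM
  obtain ⟨L0, a0, c0⟩ := exists_profile hM h1 h2
  obtain ⟨L, hL, l1, hc⟩ : ∃ L : ℕ → ℤ, Adm L ∧ L 1 = 0 ∧
      ∀ j, cnt M (n + 1) L j ≤ cnt M (n + 1) (fun i => L i + i) j + α := by
    refine ⟨fun i => L0 i - L0 1, fun i => by have := a0 i; beta_reduce; omega, by simp,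
      fun j => ?_⟩
    have := c0 (j + L0 1)
    unfold cnt at this ⊢
    convert this using 3 with i _ i _
    · ring
    · beta_reduce; ring_nf
  have ub : ∀ j, below M (n + 1) L j ≤ α := fun j => by
    have := below_le hM' (n + 1) L j
    have := hc j
    omega
  have st : ∀ j, below M (n + 1) L (j + M) = below M (n + 1) L j + len (n + 1) L j := fun j => by
    have := below_step hM' (n + 1) L j
    unfold len
    omega
  let D : ℤ → ℤ := fun j => sSup (below M (n + 1) L '' Set.Iic j)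
  have ne : ∀ j, (below M (n + 1) L '' Set.Iic j).Nonempty := fun j => ⟨_, j, Set.mem_Iic.mpr le_rfl, rfl⟩
  have lo : ∀ i j, i ≤ j → below M (n + 1) L i ≤ D j := fun i j h =>
    le_csSup ⟨α, by rintro _ ⟨i, -, rfl⟩; exact ub i⟩ ⟨i, h, rfl⟩
  have up : ∀ j c, (∀ i ≤ j, below M (n + 1) L i ≤ c) → D j ≤ c := fun j c h =>
    csSup_le (ne j) (by rintro _ ⟨i, hi, rfl⟩; exact h i hi)
  have eq : ∀ j ≤ (M : ℤ), D j = below M (n + 1) L j := fun j hj =>
    le_antisymm (up _ _ fun i hi => below_left hM' _ hL l1 hi hj) (lo _ _ le_rfl)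
  refine ⟨L, D, hL, l1, fun j j' h => up _ _ fun i hi => lo _ _ (hi.trans h),
    fun j => ⟨(below_nonneg hM' _ _ _).trans (lo j j le_rfl), up _ _ fun i _ => ub i⟩, ?_,
    fun j k k1 k2 => ?_⟩
  · have := st 0
    rw [zero_add, len_zero n hL l1] at this
    rw [eq _ le_rfl, eq _ hM'.le, this]
  · have x := len_big (n + 1) hL k1 k2
    have : D j ≤ D (j + M) - len (n + 1) L j := up _ _ fun i hi => by
      have y1 := st (max i (min j 0))
      have y2 := lo (max i (min j 0) + M) (j + M) (by omega)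
      have y3 : below M (n + 1) L i ≤ below M (n + 1) L (max i (min j 0)) := by
        rcases le_total (min j 0) i with h | h
        · rw [max_eq_left h]
        · rw [max_eq_right h]; exact below_left hM' _ hL l1 h (by omega)
      have y4 : len (n + 1) L j ≤ len (n + 1) L (max i (min j 0)) := by
        rcases le_total j 0 with h | h
        · rw [show max i (min j 0) = j by omega]
        · exact len_right _ hL l1 (by omega) (by omega)
      omega
    push_cast at x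
    omega

theorem exists_inverses {M α : ℤ} {D : ℤ → ℤ} (hD : Monotone D) (hb : ∀ j, 0 ≤ D j ∧ D j ≤ α) :
    ∃ e₁ e₂ : ℤ → ℤ, (∀ k, k ≤ D M ∨ α < k → e₁ k = 0) ∧
      (∀ k t, 0 ≤ t → D t < k → k ≤ D (t + 1 + M) → t - M ≤ e₁ k ∧ e₁ k ≤ t) ∧
      (∀ k, k ≤ 0 ∨ D 0 < k → e₂ k = 0) ∧
      ∀ k t, t ≤ 0 → D (t - 1) < k → k < D (t + M) → t ≤ e₂ k ∧ e₂ k ≤ t + M := by
  classical
  refine ⟨fun k => if h : ∃ n : ℕ, k ≤ D (M + 1 + n) then Nat.find h else 0,
    fun k => if h : ∃ n : ℕ, D (-1 - n) < k then -(Nat.find h : ℤ) else 0,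
    fun k hk => ?_, fun k t t0 t1 t2 => ?_, fun k hk => ?_, fun k t t0 t1 t2 => ?_⟩
  · beta_reduce
    split_ifs with h
    · rcases hk with hk | hk
      · have : Nat.find h = 0 := (Nat.find_eq_zero h).mpr (hk.trans (hD (by omega)))
        omega
      · obtain ⟨n, hn⟩ := h
        have := (hb (M + 1 + n)).2
        omega
    · rfl
  · have e : M + 1 + (t.toNat : ℤ) = t + 1 + M := by omega
    have h : ∃ n : ℕ, k ≤ D (M + 1 + n) := ⟨t.toNat, by rw [e]; exact t2⟩
    have x1 : Nat.find h ≤ t.toNat := Nat.find_min' h (by rw [e]; exact t2)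
    have x2 := hD.reflect_lt (t1.trans_le (Nat.find_spec h))
    simp only [dif_pos h]
    omega
  · beta_reduce
    split_ifs with h
    · rcases hk with hk | hk
      · obtain ⟨n, hn⟩ := h
        have := (hb (-1 - n)).1
        omega
      · have : Nat.find h = 0 := (Nat.find_eq_zero h).mpr ((hD (by omega)).trans_lt hk)
        omega
    · rfl
  · have e : -1 - ((-t).toNat : ℤ) = t - 1 := by omega
    have h : ∃ n : ℕ, D (-1 - n) < k := ⟨(-t).toNat, by rw [e]; exact t1⟩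
    have x1 : Nat.find h ≤ (-t).toNat := Nat.find_min' h (by rw [e]; exact t1)
    have x2 := hD.reflect_lt ((Nat.find_spec h).trans t2)
    simp only [dif_pos h]
    omega

/-- Collapse of the interval from `-w` to `w`. -/
def tt (w j : ℤ) : ℤ := max 0 (j - w) + min 0 (j + w)

theorem interp_ge {A : ℤ → ℝ} {t c : ℝ} (h0 : c ≤ A ⌊t⌋) (h1 : c ≤ A (⌊t⌋ + 1)) :
    c ≤ interp A t := by
  have := interp_le (A := fun _ => c) (B := A) (t := t) (c := 0) (by simpa) (by simpa)
  rwa [interp_const, add_zero] at this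

theorem interp_le' {A : ℤ → ℝ} {t c : ℝ} (h0 : A ⌊t⌋ ≤ c) (h1 : A (⌊t⌋ + 1) ≤ c) :
    interp A t ≤ c := by
  have := interp_le (B := fun _ => c) (A := A) (t := t) (c := 0) (by simpa) (by simpa)
  rwa [interp_const, add_zero] at this

theorem interp_flat {A : ℤ → ℝ} {t c : ℝ} (h0 : A ⌊t⌋ = c) (h1 : (⌊t⌋ : ℝ) < t → A (⌊t⌋ + 1) = c) :
    interp A t = c := by
  rcases (Int.floor_le t).eq_or_lt with h | h
  · unfold interp
    rw [h0, show t - ⌊t⌋ = 0 by linarith, Real.smoothTransition.zero]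
    ring
  · exact le_antisymm (interp_le' h0.le (h1 h).le) (interp_ge h0.ge (h1 h).ge)

theorem interp_of_le {A : ℤ → ℝ} {t c : ℝ} {k : ℤ} (h : ∀ j ≤ k, A j = c) (ht : t ≤ k) :
    interp A t = c := by
  refine interp_flat (h _ (Int.floor_le_iff.mpr (by linarith))) fun x => h _ ?_
  have : (⌊t⌋ : ℝ) < k := x.trans_le ht
  exact_mod_cast this

theorem interp_of_ge {A : ℤ → ℝ} {t c : ℝ} {k : ℤ} (h : ∀ j, k ≤ j → A j = c) (ht : (k : ℝ) ≤ t) :
    interp A t = c :=
  have := Int.le_floor.mpr ht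
  interp_flat (h _ this) fun _ => h _ (by omega)

end Pool.Agent.Lib.BallPT
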