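import Pool.Agent.Lib.MP_d7b9cc_gt.H4

/-! The two shears in mesh units. -/

open scoped ContDiff
open Finset Filter Topology

namespace Pool.Agent.Lib.BallPT

/-- The moment region of the ball after the twist by `f`. -/
def Om (ρ ε : ℝ) (f : ℝ → ℝ) (x y : ℝ) : Prop :=
  ∃ m, 0 ≤ m ∧ m ≤ ρ ∧ |x - f m| ≤ (ρ - m) / 2 + ε ∧ |y| ≤ m / 2 + ε

theorem interp_of_mem {A : ℤ → ℝ} {t c : ℝ} {k l : ℤ} (h : ∀ j, k ≤ j → j ≤ l → A j = c)
    (h1 : (k : ℝ) ≤ t) (h2 : t ≤ l) : interp A t = c := by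
  have a := Int.le_floor.mpr h1
  refine interp_flat (h _ a (Int.floor_le_iff.mpr (by linarith))) fun x => h _ (by omega) ?_
  have : (⌊t⌋ : ℝ) < l := x.trans_le h2
  exact_mod_cast this

theorem int_zero {k : ℤ} {c : ℝ} (hc : 0 < c) (h1 : -c < k * c) (h2 : k * c < c) : k = 0 := by
  have a : (-1 : ℝ) < k := lt_of_mul_lt_mul_right (by linarith) hc.le
  have b : (k : ℝ) < 1 := lt_of_mul_lt_mul_right (by linarith) hc.le
  have a' : (-1 : ℤ) < k := by exact_mod_cast a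
  have b' : k < (1 : ℤ) := by exact_mod_cast b
  omega

theorem int_three {k : ℤ} {c : ℝ} (hc : 0 < c) (h1 : -(2 * c) < k * c) (h2 : k * c < 2 * c) :
    k = -1 ∨ k = 0 ∨ k = 1 := by
  have a : (-2 : ℝ) < k := lt_of_mul_lt_mul_right (by linarith) hc.le
  have b : (k : ℝ) < 2 := lt_of_mul_lt_mul_right (by linarith) hc.le
  have a' : (-2 : ℤ) < k := by exact_mod_cast a
  have b' : k < (2 : ℤ) := by exact_mod_cast b
  omega

/-- The centre of the level interval. -/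
noncomputable def ctr (K : ℕ) (L : ℕ → ℤ) (q : ℤ) : ℝ :=
  L ((K : ℤ) + 6 - q).toNat + (((K : ℤ) + 6 - q).toNat : ℝ) / 2

theorem ctr_top {K : ℕ} {L : ℕ → ℤ} (hL : Adm L) (l1 : L 1 = 0) {m : ℝ} (hm : (K : ℝ) ≤ m) :
    |interp (ctr K L) m| ≤ 3 := by
  have key : ∀ q : ℤ, (K : ℤ) ≤ q → -3 ≤ ctr K L q ∧ ctr K L q ≤ 3 := by
    intro q hq
    unfold ctr
    obtain ⟨i, hi, e⟩ : ∃ i : ℕ, i ≤ 6 ∧ ((K : ℤ) + 6 - q).toNat = i := ⟨_, by omega, rfl⟩
    rw [e]
    have x : -6 ≤ 2 * L i + i ∧ 2 * L i + i ≤ 6 := by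
      rcases Nat.eq_zero_or_pos i with rfl | h
      · have := hL 0
        simp only [zero_add] at this
        omega
      · have := hL.nested (show 1 ≤ i from h)
        omega
    have x1 : (-6 : ℝ) ≤ 2 * L i + i := by exact_mod_cast x.1
    have x2 : 2 * (L i : ℝ) + i ≤ 6 := by exact_mod_cast x.2
    constructor <;> linarith
  have a : (K : ℤ) ≤ ⌊m⌋ := Int.le_floor.mpr (by exact_mod_cast hm)
  exact abs_le.mpr ⟨interp_ge (key _ a).1 (key _ (by omega)).1,
    interp_le' (key _ a).2 (key _ (by omega)).2⟩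

theorem side_nodes {K : ℕ} {L : ℕ → ℤ} (hL : Adm L) (l1 : L 1 = 0) {w : ℤ} {m x c : ℝ}
    (m0 : 0 ≤ m) (m1 : m < K + 1) (hc : c ≤ w) (hw : 0 < w)
    (hx : |x - interp (ctr K L) m| < c + (K + 1 - m) / 2 + 1) :
    ∃ q i : ℕ, m < q + 1 ∧ K + 6 = q + i ∧ L i ≤ tt w ⌊x⌋ ∧ tt w (⌊x⌋ + 1) < L i + i := by
  obtain ⟨q, hq⟩ : ∃ q : ℕ, (q : ℤ) = ⌊m⌋ := ⟨_, Int.toNat_of_nonneg (Int.floor_nonneg.mpr m0)⟩
  have q1 : (q : ℝ) ≤ m := by
    have := Int.floor_le m
    rwa [← hq] at this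
  have q2 : m < q + 1 := by
    have := Int.lt_floor_add_one m
    rwa [← hq] at this
  have qK : q < K + 1 := by
    have : (q : ℝ) < K + 1 := by linarith
    exact_mod_cast this
  obtain ⟨i, hi⟩ : ∃ i : ℕ, K + 6 = q + (i + 1) := ⟨K + 5 - q, by omega⟩
  have hir : (K : ℝ) + 6 = q + (i + 1) := by exact_mod_cast hi
  have c0 : ctr K L ⌊m⌋ = L (i + 1) + ((i : ℝ) + 1) / 2 := by
    have : ((K : ℤ) + 6 - ⌊m⌋).toNat = i + 1 := by omega
    simp only [ctr, this]; push_cast; ring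
  have c1 : ctr K L (⌊m⌋ + 1) = L i + (i : ℝ) / 2 := by
    have : ((K : ℤ) + 6 - (⌊m⌋ + 1)).toNat = i := by omega
    simp only [ctr, this]
  have p1 : (L (i + 1) : ℝ) ≤ L i := by exact_mod_cast (hL i).1
  have p2 : (L i : ℝ) - 1 ≤ L (i + 1) := by exact_mod_cast (hL i).2
  have u1 := interp_le' (A := ctr K L) (t := m) (c := L (i + 1) + ((i : ℝ) + 2) / 2)
    (by rw [c0]; linarith) (by rw [c1]; linarith)
  have u2 := interp_ge (A := ctr K L) (t := m) (c := L (i + 1) + (i : ℝ) / 2)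
    (by rw [c0]; linarith) (by rw [c1]; linarith)
  obtain ⟨p3, p4⟩ := abs_lt.mp hx
  have f1 := Int.floor_le x
  have f2 := Int.lt_floor_add_one x
  have j1 : L (i + 1) < ⌊x⌋ + w := by
    have : (L (i + 1) : ℝ) < ⌊x⌋ + w := by linarith
    exact_mod_cast this
  have j2 : ⌊x⌋ - w < L (i + 1) + i := by
    have : (⌊x⌋ : ℝ) - w < L (i + 1) + i := by linarith
    exact_mod_cast this
  have n1 := hL.nested (show 1 ≤ i + 1 by omega)
  refine ⟨q, i + 1, q2, hi, ?_, ?_⟩ <;> unfold tt <;> push_cast at n1 ⊢ <;> omega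

theorem unit_data (N : ℕ) {b ρ : ℝ} (h1 : b ≤ ρ) (h2 : ρ + 19 < 2 * b)
    (h3 : (2 * b - ρ) ^ 2 < 2 * (b - 2) * (N - 2 * ρ + 2 * b - 31)) :
    ∃ f P Q : ℝ → ℝ, ContDiff ℝ ∞ f ∧ ContDiff ℝ ∞ P ∧ ContDiff ℝ ∞ Q ∧
      (∀ k : ℤ, HasDerivAt Q 0 k) ∧ (∀ᶠ y in 𝓝 (0 : ℝ), P y = 0) ∧
      (∀ x y, Om ρ 1 f x y → (∀ᶠ y' in 𝓝 y, P y' = 0) ∨ ∀ᶠ x' in 𝓝 x, Q x' = 0) ∧
      ∀ x y x' y', Om ρ 1 f x y → Om ρ 1 f x' y' → ∀ k l : ℤ, x' + P y' = x + P y + k * N →
        y' + Q x' = y + Q x + l * b → x = x' ∧ y = y' := by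
  have b0 : 19 < b := by linarith
  obtain ⟨K, k1, k2⟩ : ∃ K : ℕ, (K : ℝ) ≤ 2 * b - ρ - 19 ∧ 2 * b - ρ - 19 < K + 1 :=
    ⟨_, Nat.floor_le (by linarith), Nat.lt_floor_add_one _⟩
  obtain ⟨w, w1, w2⟩ : ∃ w : ℤ, (w : ℝ) ≤ ρ - b + 29 / 2 ∧ ρ - b + 27 / 2 < w :=
    ⟨⌊ρ - b + 29 / 2⌋, Int.floor_le _, by linarith [Int.lt_floor_add_one (ρ - b + 29 / 2)]⟩
  obtain ⟨v, v1, v2⟩ : ∃ v : ℤ, (v : ℝ) ≤ K / 2 + 3 ∧ (K : ℝ) / 2 + 5 / 2 ≤ v := by
    refine ⟨(K : ℤ) / 2 + 3, ?_, ?_⟩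
    · have : 2 * ((K : ℤ) / 2 + 3) ≤ K + 6 := by omega
      have : 2 * ((((K : ℤ) / 2 + 3 : ℤ)) : ℝ) ≤ K + 6 := by exact_mod_cast this
      linarith
    · have : (K : ℤ) + 5 ≤ 2 * ((K : ℤ) / 2 + 3) := by omega
      have : (K : ℝ) + 5 ≤ 2 * ((((K : ℤ) / 2 + 3 : ℤ)) : ℝ) := by exact_mod_cast this
      linarith
  obtain ⟨α, a1, a2⟩ : ∃ α : ℤ, (α : ℝ) + 1 ≤ b ∧ b - 2 < α :=
    ⟨⌊b⌋ - 1, by push_cast; linarith [Int.floor_le b], by
      push_cast; linarith [Int.lt_floor_add_one b]⟩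
  have n0 : (0 : ℝ) < N - 2 * ρ + 2 * b - 31 :=
    (mul_pos_iff_of_pos_left (by linarith)).mp ((sq_nonneg _).trans_lt h3)
  have w0 : 0 < w := by exact_mod_cast (by linarith : (0 : ℝ) < w)
  have v0 : 0 < v := by
    exact_mod_cast (by linarith [Nat.cast_nonneg (α := ℝ) K] : (0 : ℝ) < v)
  obtain ⟨M, hM⟩ : ∃ M : ℕ, (N : ℤ) = M + 2 * w + 2 := by
    have : 2 * w + 2 ≤ (N : ℤ) := by exact_mod_cast (by linarith : 2 * (w : ℝ) + 2 ≤ N)
    exact ⟨(N - 2 * w - 2).toNat, by omega⟩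
  have hMr : (N : ℝ) = M + 2 * w + 2 := by exact_mod_cast hM
  have M0 : 0 < M := by exact_mod_cast (by linarith : (0 : ℝ) < M)
  obtain ⟨L, D, hL, l1, hD, hb, hT, hS⟩ := exists_stack (n := K + 12) (α := α) M0 (by
    have : ((K + 12 + 1 : ℕ) : ℝ) ≤ α := by push_cast; linarith
    exact_mod_cast this) (by
    have : ((K + 12 + 1 : ℕ) : ℝ) ^ 2 < 2 * α * M := by
      push_cast
      have x1 : ((K : ℝ) + 12 + 1) ^ 2 ≤ (2 * b - ρ) ^ 2 := by gcongr; linarith
      have x2 : 2 * (b - 2) * (N - 2 * ρ + 2 * b - 31) ≤ 2 * α * M := by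
        gcongr <;> linarith
      linarith
    exact_mod_cast this)
  obtain ⟨e₁, e₂, z1, s1, z2, s2⟩ := exists_inverses (M := M) hD hb
  have d0 : (0 : ℝ) ≤ D 0 := by exact_mod_cast (hb 0).1
  have dM : (D M : ℝ) ≤ α := by exact_mod_cast (hb M).2
  have dT : (D M : ℝ) = D 0 + K + 12 := by rw [hT]; push_cast; ring
  obtain ⟨μ, hμ⟩ : ∃ μ : ℝ, μ = (D 0 + D M) / 2 := ⟨_, rfl⟩
  let lo := interp fun j => (D (tt w j) : ℝ)
  let hi := interp fun j => (D (tt w j + M) : ℝ)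
  let E₁ := interp fun k => (e₁ k : ℝ)
  let E₂ := interp fun k => (e₂ k : ℝ)
  let ψ := interp fun j => (tt v j : ℝ)
  have E1a : ∀ u : ℝ, u ≤ D M → E₁ u = 0 := fun u hu =>
    interp_of_le (fun j hj => by exact_mod_cast z1 j (Or.inl hj)) hu
  have E1b : ∀ u : ℝ, b ≤ u → E₁ u = 0 := fun u hu =>
    interp_of_ge (k := α + 1) (fun j hj => by exact_mod_cast z1 j (Or.inr (by omega)))
      (by push_cast; linarith)
  have E2a : ∀ u : ℝ, u ≤ 0 → E₂ u = 0 := fun u hu =>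
    interp_of_le (k := 0) (fun j hj => by exact_mod_cast z2 j (Or.inl hj)) (by simpa)
  have E2b : ∀ u : ℝ, D 0 + 1 ≤ u → E₂ u = 0 := fun u hu =>
    interp_of_ge (k := D 0 + 1) (fun j hj => by exact_mod_cast z2 j (Or.inr (by omega)))
      (by push_cast; linarith)
  have ψ0 : ∀ y : ℝ, |y| ≤ v → ψ y = 0 := fun y hy =>
    interp_of_mem (k := -v) (l := v) (fun j j1 j2 => by
      have : tt v j = 0 := by unfold tt; omega
      exact_mod_cast this) (by push_cast; linarith [abs_le.mp hy]) (abs_le.mp hy).2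
  have ψ1 : ∀ y : ℝ, v ≤ y → y - 1 - v ≤ ψ y ∧ ψ y ≤ y + 1 - v := fun y hy => by
    have f0 := Int.le_floor.mpr hy
    have f1 := Int.floor_le y
    have f2 := Int.lt_floor_add_one y
    have t1 : tt v ⌊y⌋ = ⌊y⌋ - v := by unfold tt; omega
    have t2 : tt v (⌊y⌋ + 1) = ⌊y⌋ + 1 - v := by unfold tt; omega
    refine ⟨interp_ge ?_ ?_, interp_le' ?_ ?_⟩ <;> simp only [t1, t2] <;> push_cast <;> linarith
  have ψ2 : ∀ y : ℝ, y < -v → y - 1 + v ≤ ψ y ∧ ψ y ≤ y + 1 + v := fun y hy => by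
    have f0 : ⌊y⌋ < -v := Int.floor_lt.mpr (by push_cast; exact hy)
    have f1 := Int.floor_le y
    have f2 := Int.lt_floor_add_one y
    have t1 : tt v ⌊y⌋ = ⌊y⌋ + v := by unfold tt; omega
    have t2 : tt v (⌊y⌋ + 1) = ⌊y⌋ + 1 + v := by unfold tt; omega
    refine ⟨interp_ge ?_ ?_, interp_le' ?_ ?_⟩ <;> simp only [t1, t2] <;> push_cast <;> linarith
  let G : ℝ → ℝ := fun y => E₁ (y + μ) + E₂ (y + μ) + E₁ (y + μ + b) + E₂ (y + μ - b)
  let Q : ℝ → ℝ := fun x => (lo x + hi x) / 2 - μ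
  have P0 : ∀ y : ℝ, |y| ≤ v → G y + ψ y = 0 := fun y hy => by
    obtain ⟨y1, y2⟩ := abs_le.mp hy
    simp only [G]
    rw [E1a _ (by linarith), E2b _ (by linarith), E1b _ (by linarith), E2a _ (by linarith), ψ0 y hy]
    ring
  have Q0 : ∀ x : ℝ, |x| ≤ w → Q x = 0 := fun x hx => by
    have t : ∀ j, -w ≤ j → j ≤ w → tt w j = 0 := fun j _ _ => by unfold tt; omega
    have x1 : lo x = D 0 := interp_of_mem (k := -w) (l := w) (fun j j1 j2 => by rw [t j j1 j2])
      (by push_cast; linarith [abs_le.mp hx]) (abs_le.mp hx).2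
    have x2 : hi x = D M := interp_of_mem (k := -w) (l := w)
      (fun j j1 j2 => by rw [t j j1 j2, zero_add])
      (by push_cast; linarith [abs_le.mp hx]) (abs_le.mp hx).2
    simp only [Q, x1, x2, hμ, sub_self]
  have ttm : ∀ j, tt w j ≤ tt w (j + 1) := fun j => by unfold tt; omega
  have lo1 : ∀ x, (D (tt w ⌊x⌋) : ℝ) ≤ lo x := fun x =>
    interp_ge le_rfl (by exact_mod_cast hD (ttm _))
  have hi1 : ∀ x, hi x ≤ D (tt w (⌊x⌋ + 1) + M) := fun x =>
    interp_le' (by exact_mod_cast hD (by have := ttm ⌊x⌋; omega)) le_rfl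
  have side : ∀ x y, Om ρ 1 (interp (ctr K L)) x y → w ≤ |x| →
      |y| < v ∧ lo x + 2 < y + Q x + μ ∧ y + Q x + μ + 2 < hi x := by
    rintro x y ⟨m, m0, m1, p1, p2⟩ hx
    have mS : m < 2 * b - ρ - 19 := by
      by_contra h
      have t1 := abs_le.mp (ctr_top hL l1 (m := m) (K := K) (by linarith [not_lt.mp h]))
      have t2 := abs_le.mp p1
      have : |x| < w := abs_lt.mpr ⟨by linarith [not_lt.mp h], by linarith [not_lt.mp h]⟩
      linarith
    obtain ⟨q, i, q1, q2, q3, q4⟩ := side_nodes hL l1 (K := K) (w := w) (x := x)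
      (c := ρ - b + 19 / 2) m0 (by linarith) (by linarith) w0 (by linarith)
    have x1 : ∀ t, L i ≤ t → t < L i + i → (D t : ℝ) + (q + 7) ≤ D (t + M) := fun t t1 t2 => by
      have := hS t i t1 t2
      have : D t + (q + 7) ≤ D (t + M) := by push_cast at this; omega
      exact_mod_cast this
    have t0 := ttm ⌊x⌋
    have x2 : lo x + (q + 7) ≤ hi x :=
      interp_le (x1 _ q3 (by omega)) (x1 _ (by omega) q4)
    obtain ⟨y1, y2⟩ := abs_le.mp p2
    simp only [Q]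
    exact ⟨by linarith, by linarith, by linarith⟩
  have gap : ∀ x u : ℝ, w ≤ |x| → lo x + 2 < u → u + 2 < hi x → 0 < u ∧ u < α ∧
      ∃ s : ℤ, E₁ u + E₂ u + w ≤ x + s * N ∧ x + s * N ≤ E₁ u + E₂ u - w + N := by
    intro x u hx u1 u2
    have y1 := lo1 x
    have y2 := hi1 x
    have y3 : (0 : ℝ) ≤ D (tt w ⌊x⌋) := by exact_mod_cast (hb _).1
    have y4 : (D (tt w (⌊x⌋ + 1) + M) : ℝ) ≤ α := by exact_mod_cast (hb _).2
    have f1 := Int.floor_le x
    have f2 := Int.lt_floor_add_one x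
    have g1 : D (tt w ⌊x⌋) < ⌊u⌋ := by
      have : (D (tt w ⌊x⌋) : ℝ) < ⌊u⌋ := by linarith [Int.lt_floor_add_one u]
      exact_mod_cast this
    have g2 : ⌊u⌋ + 1 < D (tt w (⌊x⌋ + 1) + M) := by
      have : (⌊u⌋ : ℝ) + 1 < D (tt w (⌊x⌋ + 1) + M) := by linarith [Int.floor_le u]
      exact_mod_cast this
    refine ⟨by linarith, by linarith, ?_⟩
    rcases le_abs.mp hx with h | h
    · have f0 := Int.le_floor.mpr h
      have t1 : tt w ⌊x⌋ = ⌊x⌋ - w := by unfold tt; omega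
      have t2 : tt w (⌊x⌋ + 1) = ⌊x⌋ - w + 1 := by unfold tt; omega
      rw [t1] at g1 y1
      rw [t2] at g2
      have r1 := s1 ⌊u⌋ _ (by omega) g1 (by omega)
      have r2 := s1 (⌊u⌋ + 1) _ (by omega) (g1.trans (by omega)) g2.le
      have r3 : (D 0 : ℝ) ≤ D (⌊x⌋ - w) := by exact_mod_cast hD (by omega)
      have r4 : E₁ u ≤ ⌊x⌋ - w := interp_le' (by exact_mod_cast r1.2) (by exact_mod_cast r2.2)
      have r5 : (⌊x⌋ : ℝ) - w - M ≤ E₁ u :=
        interp_ge (by exact_mod_cast r1.1) (by exact_mod_cast r2.1)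
      rw [E2b u (by linarith)]
      exact ⟨0, by push_cast; linarith, by push_cast; linarith⟩
    · have f0 : ⌊x⌋ ≤ -w := Int.floor_le_iff.mpr (by push_cast; linarith)
      obtain ⟨t, ht, t0, t1, t2, t3⟩ : ∃ t : ℤ, tt w (⌊x⌋ + 1) = t ∧ t ≤ 0 ∧ t - 1 ≤ tt w ⌊x⌋ ∧
          t - 1 - w ≤ ⌊x⌋ ∧ (t = 0 ∨ ⌊x⌋ + 1 + w ≤ t) :=
        ⟨_, rfl, by unfold tt; omega, by unfold tt; omega, by unfold tt; omega, by
          unfold tt; omega⟩
      rw [ht] at g2 y2
      have g3 := (hD t1).trans_lt g1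
      have r1 := s2 ⌊u⌋ _ t0 g3 (by omega)
      have r2 := s2 (⌊u⌋ + 1) _ t0 (g3.trans (by omega)) g2
      have r3 : (D (t + M) : ℝ) ≤ D M := by exact_mod_cast hD (by omega)
      have r4 : E₂ u ≤ t + M := interp_le' (by exact_mod_cast r1.2) (by exact_mod_cast r2.2)
      have r5 : (t : ℝ) ≤ E₂ u := interp_ge (by exact_mod_cast r1.1) (by exact_mod_cast r2.1)
      have r6 : (t : ℝ) - 1 - w ≤ ⌊x⌋ := by exact_mod_cast t2
      have r7 : x + w ≤ t := by
        rcases t3 with t3 | t3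
        · rw [t3]; push_cast; linarith
        · have : (⌊x⌋ : ℝ) + 1 + w ≤ t := by exact_mod_cast t3
          linarith
      rw [E1a u (by linarith)]
      exact ⟨1, by push_cast; linarith, by push_cast; linarith⟩
  have yb : ∀ x y, Om ρ 1 (interp (ctr K L)) x y → |y| ≤ ρ / 2 + 1 := by
    rintro x y ⟨m, -, m1, -, p2⟩
    linarith
  have xb : ∀ x y, Om ρ 1 (interp (ctr K L)) x y → v ≤ |y| → |x| ≤ ρ / 2 - |y| + 5 := by
    rintro x y ⟨m, m0, m1, p1, p2⟩ hy
    have t1 := abs_le.mp (ctr_top hL l1 (m := m) (K := K) (by linarith))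
    have t2 := abs_le.mp p1
    exact abs_le.mpr ⟨by linarith, by linarith⟩
  have main : ∀ x y, Om ρ 1 (interp (ctr K L)) x y → |x| < w → |x + ψ y| < w := by
    intro x y h hx
    rcases le_or_gt |y| v with hy | hy
    · rwa [ψ0 y hy, add_zero]
    · have t := abs_le.mp (xb x y h hy.le)
      rcases lt_abs.mp hy with hy' | hy'
      · have := ψ1 y hy'.le
        rw [abs_of_pos (by linarith [(by exact_mod_cast v0 : (0 : ℝ) < v)])] at t
        exact abs_lt.mpr ⟨by linarith, by linarith⟩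
      · have := ψ2 y (by linarith)
        rw [abs_of_neg (by linarith [(by exact_mod_cast v0 : (0 : ℝ) < v)])] at t
        exact abs_lt.mpr ⟨by linarith, by linarith⟩
  have N0 : (0 : ℝ) < N := by linarith [Nat.cast_nonneg (α := ℝ) M]
  have mm : ∀ x y x' y', Om ρ 1 (interp (ctr K L)) x y → Om ρ 1 (interp (ctr K L)) x' y' →
      |x| < w → |x'| < w → ∀ k : ℤ, x' + (G y' + ψ y') = x + (G y + ψ y) + k * N →
      y' ≠ y - b := by
    rintro x y x' y' h h' hx hx' k e rfl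
    have t1 := abs_le.mp (yb _ _ h)
    have t2 := abs_le.mp (yb _ _ h')
    have v' : (0 : ℝ) < v := by exact_mod_cast v0
    have y1 : v ≤ y := by linarith
    have y2 : y - b < -v := by linarith
    have t3 := abs_le.mp (xb _ _ h (by rwa [abs_of_pos (by linarith)]))
    have t4 := abs_le.mp (xb _ _ h' (by rw [abs_of_neg (by linarith)]; linarith))
    rw [abs_of_pos (by linarith)] at t3
    rw [abs_of_neg (by linarith)] at t4
    have t5 := ψ1 y y1
    have t6 := ψ2 _ y2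
    have t7 := abs_lt.mp (main _ _ h hx)
    have t8 := abs_lt.mp (main _ _ h' hx')
    have g : G (y - b) = G y := by
      simp only [G]
      rw [E1a (y - b + μ) (by linarith), E2a (y - b + μ - b) (by linarith),
        E2b (y + μ) (by linarith), E1b (y + μ + b) (by linarith)]
      ring_nf
    rw [g] at e
    have k0 : k = 0 := int_zero N0 (by linarith) (by linarith)
    rw [k0] at e
    push_cast at e
    linarith
  have ms : ∀ x y x' y', Om ρ 1 (interp (ctr K L)) x y → Om ρ 1 (interp (ctr K L)) x' y' →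
      |x| < w → w ≤ |x'| → ∀ k l : ℤ, x' + (G y' + ψ y') = x + (G y + ψ y) + k * N →
      y' + Q x' ≠ y + Q x + l * b := by
    intro x y x' y' h h' hx hx' k l e e'
    obtain ⟨p1, p2, p3⟩ := side _ _ h' hx'
    obtain ⟨u1, u2, s, u3, u4⟩ := gap _ _ hx' p2 p3
    rw [P0 _ p1.le] at e
    rw [Q0 _ hx.le] at e'
    have t1 := abs_le.mp (yb _ _ h)
    have t7 := abs_lt.mp (main _ _ h hx)
    obtain ⟨u, hu⟩ : ∃ u, u = y' + Q x' + μ := ⟨_, rfl⟩
    rw [← hu] at u1 u2 u3 u4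
    have g : G y = E₁ u + E₂ u := by
      simp only [G]
      rcases int_three (k := l) (c := b) (by linarith) (by linarith) (by linarith) with l0 | l0 | l0
        <;> rw [l0] at e' <;> push_cast at e'
      · rw [show y + μ = u + b by linarith, E1b (u + b) (by linarith), E2b (u + b) (by linarith),
          E1b (u + b + b) (by linarith), E1a u (by linarith), add_sub_cancel_right]
        ring
      · rw [show y + μ = u by linarith, E1b (u + b) (by linarith), E2a (u - b) (by linarith)]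
        ring
      · rw [show y + μ = u - b by linarith, E1a (u - b) (by linarith), E2a (u - b) (by linarith),
          E2a (u - b - b) (by linarith), E2b u (by linarith), sub_add_cancel]
        ring
    have k1 : (0 : ℝ) < ((k + s : ℤ) : ℝ) * N := by push_cast; linarith
    have k2 : ((k + s : ℤ) : ℝ) * N < 1 * N := by push_cast; linarith
    have k3 : (0 : ℤ) < k + s := by exact_mod_cast ((mul_pos_iff_of_pos_right N0).mp k1)
    have k4 : k + s < (1 : ℤ) := by exact_mod_cast lt_of_mul_lt_mul_right k2 N0.le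
    omega
  have ss : ∀ x y x' y', Om ρ 1 (interp (ctr K L)) x y → Om ρ 1 (interp (ctr K L)) x' y' →
      w ≤ |x| → w ≤ |x'| → x + N ≤ x' → y' + Q x' ≠ y + Q x := by
    intro x y x' y' h h' hx hx' e e'
    obtain ⟨-, -, p3⟩ := side _ _ h hx
    obtain ⟨-, p2, -⟩ := side _ _ h' hx'
    have f0 : ⌊x⌋ + N ≤ ⌊x'⌋ := Int.le_floor.mpr (by push_cast; linarith [Int.floor_le x])
    have : (D (tt w (⌊x⌋ + 1) + M) : ℝ) ≤ D (tt w ⌊x'⌋) := by
      exact_mod_cast hD (by unfold tt; omega)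
    linarith [lo1 x', hi1 x]
  have c1 : ∀ (A : ℤ → ℝ) (c : ℝ), ContDiff ℝ ∞ fun y => interp A (y + c) := fun A c =>
    (contDiff_interp A).comp (contDiff_id.add contDiff_const)
  have ev : ∀ (F : ℝ → ℝ) (c t : ℝ), (∀ y, |y| ≤ c → F y = 0) → |t| < c →
      ∀ᶠ y in 𝓝 t, F y = 0 := fun F c t hF ht =>
    ((continuous_abs.tendsto t).eventually_lt_const ht).mono fun y hy => hF y hy.le
  refine ⟨interp (ctr K L), fun y => G y + ψ y, Q, contDiff_interp _, ?_,
    (((contDiff_interp _).add (contDiff_interp _)).div_const 2).sub contDiff_const, fun k => ?_,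
    ev _ v 0 P0 (by simpa using v0), fun x y h => ?_, fun x y x' y' h h' k l e e' => ?_⟩
  · refine ((((c1 _ μ).add (c1 _ μ)).add ?_).add ?_).add (contDiff_interp _)
    · simpa only [add_assoc] using c1 _ (μ + b)
    · simpa only [add_sub_assoc] using c1 _ (μ - b)
  · have := (((hasDerivAt_interp (fun j => (D (tt w j) : ℝ)) k).fun_add
      (hasDerivAt_interp (fun j => (D (tt w j + M) : ℝ)) k)).div_const 2).sub_const μ
    rwa [add_zero, zero_div] at this
  · rcases lt_or_ge |x| w with hx | hx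
    · exact Or.inr (ev _ w x Q0 hx)
    · exact Or.inl (ev _ v y P0 (side _ _ h hx).1)
  · beta_reduce at e
    rcases lt_or_ge |x| w with hx | hx <;> rcases lt_or_ge |x'| w with hx' | hx'
    · rw [Q0 _ hx.le, Q0 _ hx'.le] at e'
      have t1 := abs_le.mp (yb _ _ h)
      have t2 := abs_le.mp (yb _ _ h')
      rcases int_three (k := l) (c := b) (by linarith) (by linarith) (by linarith) with l0 | l0 | l0
        <;> rw [l0] at e' <;> push_cast at e'
      · exact absurd (by linarith) (mm _ _ _ _ h h' hx hx' k e)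
      · have y0 : y' = y := by linarith
        rw [y0] at e
        have t3 := abs_lt.mp hx
        have t4 := abs_lt.mp hx'
        have k0 : k = 0 := int_zero N0 (by linarith [Nat.cast_nonneg (α := ℝ) M])
          (by linarith [Nat.cast_nonneg (α := ℝ) M])
        rw [k0] at e
        push_cast at e
        exact ⟨by linarith, y0.symm⟩
      · exact absurd (by linarith) (mm _ _ _ _ h' h hx' hx (-k) (by push_cast; linarith))
    · exact absurd e' (ms _ _ _ _ h h' hx hx' k l e)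
    · exact absurd (by push_cast; linarith)
        (ms _ _ _ _ h' h hx' hx (-k) (-l) (by push_cast; linarith))
    · obtain ⟨p1, p2, p3⟩ := side _ _ h hx
      obtain ⟨q1, q2, q3⟩ := side _ _ h' hx'
      obtain ⟨u1, u2, -⟩ := gap _ _ hx p2 p3
      obtain ⟨u3, u4, -⟩ := gap _ _ hx' q2 q3
      rw [P0 _ p1.le, P0 _ q1.le] at e
      have l0 : l = 0 := int_zero (c := b) (by linarith) (by linarith) (by linarith)
      rw [l0] at e'
      push_cast at e'
      rcases lt_trichotomy k 0 with hk | hk | hk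
      · have : (k : ℝ) ≤ -1 := by exact_mod_cast (by omega : k ≤ -1)
        exact absurd (by linarith) (ss _ _ _ _ h' h hx' hx (by nlinarith))
      · rw [hk] at e
        push_cast at e
        have x0 : x' = x := by linarith
        rw [x0] at e'
        exact ⟨x0.symm, by linarith⟩
      · have : (1 : ℝ) ≤ k := by exact_mod_cast hk
        exact absurd (by linarith) (ss _ _ _ _ h h' hx hx' (by nlinarith))

end Pool.Agent.Lib.BallPT
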