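import Pool.Agent.Lib.MP_d7b9cc_gt.H3
import Pool.Agent.Lib.MP_d7b9cc_gt.H5

/-! The embedding of the four dimensional ball in a product of two punctured tori. -/

open scoped ContDiff
open Filter Topology
open Pool.Agent.Lib.BallT6

namespace Pool.Agent.Lib.BallPT

theorem exists_mesh2 {a b ρ : ℝ} (h2 : ρ < 2 * b) (h3 : ρ ^ 2 < 2 * a * b) :
    ∃ N : ℕ, 0 < N ∧ ρ + 19 * (a / N) < 2 * b ∧
      (2 * b - ρ) ^ 2 < 2 * (b - 2 * (a / N)) * (a - 2 * ρ + 2 * b - 31 * (a / N)) := by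
  have t : Tendsto (fun M : ℕ => a / M) atTop (𝓝 0) := tendsto_const_div_atTop_nhds_zero_nat a
  have c1 : Tendsto (fun M : ℕ => ρ + 19 * (a / M)) atTop (𝓝 (ρ + 19 * 0)) :=
    (t.const_mul 19).const_add ρ
  have c3 : Tendsto (fun M : ℕ => 2 * (b - 2 * (a / M)) * (a - 2 * ρ + 2 * b - 31 * (a / M))) atTop
      (𝓝 (2 * (b - 2 * 0) * (a - 2 * ρ + 2 * b - 31 * 0))) :=
    (((t.const_mul 2).const_sub b).const_mul 2).mul ((t.const_mul 31).const_sub _)
  obtain ⟨M, x, y, z⟩ := ((eventually_gt_atTop 0).and ((c1.eventually_lt_const (by simpa)).and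
    (c3.eventually_const_lt (u := (2 * b - ρ) ^ 2) (by nlinarith)))).exists
  exact ⟨M, x, y, z⟩

theorem exists_data2 {a b ρ : ℝ} (ha : 0 < a) (h1 : b ≤ ρ) (h2 : ρ < 2 * b)
    (h3 : ρ ^ 2 < 2 * a * b) : ∃ ε : ℝ, 0 < ε ∧ ρ / 2 + ε < b ∧
    ∃ f P Q : ℝ → ℝ, ContDiff ℝ ∞ f ∧ ContDiff ℝ ∞ P ∧ ContDiff ℝ ∞ Q ∧
      (∀ k : ℤ, deriv Q (k * a) = 0) ∧ (∀ᶠ y in 𝓝 (0 : ℝ), P y = 0) ∧
      (∀ x y, Om ρ ε f x y → (∀ᶠ y' in 𝓝 y, P y' = 0) ∨ ∀ᶠ x' in 𝓝 x, Q x' = 0) ∧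
      ∀ x y x' y', Om ρ ε f x y → Om ρ ε f x' y' → ∀ k l : ℤ, x' + P y' = x + P y + k * a →
        y' + Q x' = y + Q x + l * b → x = x' ∧ y = y' := by
  obtain ⟨N, hN, m1, m2⟩ := exists_mesh2 h2 h3
  have hNr : (0 : ℝ) < N := by exact_mod_cast hN
  obtain ⟨h, hh⟩ : ∃ h, h = a / N := ⟨_, rfl⟩
  rw [← hh] at m1 m2
  have h0 : 0 < h := by rw [hh]; positivity
  have haN : a = N * h := by rw [hh]; field_simp
  obtain ⟨f, P, Q, cf, cP, cQ, dQ, P0, fl, inj⟩ := unit_data N (b := b / h) (ρ := ρ / h)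
    (by gcongr) (by
      rw [div_add' _ _ _ h0.ne', ← mul_div_assoc]; gcongr) (by
      refine lt_of_mul_lt_mul_right (a := h ^ 2) ?_ (by positivity)
      rw [haN] at m2
      rw [show (2 * (b / h) - ρ / h) ^ 2 * h ^ 2 = (2 * b - ρ) ^ 2 by field_simp,
        show 2 * (b / h - 2) * (N - 2 * (ρ / h) + 2 * (b / h) - 31) * h ^ 2 =
          2 * (b - 2 * h) * (N * h - 2 * ρ + 2 * b - 31 * h) by field_simp]
      exact m2)
  have sm : ∀ B : ℝ → ℝ, ContDiff ℝ ∞ B → ContDiff ℝ ∞ fun X : ℝ => h * B (X / h) := fun B hB =>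
    contDiff_const.mul (hB.comp (contDiff_id.div_const h))
  have ev : ∀ (B : ℝ → ℝ) (t : ℝ), (∀ᶠ y in 𝓝 (t / h), B y = 0) →
      ∀ᶠ y in 𝓝 t, h * B (y / h) = 0 := fun B t hB =>
    (((continuous_id.div_const h).tendsto t).eventually hB).mono fun y hy => by
      rw [show B (y / h) = 0 from hy, mul_zero]
  have om : ∀ x y, Om ρ h (fun m => h * f (m / h)) x y → Om (ρ / h) 1 f (x / h) (y / h) := by
    rintro x y ⟨m, m0, m1, p1, p2⟩
    refine ⟨m / h, by positivity, by gcongr, ?_, ?_⟩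
    · rw [show x / h - f (m / h) = (x - h * f (m / h)) / h by field_simp, abs_div, abs_of_pos h0,
        div_le_iff₀ h0]
      exact p1.trans_eq (by field_simp)
    · rw [abs_div, abs_of_pos h0, div_le_iff₀ h0]
      exact p2.trans_eq (by field_simp)
  refine ⟨h, h0, by linarith, fun m => h * f (m / h), fun y => h * P (y / h),
    fun x => h * Q (x / h), sm f cf, sm P cP, sm Q cQ, fun k => ?_, ev P 0 (by rwa [zero_div]),
    fun x y o => (fl _ _ (om _ _ o)).imp (ev P y) (ev Q x), fun x y x' y' o o' k l e e' => ?_⟩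
  · have d := dQ (k * N)
    have e : ((k * N : ℤ) : ℝ) = k * a / h := by rw [haN]; push_cast; field_simp
    rw [e] at d
    have d2 : HasDerivAt (fun X : ℝ => Q (X / h)) (0 * (1 / h)) (k * a) :=
      HasDerivAt.comp (h := fun X : ℝ => X / h) (k * a : ℝ) d ((hasDerivAt_id' _).div_const h)
    simpa using (d2.const_mul h).deriv
  · obtain ⟨r1, r2⟩ := inj _ _ _ _ (om _ _ o) (om _ _ o') k l (by
      rw [haN] at e
      field_simp
      linarith) (by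
      field_simp
      linarith)
    exact ⟨(div_left_inj' h0.ne').mp r1, (div_left_inj' h0.ne').mp r2⟩

theorem flat {P : ℝ → ℝ} {y : ℝ} (h : ∀ᶠ y' in 𝓝 y, P y' = 0) :
    P y = 0 ∧ deriv P y = 0 ∧ deriv (deriv P) y = 0 := by
  have e : P =ᶠ[𝓝 y] fun _ => 0 := h
  exact ⟨h.self_of_nhds, by rw [e.deriv_eq]; simp, by rw [e.deriv.deriv_eq]; simp⟩

theorem pb_shear2 {E : Type} [NormedAddCommGroup E] [NormedSpace ℝ E] {p : E} {P Q : ℝ → ℝ}
    (hP : ContDiff ℝ ∞ P) (hQ : ContDiff ℝ ∞ Q) {F G : E → ℂ} (hF : ContDiffAt ℝ ∞ F p)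
    (hG : ContDiffAt ℝ ∞ G p)
    (h : (∀ᶠ y in 𝓝 (G p).re, P y = 0) ∨ ∀ᶠ x in 𝓝 (F p).re, Q x = 0) (v w : E) :
    pb (fun x => cx ((F x).re + P (G x).re) ((F x).im - deriv Q (F x).re * (G x).im)) p v w +
      pb (fun x => cx ((G x).re + Q (F x).re) ((G x).im - deriv P (G x).re * (F x).im)) p v w =
      pb F p v w + pb G p v w := by
  have h1 := cd_fun (cd_deriv hP) (cd_re hG)
  have h2 := h1.mul (cd_im hF)
  have h3 := cd_fun (cd_deriv hQ) (cd_re hF)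
  have h4 := h3.mul (cd_im hG)
  rw [pb_cx ((cd_re hF).add (cd_fun hP (cd_re hG))) ((cd_im hF).sub h4),
    pb_cx ((cd_re hG).add (cd_fun hQ (cd_re hF))) ((cd_im hG).sub h2), pb_eq hF, pb_eq hG]
  simp only [dv_sub (cd_im hG) h2, dv_mul h1 (cd_im hF), dv_fun (cd_deriv hP) (cd_re hG),
    dv_add (cd_re hF) (cd_fun hP (cd_re hG)), dv_fun hP (cd_re hG),
    dv_sub (cd_im hF) h4, dv_mul h3 (cd_im hG), dv_fun (cd_deriv hQ) (cd_re hF),
    dv_add (cd_re hG) (cd_fun hQ (cd_re hF)), dv_fun hQ (cd_re hF)]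
  rcases h with h | h
  · rw [(flat h).2.1, (flat h).2.2]; ring
  · rw [(flat h).2.1, (flat h).2.2]; ring

theorem cx_lattice {x y c : ℝ} {k l : ℤ} (h : cx x y = k * c + l * Complex.I) :
    x = k * c ∧ y = l := by
  have r := (cx_re x y).symm.trans (congrArg Complex.re h)
  have i := (cx_im x y).symm.trans (congrArg Complex.im h)
  simp only [Complex.add_re, Complex.add_im, Complex.mul_re, Complex.mul_im, Complex.intCast_re,
    Complex.intCast_im, Complex.ofReal_re, Complex.ofReal_im, Complex.I_re, Complex.I_im,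
    mul_zero, mul_one, zero_mul, sub_zero, add_zero, zero_add] at r i
  exact ⟨r, i⟩

theorem cx_sub (x y x' y' : ℝ) : cx x y - cx x' y' = cx (x - x') (y - y') := by
  unfold cx; push_cast; ring

theorem not_int {y : ℝ} (h : 0 < y ∧ y < 1) (l : ℤ) : y ≠ l := by
  rintro rfl
  have : (0 : ℤ) < l := by exact_mod_cast h.1
  have : l < (1 : ℤ) := by exact_mod_cast h.2
  omega

theorem eq_of_int {y y' : ℝ} (h : 0 < y ∧ y < 1) (h' : 0 < y' ∧ y' < 1) {l : ℤ}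
    (e : y' - y = l) : y = y' := by
  have : l = 0 := int_zero one_pos (by linarith [h.2, h'.1]) (by linarith [h.1, h'.2])
  rw [this] at e
  push_cast at e
  linarith

/-- The conclusion for the pair of coordinate functions `F`, `G`. -/
def Emb (a b ρ : ℝ) (F G : ℂ × ℂ → ℂ) : Prop :=
  ContDiff ℝ ∞ F ∧ ContDiff ℝ ∞ G ∧
    (∀ p, mu p.1 + mu p.2 ≤ ρ → ∀ v w, pb F p v w + pb G p v w = om v.1 w.1 + om v.2 w.2) ∧
    (∀ p, mu p.1 + mu p.2 ≤ ρ → ∀ k l : ℤ, F p ≠ k * a + l * Complex.I) ∧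
    (∀ p, mu p.1 + mu p.2 ≤ ρ → ∀ k l : ℤ, G p ≠ k * b + l * Complex.I) ∧
    ∀ p q, mu p.1 + mu p.2 ≤ ρ → mu q.1 + mu q.2 ≤ ρ →
      (∃ k l : ℤ, F q - F p = k * a + l * Complex.I) →
      (∃ k l : ℤ, G q - G p = k * b + l * Complex.I) → p = q

theorem Emb.swap {a b ρ : ℝ} {F G : ℂ × ℂ → ℂ} (h : Emb a b ρ F G) : Emb b a ρ G F :=
  ⟨h.2.1, h.1, fun p hp v w => by rw [add_comm]; exact h.2.2.1 p hp v w, h.2.2.2.2.1, h.2.2.2.1,
    fun p q hp hq e e' => h.2.2.2.2.2 p q hp hq e' e⟩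

theorem emb_small {a b ρ : ℝ} (hb : 0 < b) (hρ : 0 ≤ ρ) (h1 : ρ < a) (h2 : ρ ^ 2 < 2 * a * b) :
    ∃ F G, Emb a b ρ F G := by
  obtain ⟨F, G, hF, hG, s, x, y, i⟩ := ball_in hb hρ h1 h2
  have e : ∀ z : ℂ, z = cx z.re z.im := fun z => Complex.ext (by simp) (by simp)
  refine ⟨F, G, hF, hG, fun p _ => s p, fun p hp k l h => ?_, fun p _ => y p,
    fun p q hp hq ⟨k, l, h⟩ ⟨k', l', h'⟩ => i p q hp hq ?_ k' l' h'⟩
  · rw [e (F p)] at h
    exact not_int (x p hp).2 l (cx_lattice h).2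
  · rw [e (F p), e (F q), cx_sub] at h
    obtain ⟨r1, r2⟩ := cx_lattice h
    obtain ⟨⟨p1, p2⟩, p3⟩ := x p hp
    obtain ⟨⟨q1, q2⟩, q3⟩ := x q hq
    have k0 : k = 0 := int_zero (c := a) (by linarith) (by linarith) (by linarith)
    rw [k0] at r1
    push_cast at r1
    exact Complex.ext (by linarith) (eq_of_int p3 q3 r2)

theorem emb_big {a b ρ : ℝ} (ha : 0 < a) (h1 : b ≤ ρ) (h2 : ρ < 2 * b) (h3 : ρ ^ 2 < 2 * a * b) :
    ∃ F G, Emb a b ρ F G := by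
  obtain ⟨ε, hε, hb, f, P, Q, hf, hP, hQ, dQ, P0, fl, inj⟩ := exists_data2 ha h1 h2 h3
  obtain ⟨σ, hσ, s1, s2⟩ := exists_strip' ρ hε
  let Z : ℂ × ℂ → ℂ := fun x =>
    ph (2 * Real.pi * (-1 * (deriv f (mu x.2) * (σ x.1).im))) * x.2
  let W : ℂ × ℂ → ℂ := fun x => cx ((σ x.1).re + f (mu x.2)) (σ x.1).im
  have c1 : ∀ p : ℂ × ℂ, ContDiffAt ℝ ∞ (fun x : ℂ × ℂ => x.2) p := fun p => contDiffAt_snd
  have c2 : ∀ p : ℂ × ℂ, ContDiffAt ℝ ∞ (fun x : ℂ × ℂ => σ x.1) p := fun p =>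
    hσ.smooth.contDiffAt.comp p contDiffAt_fst
  have cZ : ∀ p, ContDiffAt ℝ ∞ Z p := fun p =>
    (cd_ph (contDiffAt_const.mul (contDiffAt_const.mul
      ((cd_fun (cd_deriv hf) (cd_mu (c1 p))).mul (cd_im (c2 p)))))).mul (c1 p)
  have cW : ∀ p, ContDiffAt ℝ ∞ W p := fun p =>
    cd_cx ((cd_re (c2 p)).add (cd_fun hf (cd_mu (c1 p)))) (cd_im (c2 p))
  have cV : ∀ p, ContDiffAt ℝ ∞ (fun x => σ (Z x)) p := fun p =>
    hσ.smooth.contDiffAt.comp p (cZ p)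
  have mZ : ∀ p, mu (Z p) = mu p.2 := fun p => mu_ph_mul _ _
  have wi : ∀ p, 0 < (W p).im ∧ (W p).im < 1 := fun p => by
    simp only [W, cx_im]; exact s1 _
  have om' : ∀ p : ℂ × ℂ, mu p.1 + mu p.2 ≤ ρ → Om ρ ε f (W p).re (σ (Z p)).re := by
    intro p hp
    have n1 := mu_nonneg p.1
    have n2 := mu_nonneg p.2
    refine ⟨mu p.2, n2, by linarith, ?_, ?_⟩
    · simp only [W, cx_re, add_sub_cancel_right]
      exact (s2 _ (by linarith)).trans (by linarith)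
    · have y := s2 (Z p) (by rw [mZ]; linarith)
      rwa [mZ] at y
  refine ⟨fun x => cx ((W x).re + P (σ (Z x)).re) ((W x).im - deriv Q (W x).re * (σ (Z x)).im),
    fun x => cx ((σ (Z x)).re + Q (W x).re) ((σ (Z x)).im - deriv P (σ (Z x)).re * (W x).im),
    contDiff_iff_contDiffAt.mpr fun p => cd_cx ((cd_re (cW p)).add (cd_fun hP (cd_re (cV p))))
      ((cd_im (cW p)).sub ((cd_fun (cd_deriv hQ) (cd_re (cW p))).mul (cd_im (cV p)))),
    contDiff_iff_contDiffAt.mpr fun p => cd_cx ((cd_re (cV p)).add (cd_fun hQ (cd_re (cW p))))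
      ((cd_im (cV p)).sub ((cd_fun (cd_deriv hP) (cd_re (cV p))).mul (cd_im (cW p)))),
    fun p hp v w => ?_, fun p hp k l h => ?_, fun p hp k l h => ?_,
    fun p q hp hq ⟨k, l, e⟩ ⟨k', l', e'⟩ => ?_⟩
  · rw [pb_shear2 hP hQ (cW p) (cV p) (fl _ _ (om' p hp)),
      pb_comp hσ.smooth.contDiffAt (hσ.symp _) (cZ p), add_comm,
      pb_twist hf (c1 p) (c2 p), pb_comp hσ.smooth.contDiffAt (hσ.symp _) contDiffAt_fst, add_comm]
    simp only [pb, fderiv_fst, fderiv_snd]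
    rfl
  · obtain ⟨r, i⟩ := cx_lattice h
    have d : deriv Q (W p).re = 0 := by
      rcases fl _ _ (om' p hp) with x | x
      · rw [(flat x).1, add_zero] at r
        rw [r, dQ]
      · exact (flat x).2.1
    rw [d, zero_mul, sub_zero] at i
    exact not_int (wi p) l i
  · obtain ⟨r, i⟩ := cx_lattice h
    have d : deriv P (σ (Z p)).re = 0 := by
      rcases fl _ _ (om' p hp) with x | x
      · exact (flat x).2.1
      · rw [(flat x).1, add_zero] at r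
        obtain ⟨m, m0, m1, -, y⟩ := om' p hp
        obtain ⟨y1, y2⟩ := abs_le.mp y
        have k0 : k = 0 := int_zero (c := b) (by linarith) (by linarith) (by linarith)
        rw [r, k0]
        simpa using (flat P0).2.1
    rw [d, zero_mul, sub_zero] at i
    exact not_int (s1 _) l i
  · beta_reduce at e e'
    rw [cx_sub] at e e'
    obtain ⟨r, i⟩ := cx_lattice e
    obtain ⟨r', i'⟩ := cx_lattice e'
    obtain ⟨x, y⟩ := inj _ _ _ _ (om' p hp) (om' q hq) k k' (by linarith) (by linarith)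
    rw [← x] at i
    rw [← y] at i'
    have key : (W p).im = (W q).im ∧ (σ (Z p)).im = (σ (Z q)).im := by
      rcases fl _ _ (om' p hp) with t | t
      · rw [(flat t).2.1] at i'
        have u := eq_of_int (s1 (Z p)) (s1 (Z q)) (l := l') (by linarith)
        rw [← u] at i
        exact ⟨eq_of_int (wi p) (wi q) (l := l) (by linarith), u⟩
      · rw [(flat t).2.1] at i
        have u := eq_of_int (wi p) (wi q) (l := l) (by linarith)
        rw [← u] at i'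
        exact ⟨u, eq_of_int (s1 (Z p)) (s1 (Z q)) (l := l') (by linarith)⟩
    have z : Z p = Z q := hσ.inj (Complex.ext y key.2)
    have m : mu p.2 = mu q.2 := by rw [← mZ, ← mZ, z]
    have y' := key.1
    simp only [W, cx_im] at y'
    simp only [W, cx_re, m] at x
    have s : p.1 = q.1 := hσ.inj (Complex.ext (by linarith) y')
    simp only [Z, m, s] at z
    exact Prod.ext s (mul_left_cancel₀ (ph_ne_zero _) z)

theorem emb_all {a b ρ : ℝ} (ha : 0 < a) (hb : 0 < b) (hρ : 0 ≤ ρ) (h : ρ ^ 2 < 2 * a * b) :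
    ∃ F G, Emb a b ρ F G := by
  rcases lt_or_ge ρ a with h1 | h1
  · exact emb_small hb hρ h1 h
  rcases lt_or_ge ρ b with h2 | h2
  · obtain ⟨F, G, e⟩ := emb_small ha hρ h2 (by linarith)
    exact ⟨G, F, e.swap⟩
  · exact emb_big ha h2 (by nlinarith) h

end Pool.Agent.Lib.BallPT
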