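import Pool.Agent.Lib.MP_d7b9cc_gt.Defs

/-! Area preserving maps of the plane from pairs of maps with the same Jacobian. -/

open scoped ContDiff
open Filter Topology

namespace Pool.Agent.Lib.BallT6

/-- The planar map with real part `A` and imaginary part `B`. -/
noncomputable def mk2 (A B : ℂ → ℝ) (z : ℂ) : ℂ := (A z : ℂ) + (B z : ℂ) * Complex.I

theorem mk2_re (A B : ℂ → ℝ) (z : ℂ) : (mk2 A B z).re = A z := by simp [mk2]

theorem mk2_im (A B : ℂ → ℝ) (z : ℂ) : (mk2 A B z).im = B z := by simp [mk2]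

/-- A smooth planar map with Jacobian determinant `J`. -/
structure Jac (f : ℂ → ℂ) (J : ℂ → ℝ) : Prop where
  smooth : ContDiff ℝ ∞ f
  jac : ∀ z v w, om (fderiv ℝ f z v) (fderiv ℝ f z w) = J z * om v w

/-- `A` has partial derivatives `a`, `b` at `z`. -/
def HasPD (A : ℂ → ℝ) (a b : ℝ) (z : ℂ) : Prop :=
  ∃ D : ℂ →L[ℝ] ℝ, HasFDerivAt A D z ∧ ∀ v : ℂ, D v = a * v.re + b * v.im

theorem hasPD_re {F : ℝ → ℝ} {a : ℝ} {z : ℂ} (h : HasDerivAt F a z.re) :
    HasPD (fun x => F x.re) a 0 z :=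
  ⟨_, HasDerivAt.comp_hasFDerivAt (f := fun x : ℂ => x.re) z h Complex.reCLM.hasFDerivAt,
    fun v => by simp⟩

theorem hasPD_im {F : ℝ → ℝ} {a : ℝ} {z : ℂ} (h : HasDerivAt F a z.im) :
    HasPD (fun x => F x.im) 0 a z :=
  ⟨_, HasDerivAt.comp_hasFDerivAt (f := fun x : ℂ => x.im) z h Complex.imCLM.hasFDerivAt,
    fun v => by simp⟩

theorem HasPD.add {A B : ℂ → ℝ} {a b c d : ℝ} {z : ℂ} (h : HasPD A a b z) (k : HasPD B c d z) :
    HasPD (fun x => A x + B x) (a + c) (b + d) z := by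
  obtain ⟨D, hD, e⟩ := h
  obtain ⟨D', hD', e'⟩ := k
  exact ⟨_, hD.add hD', fun v => by simp [e, e']; ring⟩

theorem HasPD.mul {A B : ℂ → ℝ} {a b c d : ℝ} {z : ℂ} (h : HasPD A a b z) (k : HasPD B c d z) :
    HasPD (fun x => A x * B x) (a * B z + A z * c) (b * B z + A z * d) z := by
  obtain ⟨D, hD, e⟩ := h
  obtain ⟨D', hD', e'⟩ := k
  exact ⟨_, hD.mul hD', fun v => by simp [e, e']; ring⟩

theorem jac_mk2 {A B J : ℂ → ℝ} (hA : ContDiff ℝ ∞ A) (hB : ContDiff ℝ ∞ B)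
    (h : ∀ z, ∃ a b c d, HasPD A a b z ∧ HasPD B c d z ∧ a * d - b * c = J z) :
    Jac (mk2 A B) J := by
  refine ⟨(Complex.ofRealCLM.contDiff.comp hA).add
    ((Complex.ofRealCLM.contDiff.comp hB).mul contDiff_const), fun z v w => ?_⟩
  obtain ⟨a, b, c, d, ⟨D, hD, e⟩, ⟨D', hD', e'⟩, hJ⟩ := h z
  have dd : HasFDerivAt (mk2 A B) _ z := (Complex.ofRealCLM.hasFDerivAt.comp z hD).add
    ((Complex.ofRealCLM.hasFDerivAt.comp z hD').mul_const Complex.I)
  rw [dd.fderiv, ← hJ]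
  simp [om, e, e']
  ring

theorem contDiff_invFun {g : ℂ → ℂ} {J : ℂ → ℝ} (hg : Jac g J) (hJ : ∀ z, J z ≠ 0)
    (hb : Function.Bijective g) : ContDiff ℝ ∞ (Function.invFun g) := by
  rw [contDiff_iff_contDiffAt]
  intro y
  obtain ⟨z, rfl⟩ := hb.2 y
  have hinj : Function.Injective (fderiv ℝ g z : ℂ →ₗ[ℝ] ℂ) := by
    rw [injective_iff_map_eq_zero]
    intro v hv
    have hv' : fderiv ℝ g z v = 0 := hv
    have h1 := hg.jac z v 1
    have h2 := hg.jac z v Complex.I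
    rw [hv'] at h1 h2
    simp [om, hJ z] at h1 h2
    exact Complex.ext h2 h1
  let e : ℂ ≃L[ℝ] ℂ := (LinearEquiv.ofInjectiveEndo _ hinj).toContinuousLinearEquiv
  have he : (e : ℂ →L[ℝ] ℂ) = fderiv ℝ g z := by
    ext v
    · rfl
  have hd : HasFDerivAt g (e : ℂ →L[ℝ] ℂ) z := by
    rw [he]; exact (hg.smooth.differentiable (by simp) z).hasFDerivAt
  have hc : ContDiffAt ℝ ∞ g z := hg.smooth.contDiffAt
  have hn : (∞ : WithTop ℕ∞) ≠ 0 := by simp
  refine (hc.to_localInverse hd hn).congr_of_eventuallyEq ?_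
  have hr := (hc.hasStrictFDerivAt' hd hn).eventually_right_inverse
  refine hr.mono fun y hy => hb.1 ?_
  rw [Function.rightInverse_invFun hb.2 y]
  exact hy.symm

theorem planar_of_jac {f g : ℂ → ℂ} {J : ℂ → ℝ} (hf : Jac f J) (hg : Jac g J)
    (hJ : ∀ z, J z ≠ 0) (hi : Function.Injective f) (hb : Function.Bijective g) :
    Planar (f ∘ Function.invFun g) := by
  have hk := contDiff_invFun hg hJ hb
  have hr := Function.rightInverse_invFun hb.2
  refine ⟨hf.smooth.comp hk, hi.comp hr.injective, fun z v w => ?_⟩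
  have hid : g ∘ Function.invFun g = id := funext hr
  have h1 := fderiv_comp z (hg.smooth.differentiable (by simp) (Function.invFun g z))
    (hk.differentiable (by simp) z)
  rw [hid, fderiv_id] at h1
  have h2 : ∀ v, fderiv ℝ g (Function.invFun g z) (fderiv ℝ (Function.invFun g) z v) = v :=
    fun v => (congrArg (fun L : ℂ →L[ℝ] ℂ => L v) h1).symm
  rw [fderiv_comp z (hf.smooth.differentiable (by simp) _) (hk.differentiable (by simp) z)]
  simp only [ContinuousLinearMap.coe_comp, Function.comp_apply]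
  rw [hf.jac, ← hg.jac, h2, h2]

end Pool.Agent.Lib.BallT6
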