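import Pool.Agent.Lib.MP_d7b9cc_gt.K1

/-! The embedding of the four dimensional ball: injectivity on the base and a cut level. -/

open scoped ContDiff
open Filter Topology
open Pool.Agent.Lib.BallT6

namespace Pool.Agent.Lib.BallPT

theorem exists_data3 {a b ρ : ℝ} (ha : 0 < a) (h1 : b ≤ ρ) (h2 : ρ < 2 * b)
    (h3 : ρ ^ 2 < 2 * a * b) : ∃ ε : ℝ, 0 < ε ∧ ρ / 2 + ε < b ∧
    ∃ f P Q : ℝ → ℝ, ContDiff ℝ ∞ f ∧ ContDiff ℝ ∞ P ∧ ContDiff ℝ ∞ Q ∧
      (∀ k : ℤ, deriv Q (k * a) = 0) ∧ (∀ᶠ y in 𝓝 (0 : ℝ), P y = 0) ∧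
      (∀ x y, Om ρ ε f x y → (∀ᶠ y' in 𝓝 y, P y' = 0) ∨ ∀ᶠ x' in 𝓝 x, Q x' = 0) ∧
      (∃ c d : ℝ, ∀ x y, Om ρ ε f x y → ∀ l : ℤ, y + Q x = c + l * b →
        (∀ᶠ x' in 𝓝 x, Q x' = 0) ∧ d < x + P y ∧ x + P y < d + a) ∧
      ∀ x y x' y', Om ρ ε f x y → Om ρ ε f x' y' → ∀ k l : ℤ, x' + P y' = x + P y + k * a →
        y' + Q x' = y + Q x + l * b → x = x' ∧ y = y' := by
  obtain ⟨N, hN, m1, m2⟩ := exists_mesh2 h2 h3
  have hNr : (0 : ℝ) < N := by exact_mod_cast hN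
  obtain ⟨h, hh⟩ : ∃ h, h = a / N := ⟨_, rfl⟩
  rw [← hh] at m1 m2
  have h0 : 0 < h := by rw [hh]; positivity
  have haN : a = N * h := by rw [hh]; field_simp
  obtain ⟨f, P, Q, cf, cP, cQ, dQ, P0, fl, ⟨c, d, cut⟩, inj⟩ := unit_data2 N (b := b / h) (ρ := ρ / h)
    (by gcongr) (by
      rw [div_add' _ _ _ h0.ne', ← mul_div_assoc]; gcongr) (by
      refine lt_of_mul_lt_mul_right (a := h ^ 2) ?_ (by positivity)
      rw [haN] at m2
      rw [show (2 * (b / h) - ρ / h) ^ 2 * h ^ 2 = (2 * b - ρ) ^ 2 by field_simp,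
        show 2 * (b / h - 2) * (N - 2 * (ρ / h) + 2 * (b / h) - 31) * h ^ 2 =
          2 * (b - 2 * h) * (N * h - 2 * ρ + 2 * b - 31 * h) by field_simp]
      exact m2)
  have sm : ∀ B : ℝ → ℝ, ContDiff ℝ ∞ B → ContDiff ℝ ∞ fun X : ℝ => h * B (X / h) := fun B hB =>
    contDiff_const.mul (hB.comp (contDiff_id.div_const h))
  have ev : ∀ (B : ℝ → ℝ) (t : ℝ), (∀ᶠ y in 𝓝 (t / h), B y = 0) →
      ∀ᶠ y in 𝓝 t, h * B (y / h) = 0 := fun B t hB =>
    (((continuous_id.div_const h).tendsto t).eventually hB).mono fun y hy => by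
      rw [show B (y / h) = 0 from hy, mul_zero]
  have om : ∀ x y, Om ρ h (fun m => h * f (m / h)) x y → Om (ρ / h) 1 f (x / h) (y / h) := by
    rintro x y ⟨m, m0, m1, p1, p2⟩
    refine ⟨m / h, by positivity, by gcongr, ?_, ?_⟩
    · rw [show x / h - f (m / h) = (x - h * f (m / h)) / h by field_simp, abs_div, abs_of_pos h0,
        div_le_iff₀ h0]
      exact p1.trans_eq (by field_simp)
    · rw [abs_div, abs_of_pos h0, div_le_iff₀ h0]
      exact p2.trans_eq (by field_simp)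
  refine ⟨h, h0, by linarith, fun m => h * f (m / h), fun y => h * P (y / h),
    fun x => h * Q (x / h), sm f cf, sm P cP, sm Q cQ, fun k => ?_, ev P 0 (by rwa [zero_div]),
    fun x y o => (fl _ _ (om _ _ o)).imp (ev P y) (ev Q x), ⟨h * c, h * d, fun x y o l e => ?_⟩,
    fun x y x' y' o o' k l e e' => ?_⟩
  · have d := dQ (k * N)
    have e : ((k * N : ℤ) : ℝ) = k * a / h := by rw [haN]; push_cast; field_simp
    rw [e] at d
    have d2 : HasDerivAt (fun X : ℝ => Q (X / h)) (0 * (1 / h)) (k * a) :=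
      HasDerivAt.comp (h := fun X : ℝ => X / h) (k * a : ℝ) d ((hasDerivAt_id' _).div_const h)
    simpa using (d2.const_mul h).deriv
  · obtain ⟨r0, r1, r2⟩ := cut _ _ (om _ _ o) l (by
      field_simp
      linarith)
    have r3 := mul_lt_mul_of_pos_left r1 h0
    have r4 := mul_lt_mul_of_pos_left r2 h0
    have r5 : h * (x / h) = x := by field_simp
    refine ⟨ev Q x r0, ?_, ?_⟩ <;> beta_reduce <;> nlinarith
  · obtain ⟨r1, r2⟩ := inj _ _ _ _ (om _ _ o) (om _ _ o') k l (by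
      rw [haN] at e
      field_simp
      linarith) (by
      field_simp
      linarith)
    exact ⟨(div_left_inj' h0.ne').mp r1, (div_left_inj' h0.ne').mp r2⟩

theorem ball_in2 {a b ρ : ℝ} (hb : 0 < b) (hρ : 0 ≤ ρ) (h1 : ρ < a) (h2 : ρ ^ 2 < 2 * a * b) :
    ∃ F G : ℂ × ℂ → ℂ, ContDiff ℝ ∞ F ∧ ContDiff ℝ ∞ G ∧
      (∀ p v w, pb F p v w + pb G p v w = om v.1 w.1 + om v.2 w.2) ∧
      (∀ p, mu p.1 + mu p.2 ≤ ρ → (F p).re ∈ Set.Ioo 0 a ∧ (F p).im ∈ Set.Ioo (0 : ℝ) 1) ∧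
      (∀ p (k l : ℤ), G p ≠ k * b + l * Complex.I) ∧
      (∀ p q, mu p.1 + mu p.2 ≤ ρ → mu q.1 + mu q.2 ≤ ρ → (F p).re = (F q).re →
        ∀ k : ℤ, (G q).re - (G p).re = k * b → k = 0) ∧
      ∀ p q, mu p.1 + mu p.2 ≤ ρ → mu q.1 + mu q.2 ≤ ρ → F p = F q →
        ∀ k l : ℤ, G q - G p = k * b + l * Complex.I → p = q := by
  obtain ⟨ε, hε, f, A, hf, hA, dA, bA, mA, key⟩ := exists_data hb hρ h1 h2
  obtain ⟨σ, hσ, s1, s2⟩ := exists_strip' ρ hε
  let P : ℝ → ℝ := fun X => (A X + A (X + b)) / 2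
  have hA' : ContDiff ℝ ∞ fun X => A (X + b) := hA.comp (contDiff_id.add contDiff_const)
  have hP : ContDiff ℝ ∞ P := (hA.add hA').div_const 2
  have dP : ∀ k : ℤ, deriv P (k * b) = 0 := fun k => by
    have d1 := (hA.differentiable (by simp) (k * b)).hasDerivAt
    have d2 := (hA'.differentiable (by simp) (k * b)).hasDerivAt
    have e := dA (k + 1)
    rw [deriv_comp_add_const, show (k : ℝ) * b + b = ((k + 1 : ℤ) : ℝ) * b by push_cast; ring,
      e] at d2
    rw [dA] at d1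
    exact ((d1.fun_add d2).div_const 2).deriv.trans (by norm_num)
  let Z : ℂ × ℂ → ℂ := fun x =>
    ph (2 * Real.pi * (-1 * (deriv f (mu x.1) * (σ x.2).im))) * x.1
  let W : ℂ × ℂ → ℂ := fun x => cx ((σ x.2).re + f (mu x.1)) (σ x.2).im
  have c1 : ∀ p : ℂ × ℂ, ContDiffAt ℝ ∞ (fun x : ℂ × ℂ => x.1) p := fun p => contDiffAt_fst
  have c2 : ∀ p : ℂ × ℂ, ContDiffAt ℝ ∞ (fun x : ℂ × ℂ => σ x.2) p := fun p =>
    hσ.smooth.contDiffAt.comp p contDiffAt_snd
  have cZ : ∀ p, ContDiffAt ℝ ∞ Z p := fun p =>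
    (cd_ph (contDiffAt_const.mul (contDiffAt_const.mul
      ((cd_fun (cd_deriv hf) (cd_mu (c1 p))).mul (cd_im (c2 p)))))).mul (c1 p)
  have cW : ∀ p, ContDiffAt ℝ ∞ W p := fun p =>
    cd_cx ((cd_re (c2 p)).add (cd_fun hf (cd_mu (c1 p)))) (cd_im (c2 p))
  have cV : ∀ p, ContDiffAt ℝ ∞ (fun x => σ (Z x)) p := fun p =>
    hσ.smooth.contDiffAt.comp p (cZ p)
  have mZ : ∀ p, mu (Z p) = mu p.1 := fun p => mu_ph_mul _ _
  have row : ∀ p : ℂ × ℂ, mu p.1 + mu p.2 ≤ ρ → A (W p).re < (σ (Z p)).re + P (W p).re ∧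
      (σ (Z p)).re + P (W p).re < A ((W p).re + b) := by
    intro p hp
    have n1 := mu_nonneg p.1
    have n2 := mu_nonneg p.2
    have x := key (mu p.1) (σ p.2).re n1 (by linarith) ((s2 _ (by linarith)).trans (by linarith))
    have y := abs_le.mp (s2 (Z p) (by rw [mZ]; linarith))
    rw [mZ] at y
    simp only [W, P, cx_re]
    constructor <;> linarith [y.1, y.2]
  have base : ∀ p q : ℂ × ℂ, mu p.1 + mu p.2 ≤ ρ → mu q.1 + mu q.2 ≤ ρ →
      (σ (Z p)).re + P (W p).re = (σ (Z q)).re + P (W q).re →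
      ∀ k : ℤ, (W q).re - (W p).re = k * b → k = 0 := by
    intro p q hp hq r1 k r
    obtain ⟨p1, p2⟩ := row p hp
    obtain ⟨q1, q2⟩ := row q hq
    rcases lt_trichotomy k 0 with h | h | h
    · obtain ⟨j, rfl⟩ : ∃ j : ℕ, k = -(j + 1) := ⟨(-k - 1).toNat, by omega⟩
      have := steps mA (W q).re j
      rw [show (W q).re + (j + 1) * b = (W p).re by push_cast at r; linarith] at this
      linarith
    · exact h
    · obtain ⟨j, rfl⟩ : ∃ j : ℕ, k = j + 1 := ⟨(k - 1).toNat, by omega⟩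
      have := steps mA (W p).re j
      rw [show (W p).re + (j + 1) * b = (W q).re by push_cast at r; linarith] at this
      linarith
  refine ⟨fun x => cx ((σ (Z x)).re + P (W x).re) (σ (Z x)).im,
    fun x => cx (W x).re ((W x).im - deriv P (W x).re * (σ (Z x)).im),
    contDiff_iff_contDiffAt.mpr fun p => cd_cx ((cd_re (cV p)).add (cd_fun hP (cd_re (cW p))))
      (cd_im (cV p)),
    contDiff_iff_contDiffAt.mpr fun p => cd_cx (cd_re (cW p)) ((cd_im (cW p)).sub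
      ((cd_fun (cd_deriv hP) (cd_re (cW p))).mul (cd_im (cV p)))),
    fun p v w => ?_, fun p hp => ?_, fun p k l h => ?_, fun p q hp hq e k e' => ?_,
    fun p q hp hq e k l e' => ?_⟩
  · rw [pb_shear hP (cV p) (cW p), pb_comp hσ.smooth.contDiffAt (hσ.symp _) (cZ p),
      pb_twist hf (c1 p) (c2 p), pb_comp hσ.smooth.contDiffAt (hσ.symp _) contDiffAt_snd]
    simp only [pb, fderiv_fst, fderiv_snd]
    rfl
  · have := row p hp
    have := (bA (W p).re).1
    have := (bA ((W p).re + b)).2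
    simp only [cx_re, cx_im, Set.mem_Ioo]
    exact ⟨⟨by linarith, by linarith⟩, s1 _⟩
  · have r := (cx_re (W p).re _).symm.trans (congrArg Complex.re h)
    have i := (cx_im (W p).re _).symm.trans (congrArg Complex.im h)
    simp only [Complex.add_re, Complex.add_im, Complex.mul_re, Complex.mul_im, Complex.intCast_re,
      Complex.intCast_im, Complex.ofReal_re, Complex.ofReal_im, Complex.I_re, Complex.I_im,
      mul_zero, mul_one, zero_mul, sub_zero, add_zero, zero_add] at r i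
    rw [r, dP, zero_mul, sub_zero] at i
    obtain ⟨y1, y2⟩ := s1 p.2
    simp only [W, cx_im] at i
    rw [i] at y1 y2
    have : (0 : ℤ) < l := by exact_mod_cast y1
    have : l < (1 : ℤ) := by exact_mod_cast y2
    omega
  · simp only [cx_re (_ + P _)] at e
    rw [cx_re (W q).re, cx_re (W p).re] at e'
    exact base p q hp hq e k e'
  · have r := congrArg Complex.re e'
    have i := congrArg Complex.im e'
    have r1 := (cx_re _ _).symm.trans ((congrArg Complex.re e).trans (cx_re _ _))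
    have i1 := (cx_im _ _).symm.trans ((congrArg Complex.im e).trans (cx_im _ _))
    rw [Complex.sub_re, cx_re (W q).re, cx_re (W p).re] at r
    rw [Complex.sub_im, cx_im (W q).re, cx_im (W p).re] at i
    simp only [Complex.add_re, Complex.add_im, Complex.mul_re, Complex.mul_im, Complex.intCast_re,
      Complex.intCast_im, Complex.ofReal_re, Complex.ofReal_im, Complex.I_re, Complex.I_im,
      mul_zero, mul_one, zero_mul, sub_zero, add_zero, zero_add] at r i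
    have k0 : k = 0 := base p q hp hq r1 k r
    have x : (W q).re = (W p).re := by rw [k0] at r; simpa [sub_eq_zero] using r
    rw [x] at r1 i
    rw [← i1] at i
    have y : (σ q.2).im - (σ p.2).im = l := by simp only [W, cx_im] at i; linarith
    obtain ⟨y1, y2⟩ := s1 p.2
    obtain ⟨y3, y4⟩ := s1 q.2
    have l1 : (-1 : ℤ) < l := by exact_mod_cast (by linarith : (-1 : ℝ) < l)
    have l2 : l < (1 : ℤ) := by exact_mod_cast (by linarith : (l : ℝ) < 1)
    have l0 : l = 0 := by omega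
    have z : Z p = Z q := hσ.inj (Complex.ext (by linarith) i1)
    have m : mu p.1 = mu q.1 := by rw [← mZ, ← mZ, z]
    have y' : (σ p.2).im = (σ q.2).im := by rw [l0] at y; push_cast at y; linarith
    simp only [W, cx_re, m] at x
    have s : p.2 = q.2 := hσ.inj (Complex.ext (by linarith) y')
    simp only [Z, m, s] at z
    exact Prod.ext (mul_left_cancel₀ (ph_ne_zero _) z) s

/-- The conclusion with injectivity on the base and a cut level. -/
def Emb2 (a b ρ : ℝ) (F G : ℂ × ℂ → ℂ) : Prop :=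
  Emb a b ρ F G ∧
    (∀ p q, mu p.1 + mu p.2 ≤ ρ → mu q.1 + mu q.2 ≤ ρ → ∀ k l : ℤ,
      (F q).re - (F p).re = k * a → (G q).re - (G p).re = l * b → k = 0 ∧ l = 0) ∧
    ∃ c d : ℝ, ∀ p, mu p.1 + mu p.2 ≤ ρ → ∀ l : ℤ, (G p).re = c + l * b →
      d < (F p).re ∧ (F p).re < d + a ∧ 0 < (F p).im ∧ (F p).im < 1

theorem emb_small2 {a b ρ : ℝ} (hb : 0 < b) (hρ : 0 ≤ ρ) (h1 : ρ < a) (h2 : ρ ^ 2 < 2 * a * b) :
    ∃ F G, Emb a b ρ F G ∧
      (∀ p q, mu p.1 + mu p.2 ≤ ρ → mu q.1 + mu q.2 ≤ ρ → ∀ k l : ℤ,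
        (F q).re - (F p).re = k * a → (G q).re - (G p).re = l * b → k = 0 ∧ l = 0) ∧
      ∀ p, mu p.1 + mu p.2 ≤ ρ → (F p).re ∈ Set.Ioo 0 a ∧ (F p).im ∈ Set.Ioo (0 : ℝ) 1 := by
  obtain ⟨F, G, hF, hG, s, x, y, base, i⟩ := ball_in2 hb hρ h1 h2
  have e : ∀ z : ℂ, z = cx z.re z.im := fun z => Complex.ext (by simp) (by simp)
  have k0 : ∀ p q : ℂ × ℂ, mu p.1 + mu p.2 ≤ ρ → mu q.1 + mu q.2 ≤ ρ → ∀ k : ℤ,
      (F q).re - (F p).re = k * a → k = 0 := fun p q hp hq k r1 => by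
    obtain ⟨⟨p1, p2⟩, -⟩ := x p hp
    obtain ⟨⟨q1, q2⟩, -⟩ := x q hq
    exact int_zero (c := a) (by linarith) (by linarith) (by linarith)
  refine ⟨F, G, ⟨hF, hG, fun p _ => s p, fun p hp k l h => ?_, fun p _ => y p,
    fun p q hp hq ⟨k, l, h⟩ ⟨k', l', h'⟩ => i p q hp hq ?_ k' l' h'⟩,
    fun p q hp hq k l r r' => ?_, x⟩
  · rw [e (F p)] at h
    exact not_int (x p hp).2 l (cx_lattice h).2
  · rw [e (F p), e (F q), cx_sub] at h
    obtain ⟨r1, r2⟩ := cx_lattice h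
    rw [k0 p q hp hq k r1] at r1
    push_cast at r1
    exact Complex.ext (by linarith) (eq_of_int (x p hp).2 (x q hq).2 r2)
  · have := k0 p q hp hq k r
    refine ⟨this, base p q hp hq ?_ l r'⟩
    rw [this] at r
    push_cast at r
    linarith

theorem emb_big2 {a b ρ : ℝ} (ha : 0 < a) (h1 : b ≤ ρ) (h2 : ρ < 2 * b) (h3 : ρ ^ 2 < 2 * a * b) :
    ∃ F G, Emb2 a b ρ F G := by
  obtain ⟨ε, hε, hb, f, P, Q, hf, hP, hQ, dQ, P0, fl, ⟨c, d, cut⟩, inj⟩ := exists_data3 ha h1 h2 h3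
  obtain ⟨σ, hσ, s1, s2⟩ := exists_strip' ρ hε
  let Z : ℂ × ℂ → ℂ := fun x =>
    ph (2 * Real.pi * (-1 * (deriv f (mu x.2) * (σ x.1).im))) * x.2
  let W : ℂ × ℂ → ℂ := fun x => cx ((σ x.1).re + f (mu x.2)) (σ x.1).im
  have c1 : ∀ p : ℂ × ℂ, ContDiffAt ℝ ∞ (fun x : ℂ × ℂ => x.2) p := fun p => contDiffAt_snd
  have c2 : ∀ p : ℂ × ℂ, ContDiffAt ℝ ∞ (fun x : ℂ × ℂ => σ x.1) p := fun p =>
    hσ.smooth.contDiffAt.comp p contDiffAt_fst
  have cZ : ∀ p, ContDiffAt ℝ ∞ Z p := fun p =>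
    (cd_ph (contDiffAt_const.mul (contDiffAt_const.mul
      ((cd_fun (cd_deriv hf) (cd_mu (c1 p))).mul (cd_im (c2 p)))))).mul (c1 p)
  have cW : ∀ p, ContDiffAt ℝ ∞ W p := fun p =>
    cd_cx ((cd_re (c2 p)).add (cd_fun hf (cd_mu (c1 p)))) (cd_im (c2 p))
  have cV : ∀ p, ContDiffAt ℝ ∞ (fun x => σ (Z x)) p := fun p =>
    hσ.smooth.contDiffAt.comp p (cZ p)
  have mZ : ∀ p, mu (Z p) = mu p.2 := fun p => mu_ph_mul _ _
  have wi : ∀ p, 0 < (W p).im ∧ (W p).im < 1 := fun p => by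
    simp only [W, cx_im]; exact s1 _
  have om' : ∀ p : ℂ × ℂ, mu p.1 + mu p.2 ≤ ρ → Om ρ ε f (W p).re (σ (Z p)).re := by
    intro p hp
    have n1 := mu_nonneg p.1
    have n2 := mu_nonneg p.2
    refine ⟨mu p.2, n2, by linarith, ?_, ?_⟩
    · simp only [W, cx_re, add_sub_cancel_right]
      exact (s2 _ (by linarith)).trans (by linarith)
    · have y := s2 (Z p) (by rw [mZ]; linarith)
      rwa [mZ] at y
  refine ⟨fun x => cx ((W x).re + P (σ (Z x)).re) ((W x).im - deriv Q (W x).re * (σ (Z x)).im),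
    fun x => cx ((σ (Z x)).re + Q (W x).re) ((σ (Z x)).im - deriv P (σ (Z x)).re * (W x).im),
    ⟨contDiff_iff_contDiffAt.mpr fun p => cd_cx ((cd_re (cW p)).add (cd_fun hP (cd_re (cV p))))
      ((cd_im (cW p)).sub ((cd_fun (cd_deriv hQ) (cd_re (cW p))).mul (cd_im (cV p)))),
    contDiff_iff_contDiffAt.mpr fun p => cd_cx ((cd_re (cV p)).add (cd_fun hQ (cd_re (cW p))))
      ((cd_im (cV p)).sub ((cd_fun (cd_deriv hP) (cd_re (cV p))).mul (cd_im (cW p)))),
    fun p hp v w => ?_, fun p hp k l h => ?_, fun p hp k l h => ?_,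
    fun p q hp hq ⟨k, l, e⟩ ⟨k', l', e'⟩ => ?_⟩, fun p q hp hq k l r r' => ?_,
    c, d, fun p hp l r => ?_⟩
  · rw [pb_shear2 hP hQ (cW p) (cV p) (fl _ _ (om' p hp)),
      pb_comp hσ.smooth.contDiffAt (hσ.symp _) (cZ p), add_comm,
      pb_twist hf (c1 p) (c2 p), pb_comp hσ.smooth.contDiffAt (hσ.symp _) contDiffAt_fst, add_comm]
    simp only [pb, fderiv_fst, fderiv_snd]
    rfl
  · obtain ⟨r, i⟩ := cx_lattice h
    have d : deriv Q (W p).re = 0 := by
      rcases fl _ _ (om' p hp) with x | x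
      · rw [(flat x).1, add_zero] at r
        rw [r, dQ]
      · exact (flat x).2.1
    rw [d, zero_mul, sub_zero] at i
    exact not_int (wi p) l i
  · obtain ⟨r, i⟩ := cx_lattice h
    have d : deriv P (σ (Z p)).re = 0 := by
      rcases fl _ _ (om' p hp) with x | x
      · exact (flat x).2.1
      · rw [(flat x).1, add_zero] at r
        obtain ⟨m, m0, m1, -, y⟩ := om' p hp
        obtain ⟨y1, y2⟩ := abs_le.mp y
        have k0 : k = 0 := int_zero (c := b) (by linarith) (by linarith) (by linarith)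
        rw [r, k0]
        simpa using (flat P0).2.1
    rw [d, zero_mul, sub_zero] at i
    exact not_int (s1 _) l i
  · beta_reduce at e e'
    rw [cx_sub] at e e'
    obtain ⟨r, i⟩ := cx_lattice e
    obtain ⟨r', i'⟩ := cx_lattice e'
    obtain ⟨x, y⟩ := inj _ _ _ _ (om' p hp) (om' q hq) k k' (by linarith) (by linarith)
    rw [← x] at i
    rw [← y] at i'
    have key : (W p).im = (W q).im ∧ (σ (Z p)).im = (σ (Z q)).im := by
      rcases fl _ _ (om' p hp) with t | t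
      · rw [(flat t).2.1] at i'
        have u := eq_of_int (s1 (Z p)) (s1 (Z q)) (l := l') (by linarith)
        rw [← u] at i
        exact ⟨eq_of_int (wi p) (wi q) (l := l) (by linarith), u⟩
      · rw [(flat t).2.1] at i
        have u := eq_of_int (wi p) (wi q) (l := l) (by linarith)
        rw [← u] at i'
        exact ⟨u, eq_of_int (s1 (Z p)) (s1 (Z q)) (l := l') (by linarith)⟩
    have z : Z p = Z q := hσ.inj (Complex.ext y key.2)
    have m : mu p.2 = mu q.2 := by rw [← mZ, ← mZ, z]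
    have y' := key.1
    simp only [W, cx_im] at y'
    simp only [W, cx_re, m] at x
    have s : p.1 = q.1 := hσ.inj (Complex.ext (by linarith) y')
    simp only [Z, m, s] at z
    exact Prod.ext s (mul_left_cancel₀ (ph_ne_zero _) z)
  · simp only [cx_re (_ + _)] at r r'
    obtain ⟨x, y⟩ := inj _ _ _ _ (om' p hp) (om' q hq) k l (by linarith) (by linarith)
    rw [x, y, sub_self] at r r'
    have b0 : 0 < b := by nlinarith
    exact ⟨int_zero ha (by linarith) (by linarith), int_zero b0 (by linarith) (by linarith)⟩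
  · simp only [cx_re (_ + _)] at r
    obtain ⟨x, y⟩ := cut _ _ (om' p hp) l r
    simp only [cx_re (_ + P _), cx_im (_ + P _), (flat x).2.1, zero_mul, sub_zero]
    exact ⟨y.1, y.2, wi p⟩

theorem emb_all2 {a b ρ : ℝ} (ha : 0 < a) (hb : 0 < b) (hρ : 0 ≤ ρ) (h : ρ ^ 2 < 2 * a * b) :
    ∃ F G, Emb2 a b ρ F G := by
  rcases lt_or_ge ρ a with h1 | h1
  · obtain ⟨F, G, e, base, x⟩ := emb_small2 hb hρ h1 h
    exact ⟨F, G, e, base, 0, 0, fun p hp _ _ =>
      ⟨(x p hp).1.1, by simpa using (x p hp).1.2, (x p hp).2⟩⟩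
  rcases lt_or_ge ρ b with h2 | h2
  · obtain ⟨F, G, e, base, x⟩ := emb_small2 ha hρ h2 (by linarith)
    refine ⟨G, F, e.swap, fun p q hp hq k l r r' => (base p q hp hq l k r' r).symm, 0, 0,
      fun p hp l r => ?_⟩
    obtain ⟨p1, p2⟩ := (x p hp).1
    have l0 : l = 0 := int_zero hb (by linarith) (by linarith)
    rw [l0] at r
    push_cast at r
    linarith
  · exact emb_big2 ha h2 (by nlinarith) h

end Pool.Agent.Lib.BallPT
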