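import Pool.Agent.Lib.MP_d7b9cc_gt.K2

/-! The ball in a Lagrangian torus bundle over a torus: injectivity on the base modulo any
lattice. -/

open scoped ContDiff
open Pool.Agent.Lib.BallT6

namespace Pool.Agent.Lib.BallPT

/-- The wedge product of two differentials. -/
noncomputable def wd (f g : ℂ × ℂ → ℝ) (p v w : ℂ × ℂ) : ℝ :=
  dv f p v * dv g p w - dv g p v * dv f p w

/-- The ball of capacity `ρ` in action and angle coordinates, injective on the base modulo the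
lattice spanned by the columns of the matrix with rows `(α, β)`, `(γ, δ)`. -/
def Lag (α β γ δ ρ : ℝ) : Prop :=
  ∃ x₁ x₂ y₁ y₂ : ℂ × ℂ → ℝ, ContDiff ℝ ∞ x₁ ∧ ContDiff ℝ ∞ x₂ ∧ ContDiff ℝ ∞ y₁ ∧
    ContDiff ℝ ∞ y₂ ∧
    (∀ p, mu p.1 + mu p.2 ≤ ρ → ∀ v w, α * wd x₁ y₁ p v w + β * wd x₂ y₁ p v w +
      γ * wd x₁ y₂ p v w + δ * wd x₂ y₂ p v w = om v.1 w.1 + om v.2 w.2) ∧
    (∀ p q, mu p.1 + mu p.2 ≤ ρ → mu q.1 + mu q.2 ≤ ρ → ∀ m n : ℤ,
      x₁ q = x₁ p + m → x₂ q = x₂ p + n → m = 0 ∧ n = 0) ∧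
    ∀ p q, mu p.1 + mu p.2 ≤ ρ → mu q.1 + mu q.2 ≤ ρ → x₁ q = x₁ p → x₂ q = x₂ p →
      ∀ m n : ℤ, y₁ q = y₁ p + m → y₂ q = y₂ p + n → p = q

theorem cd_lin {f g : ℂ × ℂ → ℝ} (hf : ContDiff ℝ ∞ f) (hg : ContDiff ℝ ∞ g) (a b : ℝ) :
    ContDiff ℝ ∞ fun x => a * f x + b * g x :=
  (contDiff_const.mul hf).add (contDiff_const.mul hg)

theorem dv_lin {f g : ℂ × ℂ → ℝ} (hf : ContDiff ℝ ∞ f) (hg : ContDiff ℝ ∞ g) (a b : ℝ)
    (p v : ℂ × ℂ) : dv (fun x => a * f x + b * g x) p v = a * dv f p v + b * dv g p v := by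
  rw [dv_add (contDiffAt_const.mul hf.contDiffAt) (contDiffAt_const.mul hg.contDiffAt),
    dv_const_mul _ hf.contDiffAt, dv_const_mul _ hg.contDiffAt]

theorem Lag.row {α β γ δ ρ : ℝ} {a b c d : ℤ} (h1 : a * d - b * c = 1)
    (h : Lag (a * α + b * γ) (a * β + b * δ) (c * α + d * γ) (c * β + d * δ) ρ) :
    Lag α β γ δ ρ := by
  obtain ⟨x₁, x₂, y₁, y₂, c1, c2, c3, c4, s, base, fib⟩ := h
  have h2 : (a : ℝ) * d - b * c = 1 := by exact_mod_cast h1
  refine ⟨x₁, x₂, fun p => a * y₁ p + c * y₂ p, fun p => b * y₁ p + d * y₂ p, c1, c2,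
    cd_lin c3 c4 _ _, cd_lin c3 c4 _ _, fun p hp v w => ?_, base,
    fun p q hp hq e1 e2 m n e3 e4 => fib p q hp hq e1 e2 (d * m - c * n) (a * n - b * m) ?_ ?_⟩
  · rw [← s p hp v w]
    simp only [wd, dv_lin c3 c4]
    ring
  · push_cast
    linear_combination (d : ℝ) * e3 - (c : ℝ) * e4 - (y₁ q - y₁ p) * h2
  · push_cast
    linear_combination (a : ℝ) * e4 - (b : ℝ) * e3 - (y₂ q - y₂ p) * h2

theorem Lag.col {α β γ δ ρ : ℝ} {a b c d : ℤ} (h1 : a * d - b * c = 1)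
    (h : Lag (α * a + β * c) (α * b + β * d) (γ * a + δ * c) (γ * b + δ * d) ρ) :
    Lag α β γ δ ρ := by
  obtain ⟨x₁, x₂, y₁, y₂, c1, c2, c3, c4, s, base, fib⟩ := h
  have h2 : (a : ℝ) * d - b * c = 1 := by exact_mod_cast h1
  refine ⟨fun p => a * x₁ p + b * x₂ p, fun p => c * x₁ p + d * x₂ p, y₁, y₂,
    cd_lin c1 c2 _ _, cd_lin c1 c2 _ _, c3, c4, fun p hp v w => ?_,
    fun p q hp hq m n e1 e2 => ?_, fun p q hp hq e1 e2 => fib p q hp hq ?_ ?_⟩
  · rw [← s p hp v w]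
    simp only [wd, dv_lin c1 c2]
    ring
  · obtain ⟨r1, r2⟩ := base p q hp hq (d * m - b * n) (a * n - c * m)
      (by push_cast; linear_combination (d : ℝ) * e1 - (b : ℝ) * e2 - (x₁ q - x₁ p) * h2)
      (by push_cast; linear_combination (a : ℝ) * e2 - (c : ℝ) * e1 - (x₂ q - x₂ p) * h2)
    exact ⟨by linear_combination a * r1 + b * r2 - m * h1,
      by linear_combination c * r1 + d * r2 - n * h1⟩
  · linear_combination (d : ℝ) * e1 - (b : ℝ) * e2 - (x₁ q - x₁ p) * h2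
  · linear_combination (a : ℝ) * e2 - (c : ℝ) * e1 - (x₂ q - x₂ p) * h2

theorem exists_sign (a : ℝ) (m : ℤ) : ∃ l : ℤ, a * m = l * |a| ∧ (l = 0 → m = 0) := by
  rcases le_total 0 a with h | h
  · exact ⟨m, by rw [abs_of_nonneg h, mul_comm], id⟩
  · exact ⟨-m, by rw [abs_of_nonpos h]; push_cast; ring, neg_eq_zero.mp⟩

theorem sub_eq_I {z z' : ℂ} {c : ℝ} {l : ℤ} (h : z'.re = z.re) (h' : z'.im = z.im + l) :
    ∃ k l : ℤ, z' - z = k * c + l * Complex.I :=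
  ⟨0, l, Complex.ext (by simp [h]) (by simp [h'])⟩

theorem lag_diag {α δ ρ : ℝ} (hρ : 0 ≤ ρ) (h : ρ ^ 2 < 2 * |α * δ|) : Lag α 0 0 δ ρ := by
  have h0 : α * δ ≠ 0 := abs_pos.mp (by nlinarith [sq_nonneg ρ])
  have a0 := left_ne_zero_of_mul h0
  have d0 := right_ne_zero_of_mul h0
  obtain ⟨F, G, ⟨hF, hG, s, -, -, i⟩, base, -⟩ := emb_all2 (abs_pos.mpr a0) (abs_pos.mpr d0) hρ
    (by rwa [abs_mul, ← mul_assoc] at h)
  have c1 : ContDiff ℝ ∞ fun p => (F p).re := Complex.reCLM.contDiff.comp hF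
  have c2 : ContDiff ℝ ∞ fun p => (G p).re := Complex.reCLM.contDiff.comp hG
  refine ⟨fun p => α⁻¹ * (F p).re, fun p => δ⁻¹ * (G p).re, fun p => (F p).im, fun p => (G p).im,
    contDiff_const.mul c1, contDiff_const.mul c2, Complex.imCLM.contDiff.comp hF,
    Complex.imCLM.contDiff.comp hG, fun p hp v w => ?_, fun p q hp hq m n e1 e2 => ?_,
    fun p q hp hq e1 e2 m n e3 e4 => i p q hp hq
      (sub_eq_I (mul_left_cancel₀ (inv_ne_zero a0) e1) e3)
      (sub_eq_I (mul_left_cancel₀ (inv_ne_zero d0) e2) e4)⟩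
  · rw [← s p hp v w, pb_eq hF.contDiffAt, pb_eq hG.contDiffAt]
    simp only [wd, dv_const_mul _ c1.contDiffAt, dv_const_mul _ c2.contDiffAt]
    field_simp
    ring
  · obtain ⟨k, k1, k2⟩ := exists_sign α m
    obtain ⟨l, l1, l2⟩ := exists_sign δ n
    field_simp at e1 e2
    exact (base p q hp hq k l (by linarith) (by linarith)).imp k2 l2

theorem lag_pure {α β γ δ ρ : ℝ} (hρ : 0 ≤ ρ) (h : ρ ^ 2 < 2 * |α * δ - β * γ|) (g0 : γ ≠ 0)
    (hg : ρ * |γ| < |α * δ - β * γ|) : Lag α β γ δ ρ := by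
  obtain ⟨D, hD⟩ : ∃ D, D = α * δ - β * γ := ⟨_, rfl⟩
  rw [← hD] at h hg
  have d0 : D ≠ 0 := abs_pos.mp (by nlinarith [sq_nonneg ρ])
  have g1 := abs_pos.mpr g0
  obtain ⟨F, G, ⟨hF, hG, s, -, -, i⟩, base, x⟩ := emb_small2 (a := |D / γ|) g1 hρ
    (by rwa [abs_div, lt_div_iff₀ g1]) (by rwa [abs_div, mul_assoc, div_mul_cancel₀ _ g1.ne'])
  have c1 : ContDiff ℝ ∞ fun p => (F p).re := Complex.reCLM.contDiff.comp hF
  have c2 : ContDiff ℝ ∞ fun p => (G p).re := Complex.reCLM.contDiff.comp hG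
  have c3 : ContDiff ℝ ∞ fun p => (F p).im := Complex.imCLM.contDiff.comp hF
  have c4 : ContDiff ℝ ∞ fun p => (G p).im := Complex.imCLM.contDiff.comp hG
  refine ⟨fun p => δ / D * (F p).re + γ⁻¹ * (G p).re, fun p => -(γ / D) * (F p).re,
    fun p => (F p).im, fun p => -(α / γ) * (F p).im + 1 * (G p).im, cd_lin c1 c2 _ _,
    contDiff_const.mul c1, c3, cd_lin c3 c4 _ _, fun p hp v w => ?_,
    fun p q hp hq m n e1 e2 => ?_, fun p q hp hq e1 e2 m n e3 e4 => ?_⟩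
  · rw [← s p hp v w, pb_eq hF.contDiffAt, pb_eq hG.contDiffAt]
    simp only [wd, dv_lin c1 c2, dv_lin c3 c4, dv_const_mul _ c1.contDiffAt]
    field_simp
    rw [hD]
    ring
  · obtain ⟨k, k1, k2⟩ := exists_sign (-(D / γ)) n
    obtain ⟨l, l1, l2⟩ := exists_sign γ m
    rw [abs_neg] at k1
    have r : (F q).re - (F p).re = k * |D / γ| := by
      rw [← k1]
      field_simp at e2 ⊢
      linarith
    obtain ⟨⟨p1, p2⟩, -⟩ := x p hp
    obtain ⟨⟨q1, q2⟩, -⟩ := x q hq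
    have k0 : k = 0 := int_zero (c := |D / γ|) (by linarith) (by linarith) (by linarith)
    refine ⟨l2 (base p q hp hq k l r ?_).2, k2 k0⟩
    rw [k0, Int.cast_zero, zero_mul, sub_eq_zero] at r
    beta_reduce at e1
    rw [r] at e1
    rw [← l1]
    field_simp at e1
    refine mul_left_cancel₀ d0 ?_
    linarith
  · beta_reduce at e1 e2 e3 e4
    have r : (F q).re = (F p).re := mul_left_cancel₀ (neg_ne_zero.mpr (div_ne_zero g0 d0)) e2
    rw [r] at e1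
    have r' : (G q).re = (G p).re := mul_left_cancel₀ (inv_ne_zero g0) (add_left_cancel e1)
    have u := eq_of_int (x p hp).2 (x q hq).2 (l := m) (by linarith)
    rw [← u] at e4
    exact i p q hp hq (sub_eq_I r e3) (sub_eq_I r' (l := n) (by linarith))

theorem exists_gen {η x y : ℝ} (hη : 0 < η) (hne : x ≠ 0 ∨ y ≠ 0)
    (H : ∀ u v : ℤ, IsCoprime u v → u * x + v * y ≠ 0 → η ≤ |u * x + v * y|) :
    ∃ c : ℝ, c ≠ 0 ∧ ∃ a b u v : ℤ, x = a * c ∧ y = b * c ∧ u * a + v * b = 1 := by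
  rcases (AddSubgroup.closure {x, y}).dense_or_cyclic with h | ⟨c, h⟩
  · obtain ⟨z, hz, z1, z2⟩ := h.exists_between hη
    obtain ⟨u, v, rfl⟩ := AddSubgroup.mem_closure_pair.mp hz
    simp only [zsmul_eq_mul] at z1 z2
    have g0 : 0 < Int.gcd u v := Int.gcd_pos_iff.mpr (by
      by_contra n
      push Not at n
      simp [n.1, n.2] at z1)
    obtain ⟨u', v', g, e1, e2⟩ := Int.exists_gcd_one g0
    have g1 : (1 : ℝ) ≤ Int.gcd u v := by exact_mod_cast g0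
    have e : (u : ℝ) * x + v * y = (u' * x + v' * y) * Int.gcd u v := by
      have a1 : (u : ℝ) = u' * Int.gcd u v := by exact_mod_cast e1
      have a2 : (v : ℝ) = v' * Int.gcd u v := by exact_mod_cast e2
      linear_combination x * a1 + y * a2
    rw [e] at z1 z2
    have p : 0 < (u' : ℝ) * x + v' * y := (mul_pos_iff_of_pos_right (by linarith)).mp z1
    have := H u' v' (Int.isCoprime_iff_gcd_eq_one.mpr g) p.ne'
    rw [abs_of_pos p] at this
    nlinarith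
  · have hx : x ∈ AddSubgroup.closure {c} := h ▸ AddSubgroup.subset_closure (by simp)
    have hy : y ∈ AddSubgroup.closure {c} := h ▸ AddSubgroup.subset_closure (by simp)
    have hc : c ∈ AddSubgroup.closure {x, y} := h ▸ AddSubgroup.subset_closure (by simp)
    obtain ⟨a, ha⟩ := AddSubgroup.mem_closure_singleton.mp hx
    obtain ⟨b, hb⟩ := AddSubgroup.mem_closure_singleton.mp hy
    obtain ⟨u, v, e⟩ := AddSubgroup.mem_closure_pair.mp hc
    simp only [zsmul_eq_mul] at ha hb e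
    have c0 : c ≠ 0 := by
      rintro rfl
      rcases hne with n | n
      · exact n (by rw [← ha, mul_zero])
      · exact n (by rw [← hb, mul_zero])
    refine ⟨c, c0, a, b, u, v, ha.symm, hb.symm, ?_⟩
    have : ((u * a + v * b : ℤ) : ℝ) = 1 := by
      refine mul_right_cancel₀ c0 ?_
      push_cast
      linear_combination e + (u : ℝ) * ha + (v : ℝ) * hb
    exact_mod_cast this

theorem lag_all {α β γ δ ρ : ℝ} (hρ : 0 < ρ) (h : ρ ^ 2 < 2 * |α * δ - β * γ|) :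
    Lag α β γ δ ρ := by
  obtain ⟨D, hD⟩ : ∃ D, D = α * δ - β * γ := ⟨_, rfl⟩
  rw [← hD] at h
  have d1 : 0 < |D| := by nlinarith [sq_nonneg ρ]
  have d0 := abs_pos.mp d1
  by_cases H : ∃ c d u v : ℤ, IsCoprime c d ∧ IsCoprime u v ∧
      (c * α + d * γ) * u + (c * β + d * δ) * v ≠ 0 ∧
      ρ * |(c * α + d * γ) * u + (c * β + d * δ) * v| < |D|
  · obtain ⟨c, d, u, v, ⟨b, a, h1⟩, ⟨t, s, h2⟩, n0, n1⟩ := H
    have h3 : (b : ℝ) * c + a * d = 1 := by exact_mod_cast h1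
    have h4 : (t : ℝ) * u + s * v = 1 := by exact_mod_cast h2
    refine Lag.row (a := a) (b := -b) (c := c) (d := d) (by linarith)
      (Lag.col (a := u) (b := -s) (c := v) (d := t) (by linarith) ?_)
    have e : ∀ x y z w : ℝ, x * w - y * z = D → Lag x y z w ρ ∨ z = 0 ∨ |D| ≤ ρ * |z| :=
      fun x y z w e => by
        by_cases z0 : z = 0
        · exact Or.inr (Or.inl z0)
        rcases lt_or_ge (ρ * |z|) |D| with z1 | z1
        · exact Or.inl (lag_pure hρ.le (by rwa [e]) z0 (by rwa [e]))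
        · exact Or.inr (Or.inr z1)
    refine ((e _ _ _ _ ?_).resolve_right ?_)
    · push_cast
      rw [hD]
      linear_combination (α * δ - β * γ) * ((t : ℝ) * u + s * v) * h3 + (α * δ - β * γ) * h4
    · exact not_or.mpr ⟨n0, not_le.mpr n1⟩
  push Not at H
  have η0 : 0 < |D| / ρ := div_pos d1 hρ
  have H' : ∀ c d u v : ℤ, IsCoprime c d → IsCoprime u v → ∀ z : ℝ,
      z = (c * α + d * γ) * u + (c * β + d * δ) * v → z ≠ 0 → |D| / ρ ≤ |z| :=
    fun c d u v h1 h2 z e z0 => by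
      rw [div_le_iff₀ hρ, mul_comm, e]
      exact H c d u v h1 h2 (e ▸ z0)
  obtain ⟨c, c0, a₁, a₂, f₁, f₂, e1, e2, e3⟩ := exists_gen (x := α) (y := γ) η0 (by
      by_contra n
      push Not at n
      exact d0 (by rw [hD, n.1, n.2]; ring))
    fun u v huv => H' u v 1 0 huv isCoprime_one_left _ (by simp)
  have e4 : (f₁ : ℝ) * a₁ + f₂ * a₂ = 1 := by exact_mod_cast e3
  obtain ⟨s, hs⟩ : ∃ s, s = f₁ * β + f₂ * δ := ⟨_, rfl⟩
  obtain ⟨t, ht⟩ : ∃ t, t = -(a₂ : ℝ) * β + a₁ * δ := ⟨_, rfl⟩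
  have e5 : D = c * t := by rw [hD, ht, e1, e2]; ring
  have e6 : (f₁ : ℝ) * α + f₂ * γ = c := by rw [e1, e2]; linear_combination c * e4
  have t0 : t ≠ 0 := right_ne_zero_of_mul (e5 ▸ d0)
  have cf : IsCoprime f₁ f₂ := ⟨a₁, a₂, by linarith⟩
  have t1 := H' (-a₂) a₁ 0 1 ⟨-f₂, f₁, by linarith⟩ isCoprime_one_right t (by simp [ht]) t0
  have t2 : |c| ≤ ρ := by
    rw [div_le_iff₀ hρ, e5, abs_mul, mul_comm] at t1
    exact le_of_mul_le_mul_left t1 (abs_pos.mpr t0)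
  obtain ⟨c', c1, n, n', u, u', e7, e8, e9⟩ := exists_gen (x := c) (y := s) η0 (Or.inl c0)
    fun u v huv => H' f₁ f₂ u v cf huv _ (by rw [e6, hs]; ring)
  have e10 : (u : ℝ) * n + u' * n' = 1 := by exact_mod_cast e9
  have t3 := H' f₁ f₂ u u' cf ⟨n, n', by linarith⟩ c' (by
    rw [e6, ← hs, e7, e8]
    linear_combination (-c') * e10) c1
  have n1 : n * n = 1 := by
    have c2 := abs_pos.mpr c1
    rw [div_le_iff₀ hρ] at t3
    rw [e7, abs_mul] at t2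
    have : |(n : ℝ)| < 2 := by
      by_contra x
      have := mul_le_mul_of_nonneg_right (not_lt.mp x) c2.le
      nlinarith
    have n2 : |n| < 2 := by exact_mod_cast this
    have n3 : n ≠ 0 := by
      rintro rfl
      exact c0 (by simpa using e7)
    rcases (by obtain ⟨x, y⟩ := abs_lt.mp n2; omega : n = 1 ∨ n = -1) with rfl | rfl <;> rfl
  have n2 : (n : ℝ) * n = 1 := by exact_mod_cast n1
  refine Lag.row (a := f₁) (b := f₂) (c := -a₂) (d := a₁) (by linarith)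
    (Lag.col (a := 1) (b := -(n' * n)) (c := 0) (d := 1) (by simp) ?_)
  have x1 : ((-a₂ : ℤ) : ℝ) * α + a₁ * γ = 0 := by rw [e1, e2]; push_cast; ring
  have x2 : ((-a₂ : ℤ) : ℝ) * β + a₁ * δ = t := by rw [ht]; push_cast; ring
  have x3 : c * ((-(n' * n) : ℤ) : ℝ) + s * ((1 : ℤ) : ℝ) = 0 := by
    rw [e7, e8]
    push_cast
    linear_combination (-(n' : ℝ) * c') * n2
  rw [e6, ← hs, x1, x2, x3]
  simpa using lag_diag hρ.le (by rwa [← e5])

end Pool.Agent.Lib.BallPT
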