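import Pool.Agent.Lib.MP_d7b9cc_gt.Wrap
import Pool.Agent.Lib.MP_d7b9cc_gt.Slit

/-! The ball of capacity below 3 in `B⁴(3) × T²(1)` and in the rational 6-torus. -/

open scoped ContDiff
open Filter Topology

namespace Pool.Agent.Lib.BallT6

theorem exists_slices {ρ : ℝ} (hρ : ρ < 3) : ∃ (γ : ℝ) (G : ℂ × ℂ × ℂ → ℂ × ℂ × ℂ),
    0 < γ ∧ γ ≤ 1 / 2 ∧ Function.Injective G ∧ (∀ p, SympAt G p) ∧
      ∀ p, tot p ≤ ρ → Slice γ (G p) := by
  have hε : 0 < (3 - ρ) / 8 := by linarith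
  obtain ⟨σ, hσ, σ1, σ2⟩ := exists_strip hε
  obtain ⟨τ, hτ, τ1, τ2⟩ := exists_slit hε
  refine ⟨min ((3 - ρ) / 4) (1 / 2), (fun q => (τ q.1, τ q.2.1, id q.2.2)) ∘ twist ∘
    (fun q => (id q.1, id q.2.1, σ q.2.2)), lt_min (by linarith) (by norm_num), min_le_right _ _,
    ?_, fun p => ?_, fun p hp => ?_⟩
  · refine Function.Injective.comp ?_ (twist_inj.comp ?_)
    · intro p q h
      simp only [Prod.mk.injEq, id] at h
      exact Prod.ext (hτ.inj h.1) (Prod.ext (hτ.inj h.2.1) h.2.2)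
    · intro p q h
      simp only [Prod.mk.injEq, id] at h
      exact Prod.ext h.1 (Prod.ext h.2.1 (hσ.inj h.2.2))
  · exact (sympAt_prod hτ hτ planar_id _).comp
      ((sympAt_twist _).comp (sympAt_prod planar_id planar_id hσ p))
  · have m1 := mu_nonneg p.1
    have m2 := mu_nonneg p.2.1
    have m3 := mu_nonneg p.2.2
    unfold tot at hp
    have hm := min_le_left ((3 - ρ) / 4) (1 / 2)
    have a1 := τ2 (ph (Real.pi / 3 * (σ p.2.2).im) * p.1) (by rw [mu_ph_mul]; linarith)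
    have a2 := τ2 (ph (-(Real.pi / 3) * (σ p.2.2).im) * p.2.1) (by rw [mu_ph_mul]; linarith)
    rw [mu_ph_mul] at a1 a2
    have a3 := abs_le.mp (σ2 p.2.2 (by linarith))
    have a4 := σ1 p.2.2
    refine ⟨?_, ?_, ?_, ?_, τ1 _, τ1 _⟩
    · simp only [Function.comp_apply, twist, id, Complex.add_re, Complex.ofReal_re]
      linarith [a3.1]
    · simp only [Function.comp_apply, twist, id, Complex.add_re, Complex.ofReal_re]
      linarith [a3.2]
    · simp only [Function.comp_apply, twist, id, Complex.add_im, Complex.ofReal_im]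
      linarith [a4.1]
    · simp only [Function.comp_apply, twist, id, Complex.add_im, Complex.ofReal_im]
      linarith [a4.2]

/-- The ball of capacity `ρ < 3` embeds in `B⁴(3) × T²(1)`. -/
theorem ball_in_ball_torus {ρ : ℝ} (hρ : ρ < 3) : ∃ ψ : ℂ × ℂ × ℂ → ℂ × ℂ × ℂ,
    (∀ p, tot p ≤ ρ → SympAt ψ p ∧ mu (ψ p).1 + mu (ψ p).2.1 < 3) ∧
    ∀ p q, tot p ≤ ρ → tot q ≤ ρ → (ψ p).1 = (ψ q).1 → (ψ p).2.1 = (ψ q).2.1 →
      ∀ k l : ℤ, (ψ q).2.2 = (ψ p).2.2 + ((k : ℂ) + (l : ℂ) * Complex.I) → p = q := by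
  obtain ⟨γ, G, hγ, hγ', gi, gs, gl⟩ := exists_slices hρ
  obtain ⟨K, k1, k2⟩ := exists_wrap hγ hγ'
  exact ⟨K ∘ G, fun p hp => ⟨(k1 _ (gl p hp)).1.comp (gs p), (k1 _ (gl p hp)).2⟩,
    fun p q hp hq h1 h2 k l h3 => gi (k2 _ _ (gl p hp) (gl q hq) h1 h2 k l h3)⟩

theorem continuous_tot : Continuous tot :=
  ((contDiff_mu.continuous.comp continuous_fst).add
    (contDiff_mu.continuous.comp (continuous_fst.comp continuous_snd))).add
      (contDiff_mu.continuous.comp (continuous_snd.comp continuous_snd))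

theorem norm_le_one_of_mu {z : ℂ} (h : mu z ≤ 3) : ‖z‖ ≤ 1 := by
  rw [mu_eq_norm] at h
  have := Real.pi_gt_three
  by_contra hc
  push Not at hc
  nlinarith [mul_pos (sub_pos.mpr hc) (sub_pos.mpr hc)]

theorem isCompact_tot {ρ : ℝ} (hρ : ρ < 3) : IsCompact {p : ℂ × ℂ × ℂ | tot p ≤ ρ} := by
  refine Metric.isCompact_of_isClosed_isBounded (isClosed_le continuous_tot continuous_const) ?_
  refine (Metric.isBounded_closedBall (x := (0 : ℂ × ℂ × ℂ)) (r := 1)).subset fun p hp => ?_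
  have m1 := mu_nonneg p.1
  have m2 := mu_nonneg p.2.1
  have m3 := mu_nonneg p.2.2
  have hp' : mu p.1 + mu p.2.1 + mu p.2.2 ≤ ρ := hp
  rw [mem_closedBall_zero_iff, Prod.norm_def, Prod.norm_def]
  exact max_le (norm_le_one_of_mu (by linarith))
    (max_le (norm_le_one_of_mu (by linarith)) (norm_le_one_of_mu (by linarith)))

/-- The linear shear that makes the diamond lattice rectangular. -/
noncomputable def shear (p : ℂ × ℂ × ℂ) : ℂ × ℂ × ℂ :=
  (p.1 - (p.2.1.re : ℂ) + ((3 / 2 : ℝ) : ℂ), p.2.1 + (p.1.im : ℂ) * Complex.I, p.2.2)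

theorem sympAt_shear (p : ℂ × ℂ × ℂ) : SympAt shear p := by
  have c1 : ContDiff ℝ ∞ (fun q : ℂ × ℂ × ℂ => q.1) := contDiff_fst
  have c2 : ContDiff ℝ ∞ (fun q : ℂ × ℂ × ℂ => q.2.1) := contDiff_fst.comp contDiff_snd
  have c3 : ContDiff ℝ ∞ (fun q : ℂ × ℂ × ℂ => q.2.2) := contDiff_snd.comp contDiff_snd
  refine ⟨ContDiff.contDiffAt ?_, fun v w => ?_⟩
  · unfold shear
    exact ((c1.sub (Complex.ofRealCLM.contDiff.comp (Complex.reCLM.contDiff.comp c2))).add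
      contDiff_const).prodMk ((c2.add ((Complex.ofRealCLM.contDiff.comp
        (Complex.imCLM.contDiff.comp c1)).mul contDiff_const)).prodMk c3)
  · have d1 : HasFDerivAt (fun q : ℂ × ℂ × ℂ => q.1) (ContinuousLinearMap.fst ℝ ℂ (ℂ × ℂ)) p :=
      hasFDerivAt_fst
    have d' : HasFDerivAt (fun q : ℂ × ℂ × ℂ => q.2) (ContinuousLinearMap.snd ℝ ℂ (ℂ × ℂ)) p :=
      hasFDerivAt_snd
    have d : HasFDerivAt shear _ p :=
      ((d1.sub (Complex.ofRealCLM.hasFDerivAt.comp p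
        (Complex.reCLM.hasFDerivAt.comp p d'.fst))).add_const _).prodMk
        ((d'.fst.add ((Complex.ofRealCLM.hasFDerivAt.comp p
          (Complex.imCLM.hasFDerivAt.comp p d1)).mul_const Complex.I)).prodMk d'.snd)
    rw [d.fderiv]
    simp [om3, om]
    ring

/-- The ball of capacity `ρ < 3` embeds in `(0,3) × (0,1) × T²(3/2) × T²(1)`. -/
theorem ball_in_torus {ρ : ℝ} (hρ : ρ < 3) : ∃ ψ : ℂ × ℂ × ℂ → ℂ × ℂ × ℂ,
    (∀ p, tot p ≤ ρ → SympAt ψ p ∧ (0 < (ψ p).1.re ∧ (ψ p).1.re < 3) ∧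
      (0 < (ψ p).1.im ∧ (ψ p).1.im < 1)) ∧
    (∀ p q, tot p ≤ ρ → tot q ≤ ρ → (ψ p).1 = (ψ q).1 → ∀ k l : ℤ,
      (ψ q).2.1 = (ψ p).2.1 + (3 / 2 * (k : ℂ) + (l : ℂ) * Complex.I) → (ψ p).2.1 = (ψ q).2.1) ∧
    ∀ p q, tot p ≤ ρ → tot q ≤ ρ → (ψ p).1 = (ψ q).1 → (ψ p).2.1 = (ψ q).2.1 →
      ∀ k l : ℤ, (ψ q).2.2 = (ψ p).2.2 + ((k : ℂ) + (l : ℂ) * Complex.I) → p = q := by
  obtain ⟨ψ, h1, h2⟩ := ball_in_ball_torus hρ
  have hc : ContinuousOn (fun p => 3 - (mu (ψ p).1 + mu (ψ p).2.1)) {p | tot p ≤ ρ} := by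
    intro p hp
    have c := (h1 p hp).1.smooth.continuousAt
    exact (continuousAt_const.sub ((contDiff_mu.continuous.continuousAt.comp c.fst).add
      (contDiff_mu.continuous.continuousAt.comp c.snd.fst))).continuousWithinAt
  obtain ⟨m, hm, hm'⟩ := (isCompact_tot hρ).exists_forall_le' hc (a := 0)
    (fun p hp => sub_pos.mpr (h1 p hp).2)
  obtain ⟨σ, hσ, σ1, σ2⟩ := exists_strip (ε := m / 8) (by linarith)
  have hX : ∀ p, tot p ≤ ρ → |(σ (ψ p).1).re| + |(σ (ψ p).2.1).re| < 3 / 2 := by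
    intro p hp
    have a := hm' p hp
    have m1 := mu_nonneg (ψ p).1
    have m2 := mu_nonneg (ψ p).2.1
    have a1 := σ2 (ψ p).1 (by linarith)
    have a2 := σ2 (ψ p).2.1 (by linarith)
    linarith
  have key : ∀ p q, tot p ≤ ρ → tot q ≤ ρ →
      (shear (σ (ψ p).1, σ (ψ p).2.1, (ψ p).2.2)).1 =
        (shear (σ (ψ q).1, σ (ψ q).2.1, (ψ q).2.2)).1 → ∀ k l : ℤ,
      (shear (σ (ψ q).1, σ (ψ q).2.1, (ψ q).2.2)).2.1 =
        (shear (σ (ψ p).1, σ (ψ p).2.1, (ψ p).2.2)).2.1 +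
          (3 / 2 * (k : ℂ) + (l : ℂ) * Complex.I) →
      (ψ p).1 = (ψ q).1 ∧ (ψ p).2.1 = (ψ q).2.1 := by
    intro p q hp hq e1 k l e2
    have r1 := congrArg Complex.re e1
    have i1 := congrArg Complex.im e1
    have r2 := congrArg Complex.re e2
    have i2 := congrArg Complex.im e2
    simp [shear] at r1 i1 r2 i2
    have a := hX p hp
    have b := hX q hq
    have k0 : k = 0 := by
      have k1 : (k : ℝ) < 1 := by
        linarith [le_abs_self (σ (ψ q).1).re, le_abs_self (σ (ψ q).2.1).re,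
          neg_abs_le (σ (ψ p).1).re, neg_abs_le (σ (ψ p).2.1).re]
      have k2 : (-1 : ℝ) < k := by
        linarith [le_abs_self (σ (ψ p).1).re, le_abs_self (σ (ψ p).2.1).re,
          neg_abs_le (σ (ψ q).1).re, neg_abs_le (σ (ψ q).2.1).re]
      have a : k < 1 := by exact_mod_cast k1
      have b : -1 < k := by exact_mod_cast k2
      omega
    have l0 : l = 0 := by
      have l1 : (l : ℝ) < 1 := by linarith [(σ1 (ψ p).2.1).1, (σ1 (ψ q).2.1).2]
      have l2 : (-1 : ℝ) < l := by linarith [(σ1 (ψ p).2.1).2, (σ1 (ψ q).2.1).1]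
      have a : l < 1 := by exact_mod_cast l1
      have b : -1 < l := by exact_mod_cast l2
      omega
    rw [k0] at r2
    rw [l0] at i2
    simp only [Int.cast_zero, mul_zero, add_zero] at r2 i2
    exact ⟨hσ.inj (Complex.ext (by linarith) i1),
      hσ.inj (Complex.ext (by linarith) (by linarith))⟩
  refine ⟨shear ∘ (fun q => (σ q.1, σ q.2.1, id q.2.2)) ∘ ψ, fun p hp => ⟨?_, ?_, ?_⟩,
    fun p q hp hq e1 k l e2 => ?_, fun p q hp hq e1 e2 k l e3 => ?_⟩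
  · exact (sympAt_shear _).comp ((sympAt_prod hσ hσ planar_id _).comp (h1 p hp).1)
  · have a := hX p hp
    simp only [Function.comp_apply, shear, Complex.add_re, Complex.sub_re, Complex.ofReal_re]
    constructor
    · linarith [neg_abs_le (σ (ψ p).1).re, le_abs_self (σ (ψ p).2.1).re]
    · linarith [le_abs_self (σ (ψ p).1).re, neg_abs_le (σ (ψ p).2.1).re]
  · simpa [shear] using σ1 (ψ p).1
  · obtain ⟨f1, f2⟩ := key p q hp hq e1 k l e2
    simp only [Function.comp_apply, shear, f1, f2]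
  · obtain ⟨f1, f2⟩ := key p q hp hq e1 0 0 (by simpa using e2.symm)
    exact h2 p q hp hq f1 f2 k l e3

end Pool.Agent.Lib.BallT6
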