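import Pool.Agent.Lib.MP_d7b9cc_gt.Twist

/-! The lift to the sphere and the projection back to the ball. -/

open scoped ContDiff
open Filter Topology

namespace Pool.Agent.Lib.BallT6

theorem contDiffAt_lift {p : ℂ × ℂ × ℂ} (hp : mu p.1 + mu p.2.1 < 3) : ContDiffAt ℝ ∞ lift p ∧
    ∀ v w, om4 (fderiv ℝ lift p v) (fderiv ℝ lift p w) = om3 v w := by
  have c1 : ContDiff ℝ ∞ (fun q : ℂ × ℂ × ℂ => q.1) := contDiff_fst
  have c2 : ContDiff ℝ ∞ (fun q : ℂ × ℂ × ℂ => q.2.1) := contDiff_fst.comp contDiff_snd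
  have c3 : ContDiff ℝ ∞ (fun q : ℂ × ℂ × ℂ => q.2.2) := contDiff_snd.comp contDiff_snd
  have cs : ContDiffAt ℝ ∞
      (fun q : ℂ × ℂ × ℂ => Real.sqrt ((3 - mu q.1 - mu q.2.1) / Real.pi)) p := by
    refine ContDiffAt.sqrt ?_ ?_
    · exact (((contDiff_const.sub (contDiff_mu.comp c1)).sub
        (contDiff_mu.comp c2)).div_const _).contDiffAt
    · exact (div_pos (by linarith) Real.pi_pos).ne'
  refine ⟨?_, fun v w => ?_⟩
  · unfold lift
    exact ((Complex.ofRealCLM.contDiff.contDiffAt.comp p cs).prodMk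
      (c1.contDiffAt.prodMk c2.contDiffAt)).prodMk c3.contDiffAt
  · have d1 : HasFDerivAt (fun q : ℂ × ℂ × ℂ => q.1) (ContinuousLinearMap.fst ℝ ℂ (ℂ × ℂ)) p :=
      hasFDerivAt_fst
    have d' : HasFDerivAt (fun q : ℂ × ℂ × ℂ => q.2) (ContinuousLinearMap.snd ℝ ℂ (ℂ × ℂ)) p :=
      hasFDerivAt_snd
    have ds := (cs.differentiableAt (by simp)).hasFDerivAt
    have d : HasFDerivAt lift _ p :=
      ((Complex.ofRealCLM.hasFDerivAt.comp p ds).prodMk (d1.prodMk d'.fst)).prodMk d'.snd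
    rw [d.fderiv]
    simp [om4, om3, om]

/-- The unit factor of the projection. -/
noncomputable def un (z : ℂ) : ℂ := starRingEnd ℂ z / ((‖z‖ : ℝ) : ℂ)

theorem un_sq {z : ℂ} (hz : z ≠ 0) : (un z).re ^ 2 + (un z).im ^ 2 = 1 := by
  have h : ‖un z‖ = 1 := by
    have : ‖z‖ ≠ 0 := norm_ne_zero_iff.mpr hz
    simp [un, this]
  have h2 := Complex.sq_norm (un z)
  rw [h, Complex.normSq_apply] at h2
  nlinarith

theorem un_mul {z : ℂ} (hz : z ≠ 0) : un z * z = ((‖z‖ : ℝ) : ℂ) := by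
  have h : ((‖z‖ : ℝ) : ℂ) ≠ 0 := by exact_mod_cast norm_ne_zero_iff.mpr hz
  unfold un
  rw [div_mul_eq_mul_div, div_eq_iff h, Complex.conj_mul']
  ring

theorem contDiffAt_un {z : ℂ} (hz : z ≠ 0) : ContDiffAt ℝ ∞ un z := by
  have h : ((‖z‖ : ℝ) : ℂ) ≠ 0 := by exact_mod_cast norm_ne_zero_iff.mpr hz
  have h1 : ContDiffAt ℝ ∞ (fun x : ℂ => ((‖x‖ : ℝ) : ℂ)) z :=
    Complex.ofRealCLM.contDiff.contDiffAt.comp z (contDiffAt_norm ℝ hz)
  have h2 : ContDiffAt ℝ ∞ (fun x : ℂ => starRingEnd ℂ x) z :=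
    Complex.conjCLE.contDiff.contDiffAt
  have h3 := h2.mul (h1.inv h)
  refine h3.congr_of_eventuallyEq (Eventually.of_forall fun x => ?_)
  simp [un, div_eq_mul_inv]

theorem fderiv_un {z : ℂ} (hz : z ≠ 0) (v : ℂ) : ∃ φ : ℝ,
    fderiv ℝ un z v = (φ : ℂ) * (Complex.I * un z) ∧
      (un z * v + (φ : ℂ) * (Complex.I * un z) * z).im = 0 := by
  have d := ((contDiffAt_un hz).differentiableAt (by simp)).hasFDerivAt
  have hne : ∀ᶠ x in 𝓝 z, x ≠ 0 := isOpen_ne.mem_nhds hz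
  obtain ⟨D, hD, e⟩ := hasFDerivAt_mu d
  have hc : HasFDerivAt (fun x => mu (un x)) (0 : ℂ →L[ℝ] ℝ) z :=
    (hasFDerivAt_const Real.pi z).congr_of_eventuallyEq (hne.mono fun x hx => by
      simp [mu, un_sq hx])
  have e0 : ip (un z) (fderiv ℝ un z v) = 0 := by
    have h := e v
    rw [hD.unique hc] at h
    have hp := Real.pi_pos
    simp only [zero_apply] at h
    have : 2 * Real.pi ≠ 0 := by positivity
    exact (mul_eq_zero.mp h.symm).resolve_left this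
  have hs := un_sq hz
  have e1 : fderiv ℝ un z v = (om (un z) (fderiv ℝ un z v) : ℂ) * (Complex.I * un z) := by
    unfold ip at e0
    apply Complex.ext
    · simp [om]
      linear_combination (un z).re * e0 - (fderiv ℝ un z v).re * hs
    · simp [om]
      linear_combination (un z).im * e0 - (fderiv ℝ un z v).im * hs
  refine ⟨_, e1, ?_⟩
  rw [← e1]
  have d2 := Complex.imCLM.hasFDerivAt.comp z (d.mul (hasFDerivAt_id z))
  have hc2 : HasFDerivAt (Complex.imCLM ∘ (un * id)) (0 : ℂ →L[ℝ] ℝ) z :=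
    (hasFDerivAt_const (0 : ℝ) z).congr_of_eventuallyEq (hne.mono fun x hx => by
      simp [un_mul hx])
  have h := congrArg (fun L : ℂ →L[ℝ] ℝ => L v) (d2.unique hc2)
  simp at h
  simp
  linarith

theorem contDiffAt_proj {q : (ℂ × ℂ × ℂ) × ℂ} (hq : q.1.1 ≠ 0) : ContDiffAt ℝ ∞ proj q ∧
    ∀ v w : (ℂ × ℂ × ℂ) × ℂ,
      ip q.1.1 v.1.1 + ip q.1.2.1 v.1.2.1 + ip q.1.2.2 v.1.2.2 = 0 →
      ip q.1.1 w.1.1 + ip q.1.2.1 w.1.2.1 + ip q.1.2.2 w.1.2.2 = 0 →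
      om3 (fderiv ℝ proj q v) (fderiv ℝ proj q w) = om4 v w := by
  have c0 : ContDiff ℝ ∞ (fun q : (ℂ × ℂ × ℂ) × ℂ => q.1.1) := contDiff_fst.comp contDiff_fst
  have c1 : ContDiff ℝ ∞ (fun q : (ℂ × ℂ × ℂ) × ℂ => q.1.2.1) :=
    contDiff_fst.comp (contDiff_snd.comp contDiff_fst)
  have c2 : ContDiff ℝ ∞ (fun q : (ℂ × ℂ × ℂ) × ℂ => q.1.2.2) :=
    contDiff_snd.comp (contDiff_snd.comp contDiff_fst)
  have cu : ContDiffAt ℝ ∞ (fun q : (ℂ × ℂ × ℂ) × ℂ => un q.1.1) q :=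
    ContDiffAt.comp (g := un) q (contDiffAt_un hq) c0.contDiffAt
  refine ⟨?_, fun v w hv hw => ?_⟩
  · exact (cu.mul c1.contDiffAt).prodMk ((cu.mul c2.contDiffAt).prodMk contDiffAt_snd)
  · have dW : HasFDerivAt (fun q : (ℂ × ℂ × ℂ) × ℂ => q.1)
        (ContinuousLinearMap.fst ℝ (ℂ × ℂ × ℂ) ℂ) q := hasFDerivAt_fst
    have d3 : HasFDerivAt (fun q : (ℂ × ℂ × ℂ) × ℂ => q.2)
        (ContinuousLinearMap.snd ℝ (ℂ × ℂ × ℂ) ℂ) q := hasFDerivAt_snd
    have du : HasFDerivAt (fun q : (ℂ × ℂ × ℂ) × ℂ => un q.1.1) _ q :=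
      HasFDerivAt.comp (g := un) q ((contDiffAt_un hq).differentiableAt (by simp)).hasFDerivAt dW.fst
    have d : HasFDerivAt proj _ q :=
      (du.mul dW.snd.fst).prodMk ((du.mul dW.snd.snd).prodMk d3)
    rw [d.fderiv]
    obtain ⟨s, hs, hs'⟩ := fderiv_un hq v.1.1
    obtain ⟨t, ht, ht'⟩ := fderiv_un hq w.1.1
    have h0 := om_phase (un q.1.1) v.1.1 w.1.1 q.1.1 s t (un_sq hq)
    have h1 := om_phase (un q.1.1) v.1.2.1 w.1.2.1 q.1.2.1 s t (un_sq hq)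
    have h2 := om_phase (un q.1.1) v.1.2.2 w.1.2.2 q.1.2.2 s t (un_sq hq)
    rw [om, hs', ht'] at h0
    simp only [om3, om4, ContinuousLinearMap.prod_apply, add_apply,
      smul_apply, ContinuousLinearMap.coe_comp, Function.comp_apply,
      ContinuousLinearMap.coe_fst', ContinuousLinearMap.coe_snd', smul_eq_mul, hs, ht]
    rw [mul_comm q.1.2.1, mul_comm q.1.2.1, mul_comm q.1.2.2, mul_comm q.1.2.2]
    linear_combination h0 + h1 + h2 + t * hv - s * hw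

end Pool.Agent.Lib.BallT6
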