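import Pool.Agent.Lib.MP_d7b9cc_gt.Twist

/-! Suspensions of the cyclic shift and of rotations; the lift and the projection. -/

open scoped ContDiff

namespace Pool.Agent.Lib.BallT6

/-- The cyclic shift as a continuous linear map. -/
noncomputable def cycL : ((ℂ × ℂ × ℂ) × ℂ) →L[ℝ] ((ℂ × ℂ × ℂ) × ℂ) :=
  ((((ContinuousLinearMap.fst ℝ ℂ ℂ).comp (ContinuousLinearMap.snd ℝ ℂ (ℂ × ℂ))).prod
    (((ContinuousLinearMap.snd ℝ ℂ ℂ).comp (ContinuousLinearMap.snd ℝ ℂ (ℂ × ℂ))).prod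
      (ContinuousLinearMap.fst ℝ ℂ (ℂ × ℂ)))).comp
        (ContinuousLinearMap.fst ℝ (ℂ × ℂ × ℂ) ℂ)).prod (ContinuousLinearMap.snd ℝ (ℂ × ℂ × ℂ) ℂ)

theorem cycL_apply (p : (ℂ × ℂ × ℂ) × ℂ) : cycL p = (cyc p.1, p.2) := rfl

theorem susp_cyc : Susp cycL (fun _ => cyc) := by
  refine ⟨cycL.contDiff, fun p v w => ?_, fun p => rfl, fun p => rfl,
    ⟨fun _ _ => 0, fun p => by simp [cycL_apply]⟩⟩
  rw [cycL.fderiv]
  simp only [cycL_apply, om4, om3, cyc]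
  ring

/-- Suspension of the rotation by the angle `β h`. -/
noncomputable def rotS (β : ℝ → ℝ) (p : (ℂ × ℂ × ℂ) × ℂ) : (ℂ × ℂ × ℂ) × ℂ :=
  (rot (β p.2.re) p.1, p.2 + ((deriv β p.2.re * om p.1.1 p.1.2.1 : ℝ) : ℂ) * Complex.I)

theorem susp_rot {β : ℝ → ℝ} (hβ : ContDiff ℝ ∞ β) : Susp (rotS β) (fun h => rot (β h)) := by
  have hβ' : ContDiff ℝ ∞ (deriv β) := (contDiff_infty_iff_deriv.mp hβ).2
  have c0 : ContDiff ℝ ∞ (fun q : (ℂ × ℂ × ℂ) × ℂ => q.1.1) := contDiff_fst.comp contDiff_fst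
  have c1 : ContDiff ℝ ∞ (fun q : (ℂ × ℂ × ℂ) × ℂ => q.1.2.1) :=
    contDiff_fst.comp (contDiff_snd.comp contDiff_fst)
  have c2 : ContDiff ℝ ∞ (fun q : (ℂ × ℂ × ℂ) × ℂ => q.1.2.2) :=
    contDiff_snd.comp (contDiff_snd.comp contDiff_fst)
  have c3 : ContDiff ℝ ∞ (fun q : (ℂ × ℂ × ℂ) × ℂ => q.2) := contDiff_snd
  have ch : ContDiff ℝ ∞ (fun q : (ℂ × ℂ × ℂ) × ℂ => q.2.re) := Complex.reCLM.contDiff.comp c3
  have cc : ContDiff ℝ ∞ (fun q : (ℂ × ℂ × ℂ) × ℂ => (Real.cos (β q.2.re) : ℂ)) :=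
    Complex.ofRealCLM.contDiff.comp (Real.contDiff_cos.comp (hβ.comp ch))
  have cs : ContDiff ℝ ∞ (fun q : (ℂ × ℂ × ℂ) × ℂ => (Real.sin (β q.2.re) : ℂ)) :=
    Complex.ofRealCLM.contDiff.comp (Real.contDiff_sin.comp (hβ.comp ch))
  have cj : ContDiff ℝ ∞ (fun q : (ℂ × ℂ × ℂ) × ℂ => om q.1.1 q.1.2.1) :=
    ((Complex.reCLM.contDiff.comp c0).mul (Complex.imCLM.contDiff.comp c1)).sub
      ((Complex.imCLM.contDiff.comp c0).mul (Complex.reCLM.contDiff.comp c1))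
  refine ⟨?_, fun p v w => ?_, fun p => rfl, fun p => by simp [rotS],
    ⟨fun W h => deriv β h * om W.1 W.2.1, fun p => by simp [rotS]⟩⟩
  · unfold rotS rot
    exact (((cc.mul c0).add (cs.mul c1)).prodMk (((cs.neg.mul c0).add (cc.mul c1)).prodMk c2)).prodMk
      (c3.add ((Complex.ofRealCLM.contDiff.comp ((hβ'.comp ch).mul cj)).mul contDiff_const))
  · have dW : HasFDerivAt (fun q : (ℂ × ℂ × ℂ) × ℂ => q.1)
        (ContinuousLinearMap.fst ℝ (ℂ × ℂ × ℂ) ℂ) p := hasFDerivAt_fst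
    have d0 : HasFDerivAt (fun q : (ℂ × ℂ × ℂ) × ℂ => q.1.1) _ p := dW.fst
    have d1 : HasFDerivAt (fun q : (ℂ × ℂ × ℂ) × ℂ => q.1.2.1) _ p := dW.snd.fst
    have d2 : HasFDerivAt (fun q : (ℂ × ℂ × ℂ) × ℂ => q.1.2.2) _ p := dW.snd.snd
    have d3 : HasFDerivAt (fun q : (ℂ × ℂ × ℂ) × ℂ => q.2)
        (ContinuousLinearMap.snd ℝ (ℂ × ℂ × ℂ) ℂ) p := hasFDerivAt_snd
    have dh : HasFDerivAt (fun q : (ℂ × ℂ × ℂ) × ℂ => q.2.re) _ p :=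
      Complex.reCLM.hasFDerivAt.comp p d3
    have b0 : HasDerivAt β (deriv β p.2.re) p.2.re :=
      (hβ.differentiable (by simp) _).hasDerivAt
    have b1 : HasDerivAt (deriv β) (deriv (deriv β) p.2.re) p.2.re :=
      (hβ'.differentiable (by simp) _).hasDerivAt
    have dc : HasFDerivAt (fun q : (ℂ × ℂ × ℂ) × ℂ => (Real.cos (β q.2.re) : ℂ)) _ p :=
      b0.cos.ofReal_comp.hasFDerivAt.comp p dh
    have ds : HasFDerivAt (fun q : (ℂ × ℂ × ℂ) × ℂ => (Real.sin (β q.2.re) : ℂ)) _ p :=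
      b0.sin.ofReal_comp.hasFDerivAt.comp p dh
    have dj : HasFDerivAt (fun q : (ℂ × ℂ × ℂ) × ℂ => om q.1.1 q.1.2.1) _ p :=
      ((Complex.reCLM.hasFDerivAt.comp p d0).mul (Complex.imCLM.hasFDerivAt.comp p d1)).sub
        ((Complex.imCLM.hasFDerivAt.comp p d0).mul (Complex.reCLM.hasFDerivAt.comp p d1))
    have db : HasFDerivAt (fun q : (ℂ × ℂ × ℂ) × ℂ => deriv β q.2.re) _ p :=
      HasDerivAt.comp_hasFDerivAt (f := fun q : (ℂ × ℂ × ℂ) × ℂ => q.2.re) p b1 dh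
    have d : HasFDerivAt (rotS β) _ p :=
      (((dc.mul d0).add (ds.mul d1)).prodMk (((ds.neg.mul d0).add (dc.mul d1)).prodMk d2)).prodMk
        (d3.add ((Complex.ofRealCLM.hasFDerivAt.comp p (db.mul dj)).mul_const Complex.I))
    rw [d.fderiv]
    have hcs := Real.sin_sq_add_cos_sq (β p.2.re)
    simp [om4, om3, om, Complex.cos_ofReal_re, Complex.sin_ofReal_re]
    set c := Real.cos (β p.2.re)
    set s := Real.sin (β p.2.re)
    set b := deriv β p.2.re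
    linear_combination (v.1.1.re * w.1.1.im - v.1.1.im * w.1.1.re + v.1.2.1.re * w.1.2.1.im -
      v.1.2.1.im * w.1.2.1.re + b * w.2.re * (v.1.1.re * p.1.2.1.im - v.1.1.im * p.1.2.1.re +
        p.1.1.re * v.1.2.1.im - p.1.1.im * v.1.2.1.re) - b * v.2.re * (w.1.1.re * p.1.2.1.im -
          w.1.1.im * p.1.2.1.re + p.1.1.re * w.1.2.1.im - p.1.1.im * w.1.2.1.re)) * hcs

end Pool.Agent.Lib.BallT6
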