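import Pool.Agent.Lib.MP_d7b9cc_gt.Jac

/-! The symmetric map from the plane to a strip. -/

open scoped ContDiff
open Filter Topology

namespace Pool.Agent.Lib.BallT6

/-- The primitive `H`. -/
noncomputable def HH (η δ u : ℝ) : ℝ := u * Real.sqrt (u ^ 2 + η ^ 2) / 2 + δ * u

/-- The profile `h = H'`. -/
noncomputable def hh (η δ u : ℝ) : ℝ :=
  (2 * u ^ 2 + η ^ 2) / (2 * Real.sqrt (u ^ 2 + η ^ 2)) + δ

section
variable {η : ℝ} (hη : 0 < η) (δ : ℝ)
include hη

theorem sq_pos' (u : ℝ) : 0 < u ^ 2 + η ^ 2 := by positivity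

theorem contDiff_sq : ContDiff ℝ ∞ (fun u : ℝ => Real.sqrt (u ^ 2 + η ^ 2)) :=
  ((contDiff_id.pow 2).add contDiff_const).sqrt fun u => (sq_pos' hη u).ne'

theorem contDiff_HH : ContDiff ℝ ∞ (HH η δ) :=
  ((contDiff_id.mul (contDiff_sq hη)).div_const 2).add (contDiff_const.mul contDiff_id)

theorem contDiff_hh : ContDiff ℝ ∞ (hh η δ) :=
  (((contDiff_const.mul (contDiff_id.pow 2)).add contDiff_const).div
    (contDiff_const.mul (contDiff_sq hη)) fun u => by
      have := Real.sqrt_pos.mpr (sq_pos' hη u); positivity).add contDiff_const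

theorem hasDerivAt_HH (u : ℝ) : HasDerivAt (HH η δ) (hh η δ u) u := by
  have hp := sq_pos' hη u
  have hs := Real.sqrt_pos.mpr hp
  have hq := Real.sq_sqrt hp.le
  have h1 : HasDerivAt (fun u : ℝ => u ^ 2 + η ^ 2) (2 * u) u := by
    simpa using (hasDerivAt_pow 2 u).add_const (η ^ 2)
  have h2 := (((hasDerivAt_id u).mul (h1.sqrt hp.ne')).div_const 2).add
    ((hasDerivAt_id u).const_mul δ)
  have e : hh η δ u = (1 * Real.sqrt (u ^ 2 + η ^ 2) +
      id u * (2 * u / (2 * Real.sqrt (u ^ 2 + η ^ 2)))) / 2 + δ * 1 := by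
    unfold hh
    simp only [id]
    field_simp
    linear_combination (-1 : ℝ) * hq
  rw [e]
  exact h2

theorem abs_le_hh (u : ℝ) : |u| + δ ≤ hh η δ u := by
  have hp := sq_pos' hη u
  have hs := Real.sqrt_pos.mpr hp
  have hq := Real.sq_sqrt hp.le
  unfold hh
  have : |u| ≤ (2 * u ^ 2 + η ^ 2) / (2 * Real.sqrt (u ^ 2 + η ^ 2)) := by
    rw [le_div_iff₀ (by positivity)]
    have := sq_abs u
    nlinarith [sq_nonneg (|u| - Real.sqrt (u ^ 2 + η ^ 2))]
  linarith

theorem sqrt_le_abs (u : ℝ) : Real.sqrt (u ^ 2 + η ^ 2) ≤ |u| + η := by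
  rw [Real.sqrt_le_left (by positivity)]
  have := sq_abs u
  nlinarith [abs_nonneg u]

theorem abs_HH_le {δ : ℝ} (hδ : 0 ≤ δ) (u : ℝ) :
    2 * |HH η δ u| ≤ u ^ 2 + (η + 2 * δ) * |u| := by
  have h1 := sqrt_le_abs hη u
  have hs := Real.sqrt_nonneg (u ^ 2 + η ^ 2)
  have e : HH η δ u = u * (Real.sqrt (u ^ 2 + η ^ 2) / 2 + δ) := by unfold HH; ring
  rw [e, abs_mul, abs_of_nonneg (by positivity : 0 ≤ Real.sqrt (u ^ 2 + η ^ 2) / 2 + δ)]
  have := sq_abs u
  nlinarith [abs_nonneg u]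

end

section
variable {η δ : ℝ} (hη : 0 < η) (hδ : 0 < δ)
include hη hδ

theorem hh_pos (u : ℝ) : 0 < hh η δ u := by
  have := abs_le_hh hη δ u
  have := abs_nonneg u
  linarith

theorem HH_strictMono : StrictMono (HH η δ) :=
  strictMono_of_deriv_pos fun u => by rw [(hasDerivAt_HH hη δ u).deriv]; exact hh_pos hη hδ u

theorem abs_HH_le_sq (h : η ≤ δ ^ 2) {u : ℝ} (hu : |u| ≤ 1) :
    2 * |HH η δ u| ≤ hh η δ u ^ 2 := by
  have h1 := abs_HH_le hη hδ.le u
  have h2 := abs_le_hh hη δ u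
  have h3 := abs_nonneg u
  have h4 : (|u| + δ) ^ 2 ≤ hh η δ u ^ 2 := by gcongr
  have := sq_abs u
  nlinarith

omit hδ in
/-- The chart `(u, m) ↦ (u, m h(u))`. -/
theorem jac_chart : Jac (mk2 (fun z => z.re) (fun z => z.im * hh η δ z.re))
    (fun z => hh η δ z.re) := by
  refine jac_mk2 Complex.reCLM.contDiff (Complex.imCLM.contDiff.mul
    ((contDiff_hh hη δ).comp Complex.reCLM.contDiff)) fun z => ?_
  refine ⟨_, _, _, _, hasPD_re (hasDerivAt_id z.re), (hasPD_im (hasDerivAt_id z.im)).mul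
    (hasPD_re ((contDiff_hh hη δ).differentiable (by simp) z.re).hasDerivAt), ?_⟩
  simp

theorem chart_bij : Function.Bijective (mk2 (fun z => z.re) (fun z => z.im * hh η δ z.re)) := by
  constructor
  · intro p q h
    have h1 := congrArg Complex.re h
    have h2 := congrArg Complex.im h
    rw [mk2_re, mk2_re] at h1
    rw [mk2_im, mk2_im, h1] at h2
    exact Complex.ext h1 (mul_right_cancel₀ (hh_pos hη hδ _).ne' h2)
  · intro z
    refine ⟨⟨z.re, z.im / hh η δ z.re⟩, Complex.ext (mk2_re _ _ _) ?_⟩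
    rw [mk2_im]
    exact div_mul_cancel₀ _ (hh_pos hη hδ _).ne'

end

theorem exists_strip {ε : ℝ} (hε : 0 < ε) : ∃ σ : ℂ → ℂ, Planar σ ∧
    (∀ z, 0 < (σ z).im ∧ (σ z).im < 1) ∧ ∀ z, mu z ≤ 3 → |(σ z).re| ≤ mu z / 2 + ε := by
  obtain ⟨δ, hδ, hδ1, hδε⟩ : ∃ δ : ℝ, 0 < δ ∧ δ ≤ 1 ∧ δ ≤ ε / 6 :=
    ⟨min 1 (ε / 6), by positivity, min_le_left _ _, min_le_right _ _⟩
  have hη : 0 < δ ^ 2 := by positivity
  have hπ := Real.pi_pos
  have hJ : Jac (mk2 (fun z => Real.pi * (1 + z.im ^ 2) * HH (δ ^ 2) δ z.re)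
      (fun z => Real.arctan z.im / Real.pi + 1 / 2)) (fun z => hh (δ ^ 2) δ z.re) := by
    refine jac_mk2 ((contDiff_const.mul (contDiff_const.add (Complex.imCLM.contDiff.pow 2))).mul
      ((contDiff_HH hη δ).comp Complex.reCLM.contDiff))
      (((Real.contDiff_arctan.comp Complex.imCLM.contDiff).div_const _).add contDiff_const)
      fun z => ?_
    refine ⟨_, _, _, _, (hasPD_im (((hasDerivAt_pow 2 z.im).const_add 1).const_mul Real.pi)).mul
      (hasPD_re (hasDerivAt_HH hη δ z.re)),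
      hasPD_im (((Real.hasDerivAt_arctan z.im).div_const Real.pi).add_const (1 / 2)), ?_⟩
    field_simp
    simp
  have hi : Function.Injective (mk2 (fun z => Real.pi * (1 + z.im ^ 2) * HH (δ ^ 2) δ z.re)
      (fun z => Real.arctan z.im / Real.pi + 1 / 2)) := by
    intro p q h
    have h1 := congrArg Complex.re h
    have h2 := congrArg Complex.im h
    rw [mk2_im, mk2_im] at h2
    have h3 : p.im = q.im := Real.arctan_injective (by
      have := add_right_cancel h2
      field_simp at this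
      exact this)
    rw [mk2_re, mk2_re, h3] at h1
    exact Complex.ext ((HH_strictMono hη hδ).injective
      (mul_left_cancel₀ (by positivity) h1)) h3
  refine ⟨_, planar_of_jac hJ (jac_chart hη) (fun z => (hh_pos hη hδ _).ne') hi
    (chart_bij hη hδ), fun z => ?_, fun z hz => ?_⟩
  · simp only [Function.comp_apply, mk2_im]
    have h1 := Real.neg_pi_div_two_lt_arctan
      (Function.invFun (mk2 (fun z => z.re) (fun z => z.im * hh (δ ^ 2) δ z.re)) z).im
    have h2 := Real.arctan_lt_pi_div_two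
      (Function.invFun (mk2 (fun z => z.re) (fun z => z.im * hh (δ ^ 2) δ z.re)) z).im
    constructor
    · rw [← sub_lt_iff_lt_add, lt_div_iff₀ hπ]; linarith
    · rw [← lt_sub_iff_add_lt, div_lt_iff₀ hπ]; linarith
  · have hr := Function.rightInverse_invFun (chart_bij hη hδ).2 z
    simp only [Function.comp_apply, mk2_re]
    set p := Function.invFun (mk2 (fun z => z.re) (fun z => z.im * hh (δ ^ 2) δ z.re)) z
    have h1 := congrArg Complex.re hr
    have h2 := congrArg Complex.im hr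
    rw [mk2_re] at h1
    rw [mk2_im] at h2
    have h3 := Real.pi_gt_three
    have h4 := Real.pi_lt_four
    have hu : |p.re| ≤ 1 := by
      rw [h1, ← sq_le_one_iff_abs_le_one]
      unfold mu at hz
      nlinarith [sq_nonneg z.im, sq_nonneg z.re]
    have h5 := abs_HH_le_sq hη hδ le_rfl hu
    have h6 := abs_HH_le hη hδ.le p.re
    have h7 : (δ ^ 2 + 2 * δ) * |p.re| ≤ 3 * δ := by nlinarith [abs_nonneg p.re]
    rw [abs_mul, abs_of_pos (by positivity : 0 < Real.pi * (1 + p.im ^ 2))]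
    have h8 : p.im ^ 2 * (2 * |HH (δ ^ 2) δ p.re|) ≤ z.im ^ 2 := by
      rw [← h2, mul_pow]; gcongr
    have h9 : (1 + p.im ^ 2) * |HH (δ ^ 2) δ p.re| ≤ (z.re ^ 2 + z.im ^ 2) / 2 + 3 * δ / 2 := by
      rw [← h1]; nlinarith
    unfold mu
    nlinarith

end Pool.Agent.Lib.BallT6
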