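import Pool.Agent.Lib.MP_d7b9cc_gt.Defs

/-! The toric twist and the rotation suspensions. -/

open scoped ContDiff

namespace Pool.Agent.Lib.BallT6

/-- The real inner product on `ℂ`. -/
def ip (a b : ℂ) : ℝ := a.re * b.re + a.im * b.im

/-- The unit complex number of argument `t`. -/
noncomputable def ph (t : ℝ) : ℂ := (Real.cos t : ℂ) + (Real.sin t : ℂ) * Complex.I

theorem ph_re (t : ℝ) : (ph t).re = Real.cos t := by
  simp [ph, Complex.cos_ofReal_re, Complex.sin_ofReal_im, Complex.sin_ofReal_re]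

theorem ph_im (t : ℝ) : (ph t).im = Real.sin t := by
  simp [ph, Complex.cos_ofReal_im, Complex.sin_ofReal_im, Complex.sin_ofReal_re]

theorem contDiff_ph : ContDiff ℝ ∞ ph := by
  unfold ph
  exact (Complex.ofRealCLM.contDiff.comp Real.contDiff_cos).add
    ((Complex.ofRealCLM.contDiff.comp Real.contDiff_sin).mul contDiff_const)

theorem hasDerivAt_ph (t : ℝ) : HasDerivAt ph (Complex.I * ph t) t := by
  have h1 : HasDerivAt (fun s : ℝ => (Real.cos s : ℂ)) ((-Real.sin t : ℝ) : ℂ) t :=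
    (Real.hasDerivAt_cos t).ofReal_comp
  have h2 : HasDerivAt (fun s : ℝ => (Real.sin s : ℂ)) ((Real.cos t : ℝ) : ℂ) t :=
    (Real.hasDerivAt_sin t).ofReal_comp
  have h := h1.add (h2.mul_const Complex.I)
  have e : Complex.I * ph t = ((-Real.sin t : ℝ) : ℂ) + ((Real.cos t : ℝ) : ℂ) * Complex.I := by
    apply Complex.ext
    · simp [ph_im, Complex.sin_ofReal_re]
    · simp [ph_re, Complex.cos_ofReal_re]
  rw [e]
  exact h

theorem mu_ph_mul (t : ℝ) (z : ℂ) : mu (ph t * z) = mu z := by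
  unfold mu
  simp only [Complex.mul_re, Complex.mul_im, ph_re, ph_im]
  have := Real.sin_sq_add_cos_sq t
  linear_combination (Real.pi * (z.re ^ 2 + z.im ^ 2)) * this

theorem ph_ne_zero (t : ℝ) : ph t ≠ 0 := by
  intro h
  have h1 := ph_re t
  have h2 := ph_im t
  rw [h] at h1 h2
  have := Real.sin_sq_add_cos_sq t
  simp only [Complex.zero_re, Complex.zero_im] at h1 h2
  rw [← h1, ← h2] at this
  norm_num at this

theorem om_phase (g a b z : ℂ) (s t : ℝ) (hg : g.re ^ 2 + g.im ^ 2 = 1) :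
    om (g * a + (s : ℂ) * (Complex.I * g) * z) (g * b + (t : ℂ) * (Complex.I * g) * z) =
      om a b + t * ip z a - s * ip z b := by
  simp only [om, ip, Complex.add_re, Complex.add_im, Complex.mul_re, Complex.mul_im,
    Complex.ofReal_re, Complex.ofReal_im, Complex.I_re, Complex.I_im]
  linear_combination (a.re * b.im - a.im * b.re + t * (z.re * a.re + z.im * a.im) -
    s * (z.re * b.re + z.im * b.im)) * hg

theorem hasFDerivAt_mu {E : Type*} [NormedAddCommGroup E] [NormedSpace ℝ E] {f : E → ℂ}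
    {f' : E →L[ℝ] ℂ} {p : E} (hf : HasFDerivAt f f' p) :
    ∃ D : E →L[ℝ] ℝ, HasFDerivAt (fun x => mu (f x)) D p ∧
      ∀ v, D v = 2 * Real.pi * ip (f p) (f' v) := by
  have h1 : HasFDerivAt (fun x => (f x).re) (Complex.reCLM.comp f') p :=
    Complex.reCLM.hasFDerivAt.comp p hf
  have h2 : HasFDerivAt (fun x => (f x).im) (Complex.imCLM.comp f') p :=
    Complex.imCLM.hasFDerivAt.comp p hf
  have h := ((h1.mul h1).add (h2.mul h2)).const_mul Real.pi
  refine ⟨_, h.congr_of_eventuallyEq (Filter.Eventually.of_forall fun x => ?_), fun v => ?_⟩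
  · simp [mu, sq]
  · simp [ip]; ring

theorem hasFDerivAt_phase {E : Type*} [NormedAddCommGroup E] [NormedSpace ℝ E] {f : E → ℂ}
    {f' : E →L[ℝ] ℂ} {θ : E → ℝ} {θ' : E →L[ℝ] ℝ} {p : E} (hf : HasFDerivAt f f' p)
    (hθ : HasFDerivAt θ θ' p) :
    ∃ D : E →L[ℝ] ℂ, HasFDerivAt (fun x => ph (θ x) * f x) D p ∧
      ∀ v, D v = ph (θ p) * f' v + (θ' v : ℂ) * (Complex.I * ph (θ p)) * f p := by
  have h1 := (hasDerivAt_ph (θ p)).hasFDerivAt.comp p hθ
  have h := h1.mul hf
  refine ⟨_, h, fun v => ?_⟩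
  simp
  ring

/-- The toric twist: time one flow of `Y (μ₂ - μ₁) / 6`, followed by a translation. -/
noncomputable def twist (p : ℂ × ℂ × ℂ) : ℂ × ℂ × ℂ :=
  (ph (Real.pi / 3 * p.2.2.im) * p.1, ph (-(Real.pi / 3) * p.2.2.im) * p.2.1,
    p.2.2 + ((3 / 2 - mu p.1 / 6 + mu p.2.1 / 6 : ℝ) : ℂ))

theorem twist_inj : Function.Injective twist := by
  intro p q h
  simp only [twist, Prod.mk.injEq] at h
  obtain ⟨h1, h2, h3⟩ := h
  have hy : p.2.2.im = q.2.2.im := by
    have := congrArg Complex.im h3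
    simpa using this
  rw [hy] at h1 h2
  have e1 := mul_left_cancel₀ (ph_ne_zero _) h1
  have e2 := mul_left_cancel₀ (ph_ne_zero _) h2
  rw [e1, e2] at h3
  have e3 := add_right_cancel h3
  exact Prod.ext e1 (Prod.ext e2 e3)

theorem sympAt_twist (p : ℂ × ℂ × ℂ) : SympAt twist p := by
  have c1 : ContDiff ℝ ∞ (fun q : ℂ × ℂ × ℂ => q.1) := contDiff_fst
  have c2 : ContDiff ℝ ∞ (fun q : ℂ × ℂ × ℂ => q.2.1) := contDiff_fst.comp contDiff_snd
  have c3 : ContDiff ℝ ∞ (fun q : ℂ × ℂ × ℂ => q.2.2) := contDiff_snd.comp contDiff_snd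
  have cy : ContDiff ℝ ∞ (fun q : ℂ × ℂ × ℂ => q.2.2.im) := Complex.imCLM.contDiff.comp c3
  refine ⟨?_, fun v w => ?_⟩
  · refine ContDiff.contDiffAt ?_
    unfold twist
    refine ((contDiff_ph.comp (contDiff_const.mul cy)).mul c1).prodMk
      (((contDiff_ph.comp (contDiff_const.mul cy)).mul c2).prodMk (c3.add ?_))
    exact Complex.ofRealCLM.contDiff.comp
      ((contDiff_const.sub ((contDiff_mu.comp c1).div_const 6)).add
        ((contDiff_mu.comp c2).div_const 6))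
  · have d1 : HasFDerivAt (fun q : ℂ × ℂ × ℂ => q.1) (ContinuousLinearMap.fst ℝ ℂ (ℂ × ℂ)) p :=
      hasFDerivAt_fst
    have d2 : HasFDerivAt (fun q : ℂ × ℂ × ℂ => q.2.1) ((ContinuousLinearMap.fst ℝ ℂ ℂ).comp
        (ContinuousLinearMap.snd ℝ ℂ (ℂ × ℂ))) p := hasFDerivAt_fst.comp p hasFDerivAt_snd
    have d3 : HasFDerivAt (fun q : ℂ × ℂ × ℂ => q.2.2) ((ContinuousLinearMap.snd ℝ ℂ ℂ).comp
        (ContinuousLinearMap.snd ℝ ℂ (ℂ × ℂ))) p := hasFDerivAt_snd.comp p hasFDerivAt_snd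
    have dy := Complex.imCLM.hasFDerivAt.comp p d3
    obtain ⟨D1, hD1, e1⟩ := hasFDerivAt_phase d1 (dy.const_mul (Real.pi / 3))
    obtain ⟨D2, hD2, e2⟩ := hasFDerivAt_phase d2 (dy.const_mul (-(Real.pi / 3)))
    obtain ⟨M1, hM1, m1⟩ := hasFDerivAt_mu d1
    obtain ⟨M2, hM2, m2⟩ := hasFDerivAt_mu d2
    have d4 := d3.add (Complex.ofRealCLM.hasFDerivAt.comp p
      (((hM1.const_mul (1 / 6)).const_sub (3 / 2)).add (hM2.const_mul (1 / 6))))
    have d : HasFDerivAt twist _ p :=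
      (hD1.prodMk (hD2.prodMk d4)).congr_of_eventuallyEq (Filter.Eventually.of_forall fun q => by
        simp only [twist, Function.comp_apply, Complex.imCLM_apply, Complex.ofRealCLM_apply,
          Pi.add_apply]
        congr 3
        push_cast
        ring)
    rw [d.fderiv]
    have hg : ∀ t, (ph t).re ^ 2 + (ph t).im ^ 2 = 1 := fun t => by
      rw [ph_re, ph_im]; exact Real.cos_sq_add_sin_sq t
    simp only [om3, ContinuousLinearMap.prod_apply, e1, e2, om_phase _ _ _ _ _ _ (hg _)]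
    simp [om, m1, m2]
    ring

end Pool.Agent.Lib.BallT6
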