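import Pool.Agent.Lib.MP_d7b9cc_gt.Rot
import Pool.Agent.Lib.MP_d7b9cc_gt.Proj

/-! Wrapping the Hill simplex domain into `B⁴(3) × T²(1)`. -/

open scoped ContDiff
open Filter Topology

namespace Pool.Agent.Lib.BallT6

/-- A path of rotations from the identity to the cyclic shift. -/
noncomputable def Am (θ : ℝ) (W : ℂ × ℂ × ℂ) : ℂ × ℂ × ℂ := cyc (cyc (rot θ (cyc (rot θ W))))

/-- The total moment. -/
noncomputable def tot (W : ℂ × ℂ × ℂ) : ℝ := mu W.1 + mu W.2.1 + mu W.2.2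

theorem tot_cyc (W : ℂ × ℂ × ℂ) : tot (cyc W) = tot W := by
  simp only [tot, cyc]; ring

theorem tot_rot (θ : ℝ) (W : ℂ × ℂ × ℂ) : tot (rot θ W) = tot W := by
  have h := Real.sin_sq_add_cos_sq θ
  simp [tot, rot, mu, Complex.cos_ofReal_re, Complex.sin_ofReal_re]
  linear_combination (Real.pi * (W.1.re ^ 2 + W.1.im ^ 2 + W.2.1.re ^ 2 + W.2.1.im ^ 2)) * h

theorem tot_Am (θ : ℝ) (W : ℂ × ℂ × ℂ) : tot (Am θ W) = tot W := by
  simp only [Am, tot_cyc, tot_rot]

theorem cyc_inj : Function.Injective cyc := by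
  intro p q h
  simp only [cyc, Prod.mk.injEq] at h
  exact Prod.ext h.2.2 (Prod.ext h.1 h.2.1)

theorem rot_inj (θ : ℝ) : Function.Injective (rot θ) := by
  intro p q h
  simp only [rot, Prod.mk.injEq] at h
  obtain ⟨h1, h2, h3⟩ := h
  have h : (Real.sin θ : ℂ) ^ 2 + (Real.cos θ : ℂ) ^ 2 = 1 := by
    exact_mod_cast Real.sin_sq_add_cos_sq θ
  refine Prod.ext ?_ (Prod.ext ?_ h3)
  · linear_combination (Real.cos θ : ℂ) * h1 - (Real.sin θ : ℂ) * h2 - (p.1 - q.1) * h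
  · linear_combination (Real.sin θ : ℂ) * h1 + (Real.cos θ : ℂ) * h2 - (p.2.1 - q.2.1) * h

theorem Am_inj (θ : ℝ) : Function.Injective (Am θ) :=
  cyc_inj.comp (cyc_inj.comp ((rot_inj θ).comp (cyc_inj.comp (rot_inj θ))))

theorem cyc_smul (c : ℂ) (W : ℂ × ℂ × ℂ) : cyc (c • W) = c • cyc W := rfl

theorem rot_smul (θ : ℝ) (c : ℂ) (W : ℂ × ℂ × ℂ) : rot θ (c • W) = c • rot θ W := by
  refine Prod.ext ?_ (Prod.ext ?_ rfl) <;> simp [rot] <;> ring

theorem Am_smul (θ : ℝ) (c : ℂ) (W : ℂ × ℂ × ℂ) : Am θ (c • W) = c • Am θ W := by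
  simp only [Am, cyc_smul, rot_smul]

theorem Am_zero (W : ℂ × ℂ × ℂ) : Am 0 W = W := by simp [Am, cyc, rot]

theorem Am_half (W : ℂ × ℂ × ℂ) : Am (Real.pi / 2) W = cyc W := by simp [Am, cyc, rot]

theorem Am_fst (θ : ℝ) (W : ℂ × ℂ × ℂ) :
    (Am θ W).1 = (Real.cos θ : ℂ) * W.1 + (Real.sin θ : ℂ) * W.2.1 := rfl

theorem susp_Am {β : ℝ → ℝ} (hβ : ContDiff ℝ ∞ β) : ∃ F, Susp F (fun h => Am (β h)) :=
  ⟨_, susp_cyc.comp (susp_cyc.comp ((susp_rot hβ).comp (susp_cyc.comp (susp_rot hβ))))⟩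

/-- The smooth step from `0` to `π / 2` inside `[-γ, γ]`. -/
noncomputable def step (γ t : ℝ) : ℝ := Real.pi / 2 * Real.smoothTransition ((t + γ) / (2 * γ))

theorem contDiff_step (γ : ℝ) : ContDiff ℝ ∞ (step γ) :=
  contDiff_const.mul (Real.smoothTransition.contDiff.comp
    ((contDiff_id.add contDiff_const).div_const _))

theorem step_lo {γ t : ℝ} (hγ : 0 < γ) (h : t ≤ -γ) : step γ t = 0 := by
  unfold step
  rw [Real.smoothTransition.zero_of_nonpos, mul_zero]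
  exact div_nonpos_of_nonpos_of_nonneg (by linarith) (by linarith)

theorem step_hi {γ t : ℝ} (hγ : 0 < γ) (h : γ ≤ t) : step γ t = Real.pi / 2 := by
  unfold step
  rw [Real.smoothTransition.one_of_one_le, mul_one]
  rw [le_div_iff₀ (by linarith)]
  linarith

theorem step_cos (γ t : ℝ) : 0 ≤ Real.cos (step γ t) ∧ 0 ≤ Real.sin (step γ t) := by
  have h0 := Real.smoothTransition.nonneg ((t + γ) / (2 * γ))
  have h1 := Real.smoothTransition.le_one ((t + γ) / (2 * γ))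
  have hπ := Real.pi_pos
  have a : 0 ≤ step γ t := by unfold step; positivity
  have b : step γ t ≤ Real.pi / 2 := by unfold step; nlinarith
  exact ⟨Real.cos_nonneg_of_neg_pi_div_two_le_of_le (by linarith) b,
    Real.sin_nonneg_of_nonneg_of_le_pi a (by linarith)⟩

/-- The family of rotations. -/
noncomputable def UU (γ h : ℝ) (W : ℂ × ℂ × ℂ) : ℂ × ℂ × ℂ :=
  Am (step γ (h - 2)) (Am (step γ (h - 1)) (cyc (cyc W)))

theorem susp_UU (γ : ℝ) : ∃ F, Susp F (UU γ) := by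
  obtain ⟨F1, h1⟩ := susp_Am (β := fun h => step γ (h - 1))
    ((contDiff_step γ).comp (contDiff_id.sub contDiff_const))
  obtain ⟨F2, h2⟩ := susp_Am (β := fun h => step γ (h - 2))
    ((contDiff_step γ).comp (contDiff_id.sub contDiff_const))
  exact ⟨_, h2.comp (h1.comp (susp_cyc.comp susp_cyc))⟩

theorem tot_UU (γ h : ℝ) (W : ℂ × ℂ × ℂ) : tot (UU γ h W) = tot W := by
  simp only [UU, tot_Am, tot_cyc]

theorem UU_inj (γ h : ℝ) : Function.Injective (UU γ h) :=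
  (Am_inj _).comp ((Am_inj _).comp (cyc_inj.comp cyc_inj))

theorem UU_smul (γ h : ℝ) (c : ℂ) (W : ℂ × ℂ × ℂ) : UU γ h (c • W) = c • UU γ h W := by
  simp only [UU, Am_smul, cyc_smul]

theorem UU_succ {γ h : ℝ} (hγ : 0 < γ) (h1 : γ ≤ h) (h2 : h + 1 ≤ 3 - γ) (W : ℂ × ℂ × ℂ) :
    UU γ (h + 1) W = UU γ h (cyc W) := by
  unfold UU
  rw [step_lo (t := h - 2) hγ (by linarith), step_hi (t := h + 1 - 1) hγ (by linarith), Am_zero,
    Am_half, show h + 1 - 2 = h - 1 by ring]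

/-- The slices of the twisted ball. -/
structure Slice (γ : ℝ) (x : ℂ × ℂ × ℂ) : Prop where
  lo : mu x.1 + 2 * mu x.2.1 + 3 * γ ≤ 3 * x.2.2.re
  hi : 3 * x.2.2.re + 2 * mu x.1 + mu x.2.1 + 3 * γ ≤ 9
  im0 : 0 < x.2.2.im
  im1 : x.2.2.im < 1
  s1 : x.1.im = 0 → 0 < x.1.re
  s2 : x.2.1.im = 0 → 0 < x.2.1.re

theorem comb_ne {c s r : ℝ} {z : ℂ} (hc : 0 ≤ c) (hs : 0 ≤ s) (h : c ^ 2 + s ^ 2 = 1)
    (hr : 0 < r) (hz : z.im = 0 → 0 < z.re) : (c : ℂ) * z + (s : ℂ) * (r : ℂ) ≠ 0 := by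
  intro h0
  have h1 := congrArg Complex.re h0
  have h2 := congrArg Complex.im h0
  simp at h1 h2
  rcases h2 with h2 | h2
  · rw [h2] at h h1
    have : s * r = 0 := by simpa using h1
    rcases mul_eq_zero.mp this with h3 | h3
    · rw [h3] at h; norm_num at h
    · exact hr.ne' h3
  · have h3 := hz h2
    have h4 : c * z.re = 0 := by nlinarith [mul_nonneg hc h3.le, mul_nonneg hs hr.le]
    have h5 : s * r = 0 := by linarith
    have h6 : c = 0 := (mul_eq_zero.mp h4).resolve_right h3.ne'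
    have h7 : s = 0 := (mul_eq_zero.mp h5).resolve_right hr.ne'
    rw [h6, h7] at h
    norm_num at h

theorem mu_lift0 {x : ℂ × ℂ × ℂ} (h : mu x.1 + mu x.2.1 < 3) :
    mu (lift x).1.1 = 3 - mu x.1 - mu x.2.1 := by
  have hπ := Real.pi_pos
  have h1 : 0 ≤ (3 - mu x.1 - mu x.2.1) / Real.pi := div_nonneg (by linarith) hπ.le
  have h2 := Real.sq_sqrt h1
  show Real.pi * (Real.sqrt ((3 - mu x.1 - mu x.2.1) / Real.pi) ^ 2 + 0 ^ 2) = _
  rw [h2]
  field_simp
  ring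

theorem tot_lift {x : ℂ × ℂ × ℂ} (h : mu x.1 + mu x.2.1 < 3) : tot (lift x).1 = 3 := by
  have := mu_lift0 h
  unfold tot
  rw [this]
  show 3 - mu x.1 - mu x.2.1 + mu x.1 + mu x.2.1 = 3
  ring

theorem Slice.lt {γ : ℝ} (hγ : 0 < γ) {x : ℂ × ℂ × ℂ} (h : Slice γ x) :
    mu x.1 + mu x.2.1 < 3 := by
  have := h.lo; have := h.hi; linarith

theorem Slice.ne {γ : ℝ} (hγ : 0 < γ) (hγ' : γ ≤ 1 / 2) {x : ℂ × ℂ × ℂ} (h : Slice γ x) :
    (UU γ x.2.2.re (lift x).1).1 ≠ 0 := by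
  have hr : 0 < Real.sqrt ((3 - mu x.1 - mu x.2.1) / Real.pi) :=
    Real.sqrt_pos.mpr (div_pos (by linarith [h.lt hγ]) Real.pi_pos)
  unfold UU
  rcases le_total x.2.2.re (3 / 2) with h1 | h1
  · rw [step_lo (t := x.2.2.re - 2) hγ (by linarith), Am_zero, Am_fst]
    exact comb_ne (step_cos _ _).1 (step_cos _ _).2 (Real.cos_sq_add_sin_sq _) hr h.s2
  · rw [step_hi (t := x.2.2.re - 1) hγ (by linarith), Am_half, Am_fst, add_comm]
    exact comb_ne (step_cos _ _).2 (step_cos _ _).1 (Real.sin_sq_add_cos_sq _) hr h.s1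

theorem mu_unit_mul {g : ℂ} (hg : g.re ^ 2 + g.im ^ 2 = 1) (z : ℂ) : mu (g * z) = mu z := by
  unfold mu
  simp only [Complex.mul_re, Complex.mul_im]
  linear_combination (Real.pi * (z.re ^ 2 + z.im ^ 2)) * hg

theorem mu_pos {z : ℂ} (hz : z ≠ 0) : 0 < mu z := by
  rw [mu_eq_norm]
  have := norm_pos_iff.mpr hz
  have := Real.pi_pos
  positivity

theorem proj_eq {W W' : ℂ × ℂ × ℂ} (h : W.1 ≠ 0) (h' : W'.1 ≠ 0) (ht : tot W = tot W')
    (h1 : un W.1 * W.2.1 = un W'.1 * W'.2.1) (h2 : un W.1 * W.2.2 = un W'.1 * W'.2.2) :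
    un W.1 • W = un W'.1 • W' := by
  have m1 := congrArg mu h1
  have m2 := congrArg mu h2
  rw [mu_unit_mul (un_sq h), mu_unit_mul (un_sq h')] at m1 m2
  have m0 : mu W.1 = mu W'.1 := by unfold tot at ht; linarith
  rw [mu_eq_norm, mu_eq_norm] at m0
  have m3 : ‖W.1‖ = ‖W'.1‖ :=
    (sq_eq_sq₀ (norm_nonneg _) (norm_nonneg _)).mp (mul_left_cancel₀ Real.pi_pos.ne' m0)
  refine Prod.ext ?_ (Prod.ext h1 h2)
  show un W.1 * W.1 = un W'.1 * W'.1
  rw [un_mul h, un_mul h', m3]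

theorem wrap_smooth {γ : ℝ} (hγ : 0 < γ) (hγ' : γ ≤ 1 / 2)
    {F : (ℂ × ℂ × ℂ) × ℂ → (ℂ × ℂ × ℂ) × ℂ} (hF : Susp F (UU γ)) {x : ℂ × ℂ × ℂ}
    (h : Slice γ x) : SympAt (proj ∘ F ∘ lift) x := by
  obtain ⟨l1, l2⟩ := contDiffAt_lift (h.lt hγ)
  have hne : (F (lift x)).1.1 ≠ 0 := by rw [hF.fst]; exact h.ne hγ hγ'
  obtain ⟨p1, p2⟩ := contDiffAt_proj hne
  have c : ContDiffAt ℝ ∞ (F ∘ lift) x := hF.smooth.contDiffAt.comp x l1
  have d := (c.differentiableAt (by simp)).hasFDerivAt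
  have tan : ∀ v, ip (F (lift x)).1.1 (fderiv ℝ (F ∘ lift) x v).1.1 +
      ip (F (lift x)).1.2.1 (fderiv ℝ (F ∘ lift) x v).1.2.1 +
      ip (F (lift x)).1.2.2 (fderiv ℝ (F ∘ lift) x v).1.2.2 = 0 := by
    intro v
    obtain ⟨D0, hD0, e0⟩ := hasFDerivAt_mu d.fst.fst
    obtain ⟨D1, hD1, e1⟩ := hasFDerivAt_mu d.fst.snd.fst
    obtain ⟨D2, hD2, e2⟩ := hasFDerivAt_mu d.fst.snd.snd
    have hopen : ∀ᶠ y : ℂ × ℂ × ℂ in 𝓝 x, mu y.1 + mu y.2.1 < 3 := by
      have hc : Continuous (fun y : ℂ × ℂ × ℂ => mu y.1 + mu y.2.1) :=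
        (contDiff_mu.continuous.comp continuous_fst).add
          (contDiff_mu.continuous.comp (continuous_fst.comp continuous_snd))
      exact (isOpen_lt hc continuous_const).mem_nhds (h.lt hγ)
    have hz := ((hD0.add hD1).add hD2).unique
      ((hasFDerivAt_const (3 : ℝ) x).congr_of_eventuallyEq (hopen.mono fun y hy => by
        show tot (F (lift y)).1 = 3
        rw [hF.fst, tot_UU, tot_lift hy]))
    have hz' := congrArg (fun L : (ℂ × ℂ × ℂ) →L[ℝ] ℝ => L v) hz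
    simp only [add_apply, e0, e1, e2, zero_apply, ContinuousLinearMap.coe_comp,
      Function.comp_apply, ContinuousLinearMap.coe_fst', ContinuousLinearMap.coe_snd'] at hz'
    have hπ : 2 * Real.pi ≠ 0 := by have := Real.pi_pos; positivity
    exact mul_left_cancel₀ hπ (by linear_combination hz')
  refine ⟨p1.comp x c, fun v w => ?_⟩
  rw [fderiv_comp x (p1.differentiableAt (by simp)) (c.differentiableAt (by simp))]
  simp only [ContinuousLinearMap.coe_comp, Function.comp_apply]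
  rw [p2 _ _ (tan v) (tan w),
    fderiv_comp x (hF.smooth.differentiable (by simp) _) (l1.differentiableAt (by simp))]
  simp only [ContinuousLinearMap.coe_comp, Function.comp_apply]
  rw [hF.symp, l2]

theorem no_shift {γ : ℝ} (hγ : 0 < γ) {x y : ℂ × ℂ × ℂ} (hx : Slice γ x) (hy : Slice γ y)
    {g g' : ℂ} (hg : g.re ^ 2 + g.im ^ 2 = 1) (hg' : g'.re ^ 2 + g'.im ^ 2 = 1) {k : ℤ}
    (hk : 0 < k) (hre : y.2.2.re = x.2.2.re + k)
    (h : UU γ x.2.2.re (g • (lift x).1) = UU γ y.2.2.re (g' • (lift y).1)) : False := by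
  have x1 := mu_nonneg x.1
  have x2 := mu_nonneg x.2.1
  have y1 := mu_nonneg y.1
  have y2 := mu_nonneg y.2.1
  have a1 := hx.lo
  have a2 := hx.hi
  have b1 := hy.lo
  have b2 := hy.hi
  have x0 := mu_lift0 (hx.lt hγ)
  have y0 := mu_lift0 (hy.lt hγ)
  have hk3 : k < 3 := by
    have : (k : ℝ) < 3 := by linarith
    exact_mod_cast this
  have hk12 : k = 1 ∨ k = 2 := by omega
  rcases hk12 with rfl | rfl
  · have hre' : y.2.2.re = x.2.2.re + 1 := by simpa using hre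
    rw [hre', UU_succ hγ (by linarith) (by linarith)] at h
    have e := UU_inj _ _ h
    have e0 : mu (g * (lift x).1.1) = mu (g' * y.1) := congrArg (fun W => mu W.1) e
    have e1 : mu (g * x.1) = mu (g' * y.2.1) := congrArg (fun W => mu W.2.1) e
    rw [mu_unit_mul hg, mu_unit_mul hg'] at e0 e1
    linarith
  · have hre' : y.2.2.re = x.2.2.re + 1 + 1 := by
      rw [hre]; push_cast; ring
    rw [hre', UU_succ hγ (by linarith) (by linarith),
      UU_succ hγ (by linarith) (by linarith)] at h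
    have e := UU_inj _ _ h
    have e0 : mu (g * (lift x).1.1) = mu (g' * y.2.1) := congrArg (fun W => mu W.1) e
    have e2 : mu (g * x.2.1) = mu (g' * y.1) := congrArg (fun W => mu W.2.2) e
    rw [mu_unit_mul hg, mu_unit_mul hg'] at e0 e2
    linarith

theorem exists_wrap {γ : ℝ} (hγ : 0 < γ) (hγ' : γ ≤ 1 / 2) : ∃ K : ℂ × ℂ × ℂ → ℂ × ℂ × ℂ,
    (∀ x, Slice γ x → SympAt K x ∧ mu (K x).1 + mu (K x).2.1 < 3) ∧
    ∀ x y, Slice γ x → Slice γ y → (K x).1 = (K y).1 → (K x).2.1 = (K y).2.1 →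
      ∀ k l : ℤ, (K y).2.2 = (K x).2.2 + ((k : ℂ) + (l : ℂ) * Complex.I) → x = y := by
  obtain ⟨F, hF⟩ := susp_UU γ
  have hne : ∀ x, Slice γ x → (F (lift x)).1.1 ≠ 0 := fun x h => by
    rw [hF.fst]; exact h.ne hγ hγ'
  have htot : ∀ x, Slice γ x → tot (F (lift x)).1 = 3 := fun x h => by
    rw [hF.fst, tot_UU, tot_lift (h.lt hγ)]
  refine ⟨proj ∘ F ∘ lift, fun x h => ⟨wrap_smooth hγ hγ' hF h, ?_⟩,
    fun x y hx hy h1 h2 k l h3 => ?_⟩
  · show mu (un (F (lift x)).1.1 * (F (lift x)).1.2.1) +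
      mu (un (F (lift x)).1.1 * (F (lift x)).1.2.2) < 3
    rw [mu_unit_mul (un_sq (hne x h)), mu_unit_mul (un_sq (hne x h))]
    have h1 := htot x h
    have h2 := mu_pos (hne x h)
    unfold tot at h1
    linarith
  · have e := proj_eq (hne x hx) (hne y hy) ((htot x hx).trans (htot y hy).symm) h1 h2
    have gx := un_sq (hne x hx)
    have gy := un_sq (hne y hy)
    set g := un (F (lift x)).1.1
    set g' := un (F (lift y)).1.1
    rw [hF.fst, hF.fst, ← UU_smul, ← UU_smul] at e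
    have e' : UU γ x.2.2.re (g • (lift x).1) = UU γ y.2.2.re (g' • (lift y).1) := e
    have h4 : (F (lift y)).2 = (F (lift x)).2 + ((k : ℂ) + (l : ℂ) * Complex.I) := h3
    have hre := congrArg Complex.re h4
    have him := congrArg Complex.im h4
    simp only [Complex.add_re, Complex.add_im, hF.re, Complex.intCast_re, Complex.intCast_im,
      Complex.mul_re, Complex.mul_im, Complex.I_re, Complex.I_im, mul_zero, mul_one, sub_zero,
      add_zero, zero_add] at hre him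
    have hre' : y.2.2.re = x.2.2.re + k := hre
    have hk : k = 0 := by
      rcases lt_trichotomy k 0 with hk | hk | hk
      · exact (no_shift hγ hy hx gy gx (k := -k) (by omega) (by push_cast; linarith) e'.symm).elim
      · exact hk
      · exact (no_shift hγ hx hy gx gy hk hre' e').elim
    have hh : y.2.2.re = x.2.2.re := by rw [hre', hk]; simp
    rw [hh] at e'
    have e2 := UU_inj _ _ e'
    have e0 : g * (lift x).1.1 = g' * (lift y).1.1 := congrArg (fun W => W.1) e2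
    have e1 : g * x.1 = g' * y.1 := congrArg (fun W => W.2.1) e2
    have e3 : g * x.2.1 = g' * y.2.1 := congrArg (fun W => W.2.2) e2
    have m1 := congrArg mu e1
    have m3 := congrArg mu e3
    rw [mu_unit_mul gx, mu_unit_mul gy] at m1 m3
    have z0 : (lift x).1.1 = (lift y).1.1 := by simp only [lift, m1, m3]
    have z1 : (lift y).1.1 ≠ 0 := by
      intro h0
      have := mu_lift0 (hy.lt hγ)
      rw [h0] at this
      have h5 := hy.lt hγ
      simp [mu] at this h5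
      linarith
    rw [z0] at e0
    have hg : g = g' := mul_right_cancel₀ z1 e0
    have g0 : g' ≠ 0 := by
      intro h0; rw [h0] at gy; simp at gy
    rw [hg] at e1 e3
    have f1 := mul_left_cancel₀ g0 e1
    have f2 := mul_left_cancel₀ g0 e3
    have fl : (lift x).1 = (lift y).1 := Prod.ext z0 (Prod.ext f1 f2)
    obtain ⟨c, hc⟩ := hF.im
    rw [hc, hc, fl] at him
    have him' : y.2.2.im + c (lift y).1 y.2.2.re = x.2.2.im + c (lift y).1 x.2.2.re + l := him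
    rw [hh] at him'
    have l1 : (l : ℝ) < 1 := by linarith [hx.im0, hy.im1]
    have l2 : (-1 : ℝ) < l := by linarith [hx.im1, hy.im0]
    have l0 : l = 0 := by
      have a : l < 1 := by exact_mod_cast l1
      have b : -1 < l := by exact_mod_cast l2
      omega
    rw [l0] at him'
    exact Prod.ext f1 (Prod.ext f2 (Complex.ext hh.symm (by simpa using him'.symm)))

end Pool.Agent.Lib.BallT6
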